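import Pool.Agent.N974.P21G.Rel
import Pool.Agent.N975.S21.Sum
import Pool.Agent.N969.RQ.Defs3

/-!
# P21G: the even symbols of `-m` (forms of level `3` prime to `7`) at the cusps `u / A`, `7 ∣ A`
-/

set_option autoImplicit false

namespace Pool.Agent.N974.GN.EvenHom

variable {R : Type*} [AddCommGroup R] [NoZeroSMulDivisors ℤ R] {φ : ℤ → ℤ → ℤ → ℤ → R}

/-- there is no even homomorphism of level `3` -/
theorem zero3 (H : EvenHom 3 φ) : ∀ a b c d : ℤ, a * d - 3 * (b * c) = 1 → φ a b c d = 0 := by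
  have gen1 : ∀ {A B D : ℤ}, A * D - 3 * (B * 1) = 1 → φ A B 1 D = 0 := by
    intro A B D h
    have hc : (3 : ℤ) ∣ D - 1 ∨ (3 : ℤ) ∣ D + 1 := by
      have hD3 : ¬ (3 : ℤ) ∣ D := by
        rintro ⟨k, rfl⟩
        have h1 : (3 : ℤ) ∣ 1 := ⟨A * k - B, by linear_combination -h⟩
        norm_num at h1
      omega
    rcases hc with h2 | h2
    · rw [H.modD (A := 1) (B := 0) (D := 1) (by norm_num) (by norm_num) h (by rwa [mul_one]), H.hV]
    · have h3 := H.ref (by norm_num : (1 : ℤ) * 1 - 3 * (0 * 1) = 1)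
      have h4 : (-1 : ℤ) * (-1) - 3 * (0 * 1) = 1 := by norm_num
      rw [H.modD (by norm_num) h4 h (by rwa [mul_one, sub_neg_eq_add]), h3, H.hV]
  intro a b c d h
  exact zero_of_prime (p := 3) (by norm_num) (by norm_num) (φ := φ) (by exact_mod_cast H)
    (fun {A B D} h => gen1 (by exact_mod_cast h)) d.natAbs a b c d (by exact_mod_cast h) rfl

end Pool.Agent.N974.GN.EvenHom

namespace Pool.Agent.N974.P21G

open Finset
open Pool.Agent.N969.P15 (un c2 Ev chE)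
open Pool.Agent.N969.P17G (gen chP chM)
open Pool.Agent.N969.RQ (Fd Flr R21r)
open Pool.Agent.N975.Sym (ev act act_inv ev_act ev10)
open Pool.Agent.N975.RQ (al al_ev al_dvd al_disc al_inv)
open Pool.Agent.N975.Ph (Phi)
open Pool.Agent.N974.GN (Wt Par X NZ U EvenHom NZ_inf X_pos)
open Pool.Agent.N877.P21G (Fn K0 cM EM gnM)

noncomputable section

/-- forms of discriminant `N²` with `3 ∣ a`, `7 ∤ a` -/
def cC (N : ℕ) (q : ℤ × ℤ × ℤ) : Prop := q.2.1 ^ 2 - 4 * q.1 * q.2.2 = (N : ℤ) ^ 2 ∧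
  (3 : ℤ) ∣ q.1 ∧ ¬ (7 : ℤ) ∣ q.1

/-- forms of discriminant `N²` of level `3` -/
def c3 (N : ℕ) (q : ℤ × ℤ × ℤ) : Prop := q.2.1 ^ 2 - 4 * q.1 * q.2.2 = (N : ℤ) ^ 2 ∧
  (3 : ℤ) ∣ q.1

open Classical in
/-- the weight of the forms with `3 ∣ a`, `7 ∤ a` -/
def kC (m : ℕ) (q : ℤ × ℤ × ℤ) : ℤ := if cC m q then gb m m q else 0

open Classical in
/-- the weight of level `3` -/
def k3 (m : ℕ) (q : ℤ × ℤ × ℤ) : ℤ := if c3 m q then gb m m q else 0

open Classical in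
/-- the even symbol of `-m`, forms with `3 ∣ a`, `7 ∤ a` -/
def EC' (m : ℕ) (x M : ℤ) : ℤ := ∑ᶠ q : ℤ × ℤ × ℤ,
  if cC m q ∧ 0 < q.1 ∧ q.1 * x ^ 2 + q.2.1 * x * M + q.2.2 * M ^ 2 < 0 then gnM m q else 0

variable {m : ℕ}

theorem kC_pos {q : ℤ × ℤ × ℤ} (h : cC m q) : kC m q = gb m m q := by
  unfold kC
  rw [if_pos h]

theorem kC_zero {q : ℤ × ℤ × ℤ} (h : ¬ cC m q) : kC m q = 0 := by
  unfold kC
  rw [if_neg h]

theorem kC_ne {q : ℤ × ℤ × ℤ} (h : kC m q ≠ 0) : cC m q := by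
  by_contra h1
  exact h (kC_zero h1)

theorem k3_pos {q : ℤ × ℤ × ℤ} (h : c3 m q) : k3 m q = gb m m q := by
  unfold k3
  rw [if_pos h]

theorem k3_zero {q : ℤ × ℤ × ℤ} (h : ¬ c3 m q) : k3 m q = 0 := by
  unfold k3
  rw [if_neg h]

theorem k3_ne {q : ℤ × ℤ × ℤ} (h : k3 m q ≠ 0) : c3 m q := by
  by_contra h1
  exact h (k3_zero h1)

theorem sum_k3 (h3 : ¬ (3 : ℤ) ∣ m) (h7 : ¬ (7 : ℤ) ∣ m) (q : ℤ × ℤ × ℤ) :
    k3 m q = kE m q + kS m q + kC m q := by
  by_cases h : c3 m q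
  · obtain ⟨hd, ha3⟩ := h
    by_cases ha : (7 : ℤ) ∣ q.1
    · have h21 : (21 : ℤ) ∣ q.1 := by omega
      have d3 : (3 : ℤ) ∣ q.2.1 - m ∨ (3 : ℤ) ∣ q.2.1 + m := by
        apply dor3
        have e : (q.2.1 - m) * (q.2.1 + (m : ℤ)) = 4 * q.1 * q.2.2 := by linear_combination hd
        rw [e]
        exact (ha3.mul_left 4).mul_right _
      have d7 : (7 : ℤ) ∣ q.2.1 - m ∨ (7 : ℤ) ∣ q.2.1 + m := by
        apply dor7
        have e : (q.2.1 - m) * (q.2.1 + (m : ℤ)) = 4 * q.1 * q.2.2 := by linear_combination hd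
        rw [e]
        exact (ha.mul_left 4).mul_right _
      have hC : ¬ cC m q := fun h => h.2.2 ha
      rw [k3_pos ⟨hd, ha3⟩, kC_zero hC, add_zero]
      rcases d3 with d3 | d3 <;> rcases d7 with d7 | d7
      · have hE : ¬ cM m q := by
          rintro ⟨-, -, h | h⟩ <;> omega
        rw [kE_zero hE, kS_pos ⟨hd, h21, Or.inl ⟨d3, d7⟩⟩, zero_add]
      · have hS : ¬ cS m q := by
          rintro ⟨-, -, h | h⟩ <;> omega
        rw [kS_zero hS, kE_pos ⟨hd, h21, Or.inl ⟨d3, d7⟩⟩, add_zero]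
      · have hS : ¬ cS m q := by
          rintro ⟨-, -, h | h⟩ <;> omega
        rw [kS_zero hS, kE_pos ⟨hd, h21, Or.inr ⟨d3, d7⟩⟩, add_zero]
      · have hE : ¬ cM m q := by
          rintro ⟨-, -, h | h⟩ <;> omega
        rw [kE_zero hE, kS_pos ⟨hd, h21, Or.inr ⟨d3, d7⟩⟩, zero_add]
    · have hE : ¬ cM m q := fun h => ha (by have := h.2.1; omega)
      have hS : ¬ cS m q := fun h => ha (by have := h.2.1; omega)
      rw [k3_pos ⟨hd, ha3⟩, kE_zero hE, kS_zero hS, kC_pos ⟨hd, ha3, ha⟩, zero_add, zero_add]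
  · have hE : ¬ cM m q := fun h1 => h ⟨h1.1, by have := h1.2.1; omega⟩
    have hS : ¬ cS m q := fun h1 => h ⟨h1.1, by have := h1.2.1; omega⟩
    have hC : ¬ cC m q := fun h1 => h ⟨h1.1, h1.2.1⟩
    rw [k3_zero h, kE_zero hE, kS_zero hS, kC_zero hC]
    ring

theorem c3_act {a b c d : ℤ} (h : a * d - b * (3 * c) = 1) {f : ℤ × ℤ × ℤ}
    (hf : c3 m f) : c3 m (act a b (3 * c) d f) := by
  obtain ⟨h1, k, hk⟩ := hf
  refine ⟨act_disc h1 h, k * a ^ 2 + f.2.1 * a * c + f.2.2 * 3 * c ^ 2, ?_⟩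
  unfold act
  simp only
  rw [hk]
  ring

theorem cC_act {a b c d : ℤ} (h : a * d - b * (21 * c) = 1) {f : ℤ × ℤ × ℤ}
    (hf : cC m f) : cC m (act a b (21 * c) d f) := by
  obtain ⟨h1, h2, h3⟩ := hf
  refine ⟨act_disc h1 h, ?_, ?_⟩
  · obtain ⟨k, hk⟩ := h2
    refine ⟨k * a ^ 2 + f.2.1 * a * (7 * c) + f.2.2 * 147 * c ^ 2, ?_⟩
    unfold act
    simp only
    rw [hk]
    ring
  · intro h4
    have h5 : (7 : ℤ) ∣ f.1 * a ^ 2 := by
      have e : f.1 * a ^ 2 = (act a b (21 * c) d f).1 -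
          7 * (f.2.1 * a * (3 * c) + f.2.2 * 63 * c ^ 2) := by
        unfold act
        simp only
        ring
      rw [e]
      exact h4.sub (dvd_mul_right _ _)
    have p7z : Prime (7 : ℤ) := by
      have := Nat.prime_iff_prime_int.1 p7
      exact_mod_cast this
    rcases p7z.dvd_or_dvd h5 with h6 | h6
    · exact h3 h6
    · have h7 : (7 : ℤ) ∣ a := p7z.dvd_of_dvd_pow h6
      obtain ⟨j, hj⟩ := h7
      have h8 : (7 : ℤ) ∣ 1 := ⟨j * d - b * (3 * c), by rw [← h, hj]; ring⟩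
      omega

theorem wt_k3 (hm : Fn m) : Pool.Agent.N975.Ph.Wt 3 ((m : ℤ) ^ 2) (k3 m) where
  D0 := D_pos hm
  disc := fun f hf => (k3_ne hf).1
  inv := by
    intro a b c d h f
    by_cases hf : c3 m f
    · rw [k3_pos hf, k3_pos (c3_act h hf), gb_act (ok_of hm) hf.1 h]
    · rw [k3_zero hf, k3_zero]
      intro h1
      apply hf
      have h2 := c3_act (a := d) (b := -b) (c := -c) (d := a) (by linear_combination h) h1
      have e : (3 : ℤ) * -c = -(3 * c) := by ring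
      rw [e, act_inv h] at h2
      exact h2

theorem wt_kC (hm : Fn m) : Wt 21 ((m : ℤ) ^ 2) (kC m) where
  ne := (D_pos hm).ne'
  disc := fun f hf => (kC_ne hf).1
  inv := by
    intro a b c d h f
    by_cases hf : cC m f
    · rw [kC_pos hf, kC_pos (cC_act h hf), gb_act (ok_of hm) hf.1 h]
    · rw [kC_zero hf, kC_zero (fun h1 => hf ((iff_of_act (P := cC m) cC_act h).1 h1))]
  ninf := by
    intro f h0
    by_contra hf
    apply (kC_ne hf).2.2
    rw [h0]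
    exact dvd_zero _

theorem c3_refl {a b c : ℤ} : c3 m (-a, b, -c) ↔ c3 m (a, b, c) := by
  unfold c3
  simp only [dvd_neg]
  have : b ^ 2 - 4 * -a * -c = b ^ 2 - 4 * a * c := by ring
  rw [this]

theorem cC_refl {a b c : ℤ} : cC m (-a, b, -c) ↔ cC m (a, b, c) := by
  unfold cC
  simp only [dvd_neg]
  have : b ^ 2 - 4 * -a * -c = b ^ 2 - 4 * a * c := by ring
  rw [this]

theorem cC_neg {q : ℤ × ℤ × ℤ} : cC m (-q) ↔ cC m q := by
  unfold cC
  simp only [Prod.fst_neg, Prod.snd_neg, dvd_neg]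
  have e0 : (-q.2.1) ^ 2 - 4 * -q.1 * -q.2.2 = q.2.1 ^ 2 - 4 * q.1 * q.2.2 := by ring
  rw [e0]

theorem par_k3 (hm : Fn m) : Pool.Agent.N975.Ph.Par (k3 m) (-1) := by
  intro a b c
  by_cases hf : c3 m (a, b, c)
  · rw [k3_pos hf, k3_pos (c3_refl.2 hf), gnM_neg hm a b c b]
    ring
  · rw [k3_zero hf, k3_zero (fun h1 => hf (c3_refl.1 h1)), mul_zero]

theorem par_kC (hm : Fn m) : Par (kC m) (-1) := by
  intro a b c
  by_cases hf : cC m (a, b, c)
  · rw [kC_pos hf, kC_pos (cC_refl.2 hf), gnM_neg hm a b c b]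
    ring
  · rw [kC_zero hf, kC_zero (fun h1 => hf (cC_refl.1 h1)), mul_zero]

theorem kC_neg (hm : Fn m) (q : ℤ × ℤ × ℤ) : kC m (-q) = -kC m q := by
  by_cases hf : cC m q
  · rw [kC_pos hf, kC_pos (cC_neg.2 hf)]
    exact gnM_neg hm q.1 q.2.1 q.2.2 (-q.2.1)
  · rw [kC_zero hf, kC_zero (fun h1 => hf (cC_neg.1 h1)), neg_zero]

theorem X_kC (hm : Fn m) (x M : ℤ) : X (kC m) x M = 4 * EC' m x M := by
  classical
  rw [X_pos (wt_kC hm) x M]
  have e : ∀ q : ℤ × ℤ × ℤ, (if 0 < q.1 ∧ ev q x M < 0 then kC m q - kC m (-q) else 0) =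
      2 * (if cC m q ∧ 0 < q.1 ∧ q.1 * x ^ 2 + q.2.1 * x * M + q.2.2 * M ^ 2 < 0 then
        gnM m q else 0) := by
    intro q
    rw [kC_neg hm q]
    by_cases h : 0 < q.1 ∧ ev q x M < 0
    · rw [if_pos h]
      by_cases h1 : cC m q
      · rw [if_pos ⟨h1, h⟩, kC_pos h1]
        have : gb m m q = gnM m q := rfl
        rw [this]
        ring
      · rw [if_neg (fun h2 => h1 h2.1), kC_zero h1]
        ring
    · rw [if_neg h, if_neg (fun h2 => h h2.2), mul_zero]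
  rw [finsum_congr e, ← mul_finsum]
  unfold EC'
  ring

theorem nz_kC : NZ (kC m) 1 7 := by
  intro f h0
  by_contra hf
  apply (kC_ne hf).2.2
  refine ⟨-(f.2.1 + 7 * f.2.2), ?_⟩
  unfold ev at h0
  linear_combination h0

/-- there is no even symbol of level `3` -/
theorem Phi3 (hm : Fn m) {a b c d : ℤ} (h : a * d - 21 * (b * c) = 1) :
    Phi 21 (k3 m) a b c d = 0 := by
  have e : (21 : ℤ) = 3 * 7 := by norm_num
  rw [e, Pool.Agent.N975.Ph.Phi_level]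
  exact (evenPhi (wt_k3 hm) (par_k3 hm)).zero3 a b (7 * c) d (by linear_combination h)

theorem Phi_sum3 (hm : Fn m) (h3 : ¬ (3 : ℤ) ∣ m) (h7 : ¬ (7 : ℤ) ∣ m) {a b c d : ℤ}
    (h : a * d - 21 * (b * c) = 1) :
    Phi 21 (kE m) a b c d + Phi 21 (kS m) a b c d + Phi 21 (kC m) a b c d = 0 := by
  have h' : a * d - b * (21 * c) = 1 := by linear_combination h
  have HE := wt_of (wt_kE hm h3 h7) (D_pos hm)
  have HS := wt_kS hm h3 h7
  have HC := wt_of (wt_kC hm) (D_pos hm)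
  have HES : Pool.Agent.N975.Ph.Wt 21 ((m : ℤ) ^ 2) (fun q => kE m q + kS m q) := by
    refine ⟨D_pos hm, ?_, ?_⟩
    · intro q hq
      by_cases h1 : kE m q = 0
      · exact HS.disc q (fun h2 => hq (by rw [h1, h2, add_zero]))
      · exact HE.disc q h1
    · intro a b c d h q
      rw [HE.inv h, HS.inv h]
  rw [← Pool.Agent.N975.Ph.Phi_add HE HS h', ← Pool.Agent.N975.Ph.Phi_add HES HC h']
  have e : (fun q => kE m q + kS m q + kC m q) = k3 m := funext fun q => (sum_k3 h3 h7 q).symm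
  rw [e]
  exact Phi3 hm h

theorem chM_seven (hm : K0 m) : chM m 7 = 1 := by
  rcases hm with ⟨hsq, h4, -, h7⟩ | ⟨hE, -, h7⟩
  · have h2 : ¬ 2 ∣ m := by omega
    have e : chM m 7 = jacobiSym 7 m := by
      unfold chM
      rw [if_neg h2, one_mul,
        Finset.erase_eq_of_notMem (fun h => h2 (Nat.dvd_of_mem_primeFactors h)),
        Pool.Agent.N975.PG.jac_prod _ hsq]
    rw [e]
    exact N975.S21.chi7O h4 h7
  · have h2 : 2 ∣ m := even_of_ev hE
    have e : chM m 7 = chE m 7 := by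
      unfold chM chE
      rw [if_pos h2]
    rw [e]
    exact N975.S21.chi7E hE h7

/-- the involution of level `7` exchanges the two orientations -/
theorem kS_al7 (hm : K0 m) {q : ℤ × ℤ × ℤ} (hq : (7 : ℤ) * 3 ∣ q.1) :
    kS m (al 7 3 1 1 2 1 q) = 1 * kE m q := by
  have hF := fn_K0 hm
  have h3 := K0_3 hm
  have h7 := K0_7 hm
  have hq7 : (7 : ℤ) ∣ q.1 := (Dvd.intro _ rfl).trans hq
  have hdet : (7 : ℤ) * 1 * 1 - 3 * 1 * 2 = 1 := by norm_num
  have hdisc := al_disc (Q := 7) (R := 3) (α := 1) (B := 1) (γ := 2) (δ := 1)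
    (by norm_num) hdet hq7
  have hdv : (7 : ℤ) * 3 ∣ (al 7 3 1 1 2 1 q).1 := al_dvd hq
  have hmid : (al 7 3 1 1 2 1 q).2.1 = 2 * q.1 + 13 * q.2.1 + 84 * q.2.2 := by
    unfold al
    simp only
    ring
  obtain ⟨t, ht⟩ := hq
  by_cases hM : cM m q
  · obtain ⟨hd, h21, hor⟩ := hM
    have hS : cS m (al 7 3 1 1 2 1 q) := by
      refine ⟨by rw [hdisc, hd], by norm_num at hdv; exact hdv, ?_⟩
      rw [hmid]
      rcases hor with ⟨h1, h2⟩ | ⟨h1, h2⟩
      · left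
        constructor <;> omega
      · right
        constructor <;> omega
    have hcop : IsCoprime (7 : ℤ) (m : ℤ) := by
      have p7z : Prime (7 : ℤ) := by
        have := Nat.prime_iff_prime_int.1 p7
        exact_mod_cast this
      exact p7z.coprime_iff_not_dvd.2 h7
    rw [kS_pos hS, kE_pos ⟨hd, h21, hor⟩, gb_al (ok_of hF) (by norm_num) hdet hd ⟨t, ht⟩ hcop]
    have h := chM_seven hm
    unfold chM at h
    rw [h]
  · have hS : ¬ cS m (al 7 3 1 1 2 1 q) := by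
      rintro ⟨hd, -, hor⟩
      apply hM
      rw [hdisc] at hd
      rw [hmid] at hor
      refine ⟨hd, by rw [ht]; exact ⟨t, by ring⟩, ?_⟩
      rcases hor with ⟨h1, h2⟩ | ⟨h1, h2⟩
      · left
        constructor <;> omega
      · right
        constructor <;> omega
    rw [kS_zero hS, kE_zero hM, mul_zero]

/-- **the relation of the two weights** -/
theorem rel_kC (hm : K0 m) : X (kC m) 11 (21 * 1) = -2 * X (kE m) 11 (21 * 1) := by
  have hF := fn_K0 hm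
  have h3 := K0_3 hm
  have h7 := K0_7 hm
  have hE := wt_kE hF h3 h7
  have hP : Pool.Agent.N975.Ph.Par (kE m) (-1) := par_kE hF
  have HE := wt_of hE (D_pos hF)
  have h0 : (11 : ℤ) * 2 - 1 * (21 * 1) = 1 := by norm_num
  have s1 := Phi_sum3 hF h3 h7 (a := 11) (b := 1) (c := 1) (d := 2) (by norm_num)
  have e21 : (7 : ℤ) * 3 = 21 := by norm_num
  have s2 := Pool.Agent.N975.Ph.Phi_al (Q := 7) (R := 3) (α := 1) (B := 1) (γ := 2) (δ := 1)
    (k := kE m) (k' := kS m) (D := (m : ℤ) ^ 2) (ε := 1) (by norm_num) (by norm_num)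
    (by rw [e21]; exact HE)
    (fun q hq => by rw [e21]; exact (kE_ne hq).2.1)
    (fun q hq => by rw [e21]; exact (kS_ne hq).2.1) (by norm_num)
    (fun q hq => kS_al7 hm hq) (a := 11) (b := 1) (c := 1) (d := 2) (by norm_num)
  rw [e21] at s2
  norm_num at s2
  have s3 := (evenPhi HE hP).w3
  have s4 := (evenPhi HE hP).inv (by norm_num : (44 : ℤ) * (-31) - 21 * ((-5) * 13) = 1)
  norm_num at s4
  rw [s3] at s4
  rw [← Phi_X hE (D_pos hF) h0, ← Phi_X (wt_kC hF) (D_pos hF) h0]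
  linarith

theorem gcd7 {A : ℕ} (h3 : ¬ 3 ∣ A) (h7 : 7 ∣ A) : Nat.gcd 7 21 = Nat.gcd A 21 := by
  rw [show (21 : ℕ) = 7 * 3 by norm_num, Nat.gcd_eq_left (dvd_mul_right 7 3),
    Nat.Coprime.gcd_mul_right_cancel_right 7
      ((Nat.Prime.coprime_iff_not_dvd Nat.prime_three).2 h3).symm.symm,
    Nat.gcd_eq_right h7]

/-- **SIGR**, general `m` -/
theorem sigr {A : ℕ} (hF : Fd A) (hA3 : ¬ 3 ∣ A) (hA7 : 7 ∣ A) (hm : K0 m) :
    ((∑ u ∈ un A, chP A u * EC' m u A : ℤ) : ℝ) = -2 * (EM m 1 2 - EM m 0 1 : ℤ) * sig A := by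
  have h3 := K0_3 hm
  have h7 := K0_7 hm
  have hn := fn_K0 hm
  have H := wt_kC hn
  have h1 := sum_sig H (par_kC hn) hF (m₀ := 7) (x₀ := 1) (by norm_num) (by norm_num)
    (gcd7 hA3 hA7) nz_kC
  rw [sum_four (X_kC hn), rel_kC hm, X11 (wt_kE hn h3 h7) (nz_kE h3 h7), X_kE hn h3 h7,
    X_kE hn h3 h7] at h1
  push_cast at h1 ⊢
  linarith

/-- for a prime the symbol is the symbol of the project RQ -/
theorem EC_prime {l : ℕ} (hl : l.Prime) (h2 : l ≠ 2) (x M : ℤ) : EC' l x M = Flr 7 3 l x M := by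
  classical
  unfold EC' Flr
  apply finsum_congr
  intro q
  have e : gnM l q = gen l q := by
    unfold gnM
    have h3 : ¬ 2 ∣ l := fun h => h2 ((Nat.prime_dvd_prime_iff_eq Nat.prime_two hl).1 h).symm
    rw [if_neg h3, one_mul, hl.primeFactors, Finset.erase_eq_of_notMem (by
      rw [Finset.mem_singleton]
      exact fun h => h2 h.symm), Finset.prod_singleton]
  rw [e]
  have e3 : ((3 : ℕ) : ℤ) = 3 := by norm_num
  have e7 : ((7 : ℕ) : ℤ) = 7 := by norm_num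
  rw [e3, e7]
  by_cases h : cC l q ∧ 0 < q.1 ∧ q.1 * x ^ 2 + q.2.1 * x * M + q.2.2 * M ^ 2 < 0
  · rw [if_pos h, if_pos ⟨h.1.1, h.1.2.1, h.1.2.2, h.2⟩]
  · rw [if_neg h, if_neg (fun h1 => h ⟨⟨h1.1, h1.2.1, h1.2.2.1⟩, h1.2.2.2⟩)]

/-- **SIGR** -/
theorem t_SIGR {A l : ℕ} (hA : R21r A) (hl : l.Prime) (hc : Pool.Agent.N877.P21.Cls0 l) :
    ((∑ u ∈ un A, chP A u * Flr 7 3 l u A : ℤ) : ℝ) =
      -2 * (EM l 1 2 - EM l 0 1 : ℤ) * sig A := by
  have h2 : l ≠ 2 := by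
    rintro rfl
    have := hc.2.1
    omega
  rw [← sigr hA.1 (by have := hA.2.1; omega) hA.2.2 (Or.inl hc)]
  congr 1
  exact Finset.sum_congr rfl fun u _ => by rw [EC_prime hl h2]

end

end Pool.Agent.N974.P21G
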