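import Pool.Agent.N974.GN.EvenH

/-!
# Even homomorphisms: level `7`, the involution of level `3` on the even homomorphisms of level `21`
-/

set_option autoImplicit false

namespace Pool.Agent.N974.GN

namespace EvenHom

variable {R : Type*} [AddCommGroup R] [NoZeroSMulDivisors ℤ R] {φ : ℤ → ℤ → ℤ → ℤ → R}

/-! ### prime level: reduction to the generators with `c = 1` -/

theorem zero_of_prime {p : ℕ} (hp : p.Prime) (hp2 : 2 < p) (H : EvenHom (p : ℤ) φ)
    (g1 : ∀ {A B D : ℤ}, A * D - (p : ℤ) * (B * 1) = 1 → φ A B 1 D = 0) (n : ℕ) :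
    ∀ a b c d : ℤ, a * d - (p : ℤ) * (b * c) = 1 → d.natAbs = n → φ a b c d = 0 := by
  obtain ⟨N, hN⟩ : ∃ N : ℤ, N = (p : ℤ) := ⟨_, rfl⟩
  have hpP : Prime (p : ℤ) := Nat.prime_iff_prime_int.1 hp
  rw [← hN] at H g1 ⊢
  have d_ne : ∀ {a b c d : ℤ}, a * d - N * (b * c) = 1 → d ≠ 0 := by
    rintro a b c d h rfl
    have h1 : (p : ℤ) ∣ 1 := ⟨-(b * c), by rw [hN] at h; linear_combination -h⟩
    exact hpP.not_isUnit (isUnit_of_dvd_one h1)
  induction n using Nat.strong_induction_on with
  | _ n ih =>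
    intro a b c d h hn
    have hd := d_ne h
    by_cases h1 : d = 1
    · subst h1
      exact H.base h
    by_cases h2 : d = -1
    · subst h2
      rw [← H.neg h]
      exact H.base (by linear_combination h)
    have hnd : ¬ d ∣ N * b := by
      rintro ⟨k, hk⟩
      have h3 : d ∣ 1 := ⟨a - k * c, by linear_combination -h - c * hk⟩
      rcases Int.isUnit_iff.1 (isUnit_of_dvd_one h3) with h4 | h4
      · exact h1 h4
      · exact h2 h4
    wlog hdp : 0 < d generalizing a b c d
    · have h3 := this (-a) (-b) (-c) (-d) (by linear_combination h) (by rw [Int.natAbs_neg, hn])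
        (by omega) (by omega) (by omega)
        (by
          intro h4
          apply hnd
          have h5 : N * -b = -(N * b) := by ring
          rw [h5, dvd_neg, neg_dvd] at h4
          exact h4) (by omega)
      rwa [H.neg h] at h3
    have hr0 := Int.emod_nonneg (N * b) hd
    have hr1 := Int.emod_lt_of_pos (N * b) hdp
    have hr2 : N * b % d ≠ 0 := fun h3 => hnd (Int.dvd_of_emod_eq_zero h3)
    have hr3 := Int.emod_add_mul_ediv (N * b) d
    have s1 : ∀ D : ℤ, ¬ (p : ℤ) ∣ D → |N * b + D * d| < |d| → φ a b c d = 0 := by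
      intro D h3 hlt
      have hcop : IsCoprime D N := by
        rw [hN, isCoprime_comm]
        exact hpP.coprime_iff_not_dvd.2 h3
      obtain ⟨u, v, huv⟩ := hcop
      have hAB : u * D - N * (-v * 1) = 1 := by linear_combination huv
      have h3 := H.hom (a := u) (b := -v) (c := 1) (d := D) (a' := a) (b' := b) (c' := c)
        (d' := d) hAB h
      rw [g1 hAB, zero_add] at h3
      rw [← h3]
      refine ih _ ?_ _ _ _ _ ?_ rfl
      · rw [← hn]
        zify
        rw [mul_one]
        exact hlt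
      · linear_combination h + (a * d - N * (b * c)) * hAB
    have hpz : (2 : ℤ) < p := by exact_mod_cast hp2
    obtain ⟨t, ht⟩ : ∃ t, t = N * b / d := ⟨_, rfl⟩
    rw [← ht] at hr3
    by_cases c1 : (p : ℤ) ∣ t
    · have c2 : ¬ (p : ℤ) ∣ t + 1 := by
        intro h4
        have h5 : (p : ℤ) ∣ 1 := by
          have := dvd_sub h4 c1
          rwa [add_sub_cancel_left] at this
        have := Int.le_of_dvd one_pos h5
        omega
      refine s1 (-(t + 1)) (by rw [dvd_neg]; exact c2) ?_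
      have e : N * b + -(t + 1) * d = N * b % d - d := by
        linear_combination -hr3
      rw [e, abs_of_pos hdp, abs_lt]
      constructor <;> omega
    · refine s1 (-t) (by rw [dvd_neg]; exact c1) ?_
      have e : N * b + -t * d = N * b % d := by
        linear_combination -hr3
      rw [e, abs_of_nonneg hr0, abs_of_pos hdp]
      exact hr1

/-- an even homomorphism vanishes on the elements of order `3` -/
theorem ord3 {N : ℤ} (H : EvenHom N φ) {a b c d : ℤ} (h : a * d - N * (b * c) = 1)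
    (ht : a + d = -1) : φ a b c d = 0 := by
  have h1 := H.hom h h
  have h2 := H.hom (a := a * a + b * (N * c)) (b := a * b + b * d) (c := c * a + d * c)
    (d := N * c * b + d * d) (a' := a) (b' := b) (c' := c) (d' := d)
    (by linear_combination (a * d - N * (b * c) + 1) * h) h
  have hd : d = -1 - a := by linarith
  subst hd
  have e1 : (a * a + b * (N * c)) * a + (a * b + b * (-1 - a)) * (N * c) = 1 := by
    linear_combination (1 - a) * h
  have e2 : (a * a + b * (N * c)) * b + (a * b + b * (-1 - a)) * (-1 - a) = 0 := by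
    linear_combination -b * h
  have e3 : (c * a + (-1 - a) * c) * a + (N * c * b + (-1 - a) * (-1 - a)) * c = 0 := by
    linear_combination -c * h
  have e4 : N * (c * a + (-1 - a) * c) * b + (N * c * b + (-1 - a) * (-1 - a)) * (-1 - a) = 1 := by
    linear_combination (a + 2) * h
  rw [e1, e2, e3, e4, H.one, h1] at h2
  have h3 : (3 : ℤ) • φ a b c (-1 - a) = 0 := by
    rw [show (3 : ℤ) = 1 + 1 + 1 by norm_num, add_smul, add_smul, one_smul]
    exact h2.symm
  exact smul_zero' (by norm_num) h3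

/-- there is no even homomorphism of level `7` -/
theorem zero7 (H : EvenHom 7 φ) : ∀ a b c d : ℤ, a * d - 7 * (b * c) = 1 → φ a b c d = 0 := by
  have gen1 : ∀ {A B D : ℤ}, A * D - 7 * (B * 1) = 1 → φ A B 1 D = 0 := by
    intro A B D h
    have key : ∀ {A0 B0 D0 : ℤ}, A0 * D0 - 7 * (B0 * 1) = 1 → φ A0 B0 1 D0 = 0 →
        ((7 : ℤ) ∣ D - D0 ∨ (7 : ℤ) ∣ D + D0) → φ A B 1 D = 0 := by
      intro A0 B0 D0 h0 h1 h2
      rcases h2 with h2 | h2
      · rw [H.modD (by norm_num) h0 h (by rwa [mul_one]), h1]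
      · have h3 := H.ref h0
        have h4 : (-A0) * (-D0) - 7 * (B0 * 1) = 1 := by linear_combination h0
        rw [H.modD (by norm_num) h4 h (by rwa [mul_one, sub_neg_eq_add]), h3, h1]
    have hD7 : ¬ (7 : ℤ) ∣ D := by
      rintro ⟨k, rfl⟩
      have h1 : (7 : ℤ) ∣ 1 := ⟨A * k - B, by linear_combination -h⟩
      norm_num at h1
    have hc : ((7 : ℤ) ∣ D - 1 ∨ (7 : ℤ) ∣ D + 1) ∨ ((7 : ℤ) ∣ D - 2 ∨ (7 : ℤ) ∣ D + 2) ∨
        ((7 : ℤ) ∣ D - 4 ∨ (7 : ℤ) ∣ D + 4) := by omega
    rcases hc with hc | hc | hc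
    · exact key (A0 := 1) (B0 := 0) (by norm_num) H.hV hc
    · exact key (A0 := -3) (B0 := -1) (D0 := 2) (by norm_num)
        (H.ord3 (by norm_num) (by norm_num)) hc
    · exact key (A0 := -5) (B0 := -3) (D0 := 4) (by norm_num)
        (H.ord3 (by norm_num) (by norm_num)) hc
  intro a b c d h
  exact zero_of_prime (p := 7) (by norm_num) (by norm_num) (φ := φ) (by exact_mod_cast H)
    (fun {A B D} h => gen1 (by exact_mod_cast h)) d.natAbs a b c d (by exact_mod_cast h) rfl

/-- the involution of level `3` -/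
theorem w3 (H : EvenHom 21 φ) : φ (-31) 5 (-13) 44 = -φ 11 1 1 2 := by
  have g13 : φ 13 4 2 13 = 0 := two_zero (H.tr (by norm_num : (13 : ℤ) * 13 - 21 * (4 * 2) = 1))
  have g8 : φ 8 3 1 8 = 0 := two_zero (H.tr (by norm_num : (8 : ℤ) * 8 - 21 * (3 * 1) = 1))
  have e45 : φ 16 3 1 4 = -φ 17 4 1 5 := by
    have h3 := H.ref (by norm_num : (5 : ℤ) * 17 - 21 * (4 * 1) = 1)
    have h4 : φ 5 4 1 17 = -φ 17 4 1 5 := H.tr (by norm_num)
    have h5 : φ 16 3 1 4 = φ (-5) 4 1 (-17) :=
      H.modD (by norm_num) (by norm_num) (by norm_num) (by norm_num)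
    rw [h5, h3, h4]
  have g5 : φ 17 4 1 5 = 0 := by
    have h1 := H.step (A := 16) (B := 3) (D := 4) (A' := 17) (B' := 4) (by norm_num) (by norm_num)
    norm_num at h1
    have h2 : φ 17 (-13) 1 (-16) = φ 17 4 1 5 :=
      H.modD (by norm_num) (by norm_num) (by norm_num) (by norm_num)
    rw [h2, e45] at h1
    have h6 : (3 : ℤ) • φ 17 4 1 5 = 0 := by
      have h7 : (3 : ℤ) • φ 17 4 1 5 = φ 17 4 1 5 - (-φ 17 4 1 5 - φ 17 4 1 5) := by
        rw [show (3 : ℤ) = 1 + 1 + 1 by norm_num, add_smul, add_smul, one_smul]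
        abel
      rw [h7, ← h1, sub_self]
    exact smul_zero' (by norm_num) h6
  have g4 : φ 16 3 1 4 = 0 := by rw [e45, g5, neg_zero]
  -- the chain
  have s1 := H.hom (a := 10) (b := -1) (c := 1) (d := -2) (a' := -31) (b' := 5) (c' := -13)
    (d' := 44) (by norm_num) (by norm_num)
  norm_num at s1
  have v1 : φ 10 (-1) 1 (-2) = φ 11 1 1 2 := by
    have h3 := H.ref (by norm_num : (11 : ℤ) * 2 - 21 * (1 * 1) = 1)
    rw [← h3]
    exact H.modD (by norm_num) (by norm_num) (by norm_num) (by norm_num)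
  have s2 := H.hom (a := 13) (b := -5) (c := 1) (d := -8) (a' := -37) (b' := 6) (c' := -5)
    (d' := 17) (by norm_num) (by norm_num)
  norm_num at s2
  have v2 : φ 13 (-5) 1 (-8) = 0 := by
    have h3 := H.ref (by norm_num : (8 : ℤ) * 8 - 21 * (3 * 1) = 1)
    rw [g8] at h3
    rw [← h3]
    exact H.modD (by norm_num) (by norm_num) (by norm_num) (by norm_num)
  have s3 := H.hom (a := 13) (b := -9) (c := 2) (d := -29) (a' := -44) (b' := 7) (c' := -3)
    (d' := 10) (by norm_num) (by norm_num)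
  norm_num at s3
  have v3 : φ 13 (-9) 2 (-29) = 0 := by
    rw [← g13]
    exact H.modD (by norm_num) (by norm_num) (by norm_num) (by norm_num)
  have v4 : φ (-44) 7 (-3) 10 = φ 44 (-7) 3 (-10) := by
    have h3 := H.neg (by norm_num : (44 : ℤ) * (-10) - 21 * (-7 * 3) = 1)
    norm_num at h3
    exact h3
  have v5 : φ (-5) 1 (-1) 4 = 0 := by
    have h3 := H.even (by norm_num : (-5 : ℤ) * 4 - 21 * (-1 * 1) = 1)
    norm_num at h3
    rw [h3, ← g4]
    exact H.modD (by norm_num) (by norm_num) (by norm_num) (by norm_num)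
  rw [v3, zero_add, v4, v5] at s3
  rw [v2, zero_add, ← s3] at s2
  rw [v1, ← s2] at s1
  exact (neg_eq_of_add_eq_zero_right s1.symm).symm

end EvenHom

end Pool.Agent.N974.GN
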