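import Pool.Agent.N974.P21G.Cm
import Pool.Agent.N974.P21G.Ev7
import Pool.Agent.N975.Ph.Odd
import Pool.Agent.N975.ChE2

/-!
# P21G: the relation `EB = -2 EM` of the two even symbols of `-m`, `m` in `K0` (there is no even
symbol of level `7`); the comparison `CMPE`
-/

set_option autoImplicit false

namespace Pool.Agent.N974.P21G

open Finset
open Pool.Agent.N969.P15 (un c2 Ev chE)
open Pool.Agent.N969.P17G (gen chP chM)
open Pool.Agent.N969.RQ (Fd)
open Pool.Agent.N402.P15 (q2 c2_congr)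
open Pool.Agent.N975.ChE (c2_mul c2_pm c2_even c2_one)
open Pool.Agent.N975.PG (gp gp_act gp_neg gp_val jac_sq jac_zero)
open Pool.Agent.N975.Sym (ev act act_inv ev_act ev10)
open Pool.Agent.N975.RQ (al al_ev al_dvd al_disc al_inv)
open Pool.Agent.N975.Ph (Phi)
open Pool.Agent.N974.GN (Par X NZ U EvenHom NZ_inf)
open Pool.Agent.N974.RQ (mA)
open Pool.Agent.N877.P21G (Fn Ai A0 As K0 K7 cM cB CMPE)
open Pool.Agent.Y687 (RankBSD)

noncomputable section

/-! ### the genus character under Atkin-Lehner operators -/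

variable {Q R α B γ δ : ℤ}

/-- the case of a form divisible by `p` -/
theorem al_zero (hQ : Q ≠ 0) (hdet : Q * α * δ - R * B * γ = 1) {q : ℤ × ℤ × ℤ}
    (hq : Q * R ∣ q.1) {p : ℕ} (hp : p.Prime) (hpQ : ¬ (p : ℤ) ∣ Q)
    (h1 : (p : ℤ) ∣ (al Q R α B γ δ q).1) (h2 : (p : ℤ) ∣ (al Q R α B γ δ q).2.1)
    (h3 : (p : ℤ) ∣ (al Q R α B γ δ q).2.2) : (p : ℤ) ∣ q.1 ∧ (p : ℤ) ∣ q.2.2 := by
  have hpp := Nat.prime_iff_prime_int.1 hp
  have hinv := al_inv hQ hdet hq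
  have hQd : Q ∣ (al Q R α B γ δ q).1 := (Dvd.intro _ rfl).trans (al_dvd hq)
  have key : ∀ x y : ℤ, (p : ℤ) ∣ ev q x y := by
    intro x y
    have h := al_ev (R := R) (α := δ) (B := -B) (γ := -γ) (δ := α) hQd x y
    rw [hinv] at h
    have h4 : (p : ℤ) ∣ Q * ev q x y := by
      rw [h]
      unfold ev
      exact ((h1.mul_right _).add ((h2.mul_right _).mul_right _)).add (h3.mul_right _)
    exact (hpp.dvd_or_dvd h4).resolve_left hpQ
  have e1 : ev q 1 0 = q.1 := by unfold ev; ring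
  have e2 : ev q 0 1 = q.2.2 := by unfold ev; ring
  exact ⟨e1 ▸ key 1 0, e2 ▸ key 0 1⟩

theorem mid_dvd (hQ : Q ≠ 0) (hdet : Q * α * δ - R * B * γ = 1) {q : ℤ × ℤ × ℤ}
    (hq : Q ∣ q.1) {p : ℕ} (hp : p.Prime) (hd : (p : ℤ) ∣ q.2.1 ^ 2 - 4 * q.1 * q.2.2)
    (h1 : (p : ℤ) ∣ (al Q R α B γ δ q).1) : (p : ℤ) ∣ (al Q R α B γ δ q).2.1 := by
  have h := al_disc (R := R) hQ hdet hq
  rw [← h] at hd
  have h4 : (p : ℤ) ∣ (al Q R α B γ δ q).2.1 ^ 2 := by
    have e : (al Q R α B γ δ q).2.1 ^ 2 = ((al Q R α B γ δ q).2.1 ^ 2 -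
      4 * (al Q R α B γ δ q).1 * (al Q R α B γ δ q).2.2) +
      4 * (al Q R α B γ δ q).1 * (al Q R α B γ δ q).2.2 := by ring
    rw [e]
    exact hd.add ((h1.mul_left 4).mul_right _)
  exact (Nat.prime_iff_prime_int.1 hp).dvd_of_dvd_pow h4

theorem gp_al (hQ : Q ≠ 0) (hdet : Q * α * δ - R * B * γ = 1)
    {q : ℤ × ℤ × ℤ} (hq : Q * R ∣ q.1) {p : ℕ} (hp : p.Prime) (hp2 : p ≠ 2)
    (hd : (p : ℤ) ∣ q.2.1 ^ 2 - 4 * q.1 * q.2.2) (hpQ : ¬ (p : ℤ) ∣ Q) :
    gp p (al Q R α B γ δ q) = jacobiSym Q p * gp p q := by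
  have hpp := Nat.prime_iff_prime_int.1 hp
  have hqQ : Q ∣ q.1 := (Dvd.intro _ rfl).trans hq
  have hsq := jac_sq hp hpQ
  have key : ∀ x y : ℤ, ¬ (p : ℤ) ∣ ev (al Q R α B γ δ q) x y →
      jacobiSym (ev (al Q R α B γ δ q) x y) p = jacobiSym Q p * gp p q := by
    intro x y hxy
    have h1 : ¬ (p : ℤ) ∣ ev q (Q * α * x + B * y) (Q * R * γ * x + Q * δ * y) := by
      rw [← al_ev hqQ]
      intro h2
      rcases hpp.dvd_mul.1 h2 with h3 | h3
      · exact hpQ h3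
      · exact hxy h3
    rw [← gp_val hp hp2 hd _ _ h1, ← al_ev hqQ, jacobiSym.mul_left]
    linear_combination (-(jacobiSym (ev (al Q R α B γ δ q) x y) p)) * hsq
  by_cases h2 : (p : ℤ) ∣ (al Q R α B γ δ q).1
  · by_cases h3 : (p : ℤ) ∣ (al Q R α B γ δ q).2.2
    · obtain ⟨h4, h5⟩ := al_zero hQ hdet hq hp hpQ h2 (mid_dvd hQ hdet hqQ hp hd h2) h3
      unfold gp
      rw [if_pos h2, if_pos h4, jac_zero hp h3, jac_zero hp h5, mul_zero]
    · have e : ev (al Q R α B γ δ q) 0 1 = (al Q R α B γ δ q).2.2 := by unfold ev; ring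
      have h4 := key 0 1 (by rw [e]; exact h3)
      rw [e] at h4
      rw [← h4]
      unfold gp
      rw [if_pos h2]
  · have e : ev (al Q R α B γ δ q) 1 0 = (al Q R α B γ δ q).1 := by unfold ev; ring
    have h4 := key 1 0 (by rw [e]; exact h2)
    rw [e] at h4
    rw [← h4]
    unfold gp
    rw [if_neg h2]

theorem G2_al {m b : ℕ} (hR : Rb m b) (hQ : Q ≠ 0) (hdet : Q * α * δ - R * B * γ = 1)
    {q : ℤ × ℤ × ℤ} (hd : q.2.1 ^ 2 - 4 * q.1 * q.2.2 = (m : ℤ) ^ 2) (hq : Q * R ∣ q.1)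
    (hQ2 : ¬ (2 : ℤ) ∣ Q) : G2 b (al Q R α B γ δ q) = c2 b Q * G2 b q := by
  have hqQ : Q ∣ q.1 := (Dvd.intro _ rfl).trans hq
  have hsq : c2 b Q * c2 b Q = 1 := by
    rcases c2_pm b (u := Q) (by omega) with h1 | h1 <;> rw [h1] <;> norm_num
  have key : ∀ x y : ℤ, ¬ (2 : ℤ) ∣ ev (al Q R α B γ δ q) x y →
      c2 b (ev (al Q R α B γ δ q) x y) = c2 b Q * G2 b q := by
    intro x y hxy
    have h1 : ¬ (2 : ℤ) ∣ ev q (Q * α * x + B * y) (Q * R * γ * x + Q * δ * y) := by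
      rw [← al_ev hqQ]
      intro h2
      rcases Int.prime_two.dvd_mul.1 h2 with h3 | h3
      · exact hQ2 h3
      · exact hxy h3
    have h1' : ev q (Q * α * x + B * y) (Q * R * γ * x + Q * δ * y) % 2 = 1 := by omega
    rw [← G2_val hR hd _ _ h1', ← al_ev hqQ, c2_mul]
    linear_combination (-(c2 b (ev (al Q R α B γ δ q) x y))) * hsq
  by_cases h2 : (2 : ℤ) ∣ (al Q R α B γ δ q).1
  · by_cases h3 : (2 : ℤ) ∣ (al Q R α B γ δ q).2.2
    · have hp : Nat.Prime 2 := Nat.prime_two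
      have hm4 := hR.four
      have hdd : ((2 : ℕ) : ℤ) ∣ q.2.1 ^ 2 - 4 * q.1 * q.2.2 := by
        rw [hd]
        exact dvd_pow (by push_cast; omega) two_ne_zero
      obtain ⟨h4, h5⟩ := al_zero hQ hdet hq hp (by exact_mod_cast hQ2)
        (by exact_mod_cast h2) (mid_dvd hQ hdet hqQ hp hdd (by exact_mod_cast h2))
        (by exact_mod_cast h3)
      push_cast at h4 h5
      unfold G2
      rw [if_pos h2, if_pos h4, c2_even b (Int.emod_eq_zero_of_dvd h3),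
        c2_even b (Int.emod_eq_zero_of_dvd h5), mul_zero]
    · have e : ev (al Q R α B γ δ q) 0 1 = (al Q R α B γ δ q).2.2 := by unfold ev; ring
      have h4 := key 0 1 (by rw [e]; exact h3)
      rw [e] at h4
      rw [← h4]
      unfold G2
      rw [if_pos h2]
  · have e : ev (al Q R α B γ δ q) 1 0 = (al Q R α B γ δ q).1 := by unfold ev; ring
    have h4 := key 1 0 (by rw [e]; exact h2)
    rw [e] at h4
    rw [← h4]
    unfold G2
    rw [if_neg h2]

/-- **the genus character under an Atkin-Lehner operator** -/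
theorem gb_al {m b : ℕ} (H : Ok m b) (hQ : Q ≠ 0) (hdet : Q * α * δ - R * B * γ = 1)
    {q : ℤ × ℤ × ℤ} (hd : q.2.1 ^ 2 - 4 * q.1 * q.2.2 = (m : ℤ) ^ 2) (hq : Q * R ∣ q.1)
    (hcop : IsCoprime Q (m : ℤ)) : gb m b (al Q R α B γ δ q) =
      ((if 2 ∣ m then c2 b Q else 1) * ∏ p ∈ m.primeFactors.erase 2, jacobiSym Q p) *
        gb m b q := by
  have hnd : ∀ p : ℕ, p.Prime → (p : ℤ) ∣ (m : ℤ) → ¬ (p : ℤ) ∣ Q := by
    intro p hp h1 h2
    exact (Nat.prime_iff_prime_int.1 hp).not_isUnit (hcop.isUnit_of_dvd' h2 h1)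
  have h2 : ∏ p ∈ m.primeFactors.erase 2, gp p (al Q R α B γ δ q) =
      (∏ p ∈ m.primeFactors.erase 2, jacobiSym Q p) *
        ∏ p ∈ m.primeFactors.erase 2, gp p q := by
    rw [← Finset.prod_mul_distrib]
    refine Finset.prod_congr rfl fun p hp => ?_
    obtain ⟨hp2, hp⟩ := Finset.mem_erase.1 hp
    have hpp := Nat.prime_of_mem_primeFactors hp
    have hpm : (p : ℤ) ∣ (m : ℤ) := by exact_mod_cast Nat.dvd_of_mem_primeFactors hp
    refine gp_al hQ hdet hq hpp hp2 ?_ (hnd p hpp hpm)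
    rw [hd]
    exact dvd_pow hpm two_ne_zero
  rw [gb_eq, gb_eq, h2]
  by_cases h : 2 ∣ m
  · have hR : Rb m b := by
      rcases H.or with h1 | h1
      · omega
      · exact h1
    have hQ2 : ¬ (2 : ℤ) ∣ Q := by
      have := hnd 2 Nat.prime_two (by exact_mod_cast h)
      exact_mod_cast this
    rw [if_pos h, if_pos h, if_pos h, G2_al hR hQ hdet hd hq hQ2]
    ring
  · rw [if_neg h, if_neg h, if_neg h]
    ring

theorem chM_three {m : ℕ} (hm : K0 m) : chM m 3 = -1 := by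
  rcases hm with ⟨hsq, h4, h3, -⟩ | ⟨hE, h3, -⟩
  · have h2 : ¬ 2 ∣ m := by omega
    have e : chM m 3 = jacobiSym 3 m := by
      unfold chM
      rw [if_neg h2, one_mul,
        Finset.erase_eq_of_notMem (fun h => h2 (Nat.dvd_of_mem_primeFactors h)),
        Pool.Agent.N975.PG.jac_prod _ hsq]
    have h5 := jacobiSym.quadratic_reciprocity_three_mod_four (a := 3) (b := m) (by norm_num) h4
    have h6 : jacobiSym (m : ℤ) 3 = 1 := by
      have h7 : jacobiSym (m : ℤ) 3 = jacobiSym 1 3 := by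
        apply jacobiSym.mod_left'
        omega
      rw [h7, jacobiSym.one_left]
    rw [h6] at h5
    rw [e]
    exact_mod_cast h5
  · have h2 : 2 ∣ m := even_of_ev hE
    have e : chM m 3 = chE m 3 := by
      unfold chM chE
      rw [if_pos h2]
    have h5 := Pool.Agent.N975.ChE.chE_prime hE (p := 3) Nat.prime_three (by norm_num)
    have h6 : jacobiSym (-((m / 4 : ℕ) : ℤ)) 3 = jacobiSym (-1) 3 := by
      apply jacobiSym.mod_left'
      obtain ⟨M, rfl, -⟩ := hE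
      omega
    rw [h6] at h5
    rw [e]
    push_cast at h5
    rw [h5]
    rw [jacobiSym.at_neg_one (by decide)]
    decide

/-! ### the weights of level `7` and of the same orientation -/

/-- forms of discriminant `N²` with `21 ∣ a` and the same orientation at `3` and `7` -/
def cS (N : ℕ) (q : ℤ × ℤ × ℤ) : Prop := q.2.1 ^ 2 - 4 * q.1 * q.2.2 = (N : ℤ) ^ 2 ∧
  (21 : ℤ) ∣ q.1 ∧ (((3 : ℤ) ∣ q.2.1 - N ∧ (7 : ℤ) ∣ q.2.1 - N) ∨
    ((3 : ℤ) ∣ q.2.1 + N ∧ (7 : ℤ) ∣ q.2.1 + N))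

/-- forms of discriminant `N²` of level `7` -/
def c7 (N : ℕ) (q : ℤ × ℤ × ℤ) : Prop := q.2.1 ^ 2 - 4 * q.1 * q.2.2 = (N : ℤ) ^ 2 ∧
  (7 : ℤ) ∣ q.1

open Classical in
/-- the weight of the same orientation -/
def kS (m : ℕ) (q : ℤ × ℤ × ℤ) : ℤ := if cS m q then gb m m q else 0

open Classical in
/-- the weight of level `7` -/
def k7 (m : ℕ) (q : ℤ × ℤ × ℤ) : ℤ := if c7 m q then gb m m q else 0

theorem kS_pos {m : ℕ} {q : ℤ × ℤ × ℤ} (h : cS m q) : kS m q = gb m m q := by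
  unfold kS
  rw [if_pos h]

theorem kS_zero {m : ℕ} {q : ℤ × ℤ × ℤ} (h : ¬ cS m q) : kS m q = 0 := by
  unfold kS
  rw [if_neg h]

theorem kS_ne {m : ℕ} {q : ℤ × ℤ × ℤ} (h : kS m q ≠ 0) : cS m q := by
  by_contra h1
  exact h (kS_zero h1)

theorem k7_pos {m : ℕ} {q : ℤ × ℤ × ℤ} (h : c7 m q) : k7 m q = gb m m q := by
  unfold k7
  rw [if_pos h]

theorem k7_zero {m : ℕ} {q : ℤ × ℤ × ℤ} (h : ¬ c7 m q) : k7 m q = 0 := by
  unfold k7
  rw [if_neg h]

theorem k7_ne {m : ℕ} {q : ℤ × ℤ × ℤ} (h : k7 m q ≠ 0) : c7 m q := by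
  by_contra h1
  exact h (k7_zero h1)

theorem sum_k7 {m : ℕ} (h3 : ¬ (3 : ℤ) ∣ m) (h7 : ¬ (7 : ℤ) ∣ m) (q : ℤ × ℤ × ℤ) :
    k7 m q = kE m q + kS m q + kB m q := by
  by_cases h : c7 m q
  · obtain ⟨hd, ha⟩ := h
    by_cases ha3 : (3 : ℤ) ∣ q.1
    · have h21 : (21 : ℤ) ∣ q.1 := by omega
      have d3 : (3 : ℤ) ∣ q.2.1 - m ∨ (3 : ℤ) ∣ q.2.1 + m := by
        apply dor3
        have e : (q.2.1 - m) * (q.2.1 + (m : ℤ)) = 4 * q.1 * q.2.2 := by linear_combination hd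
        rw [e]
        exact (ha3.mul_left 4).mul_right _
      have d7 : (7 : ℤ) ∣ q.2.1 - m ∨ (7 : ℤ) ∣ q.2.1 + m := by
        apply dor7
        have e : (q.2.1 - m) * (q.2.1 + (m : ℤ)) = 4 * q.1 * q.2.2 := by linear_combination hd
        rw [e]
        exact (ha.mul_left 4).mul_right _
      have hB : ¬ cB m q := fun h => h.2.2 ha3
      rw [k7_pos ⟨hd, ha⟩, kB_zero hB, add_zero]
      rcases d3 with d3 | d3 <;> rcases d7 with d7 | d7
      · have hE : ¬ cM m q := by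
          rintro ⟨-, -, h | h⟩ <;> omega
        rw [kE_zero hE, kS_pos ⟨hd, h21, Or.inl ⟨d3, d7⟩⟩, zero_add]
      · have hS : ¬ cS m q := by
          rintro ⟨-, -, h | h⟩ <;> omega
        rw [kS_zero hS, kE_pos ⟨hd, h21, Or.inl ⟨d3, d7⟩⟩, add_zero]
      · have hS : ¬ cS m q := by
          rintro ⟨-, -, h | h⟩ <;> omega
        rw [kS_zero hS, kE_pos ⟨hd, h21, Or.inr ⟨d3, d7⟩⟩, add_zero]
      · have hE : ¬ cM m q := by
          rintro ⟨-, -, h | h⟩ <;> omega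
        rw [kE_zero hE, kS_pos ⟨hd, h21, Or.inr ⟨d3, d7⟩⟩, zero_add]
    · have hE : ¬ cM m q := fun h => ha3 (by have := h.2.1; omega)
      have hS : ¬ cS m q := fun h => ha3 (by have := h.2.1; omega)
      rw [k7_pos ⟨hd, ha⟩, kE_zero hE, kS_zero hS, kB_pos ⟨hd, ha, ha3⟩, zero_add, zero_add]
  · have hE : ¬ cM m q := fun h1 => h ⟨h1.1, by have := h1.2.1; omega⟩
    have hS : ¬ cS m q := fun h1 => h ⟨h1.1, by have := h1.2.1; omega⟩
    have hB : ¬ cB m q := fun h1 => h ⟨h1.1, h1.2.1⟩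
    rw [k7_zero h, kE_zero hE, kS_zero hS, kB_zero hB]
    ring

theorem c7_act {m : ℕ} {a b c d : ℤ} (h : a * d - b * (7 * c) = 1) {f : ℤ × ℤ × ℤ}
    (hf : c7 m f) : c7 m (act a b (7 * c) d f) := by
  obtain ⟨h1, k, hk⟩ := hf
  refine ⟨act_disc h1 h, k * a ^ 2 + f.2.1 * a * c + f.2.2 * 7 * c ^ 2, ?_⟩
  unfold act
  simp only
  rw [hk]
  ring

theorem wt_k7 {m : ℕ} (hm : Fn m) : Pool.Agent.N975.Ph.Wt 7 ((m : ℤ) ^ 2) (k7 m) where
  D0 := by
    have : (0 : ℤ) < m := by exact_mod_cast m_pos hm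
    positivity
  disc := fun f hf => (k7_ne hf).1
  inv := by
    intro a b c d h f
    by_cases hf : c7 m f
    · rw [k7_pos hf, k7_pos (c7_act h hf), gb_act (ok_of hm) hf.1 h]
    · rw [k7_zero hf, k7_zero]
      intro h1
      apply hf
      have h2 := c7_act (a := d) (b := -b) (c := -c) (d := a) (by linear_combination h) h1
      have e : (7 : ℤ) * -c = -(7 * c) := by ring
      rw [e, act_inv h] at h2
      exact h2

theorem c7_refl {m : ℕ} {a b c : ℤ} : c7 m (-a, b, -c) ↔ c7 m (a, b, c) := by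
  unfold c7
  simp only [dvd_neg]
  have : b ^ 2 - 4 * -a * -c = b ^ 2 - 4 * a * c := by ring
  rw [this]

theorem par_k7 {m : ℕ} (hm : Fn m) : Pool.Agent.N975.Ph.Par (k7 m) (-1) := by
  intro a b c
  by_cases hf : c7 m (a, b, c)
  · rw [k7_pos hf, k7_pos (c7_refl.2 hf), gnM_neg hm a b c b]
    ring
  · rw [k7_zero hf, k7_zero (fun h1 => hf (c7_refl.1 h1)), mul_zero]

/-- an even weight gives an even homomorphism -/
theorem evenPhi {N D : ℤ} {k : ℤ × ℤ × ℤ → ℤ} (H : Pool.Agent.N975.Ph.Wt N D k)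
    (P : Pool.Agent.N975.Ph.Par k (-1)) : EvenHom N (Phi N k) where
  hom := by
    intro a b c d a' b' c' d' h h'
    exact Pool.Agent.N975.Ph.Phi_hom H (by linear_combination h) (by linear_combination h')
  neg := by
    intro a b c d _
    exact Pool.Agent.N975.Ph.Phi_neg a b c d
  even := by
    intro a b c d _
    rw [Pool.Agent.N975.Ph.Phi_par P]
    ring

theorem wt_of {N D : ℤ} {k : ℤ × ℤ × ℤ → ℤ} (H : Pool.Agent.N974.GN.Wt N D k) (hD : 0 < D) :
    Pool.Agent.N975.Ph.Wt N D k := ⟨hD, H.disc, H.inv⟩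

/-- the homomorphism of a weight which does not vanish at infinity -/
theorem Phi_X {N D : ℤ} {k : ℤ × ℤ × ℤ → ℤ} (H : Pool.Agent.N974.GN.Wt N D k) (hD : 0 < D)
    {a b c d : ℤ} (h : a * d - b * (N * c) = 1) : Phi N k a b c d = X k a (N * c) := by
  rw [Pool.Agent.N975.Ph.Phi_cusp (wt_of H hD) (x := 1) (m := 0) (Or.inl one_ne_zero) ?_ h]
  · unfold X
    refine finsum_congr fun q => ?_
    have e1 : a * 1 + b * 0 = a := by ring
    have e2 : N * c * 1 + d * 0 = N * c := by ring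
    rw [e1, e2]
    unfold U
    by_cases hk : k q = 0
    · rw [hk, zero_mul, ite_self]
    · rw [if_pos]
      refine ⟨fun h0 => hk ?_, fun h0 => hk (NZ_inf H h q h0)⟩
      rw [ev10] at h0
      exact H.ninf q h0
  · intro q hq h0
    rw [ev10] at h0
    exact hq (H.ninf q h0)

section rel

variable {m : ℕ}

theorem D_pos (hm : Fn m) : (0 : ℤ) < (m : ℤ) ^ 2 := by
  have : (0 : ℤ) < m := by exact_mod_cast m_pos hm
  positivity

theorem wt_kS (hm : Fn m) (h3 : ¬ (3 : ℤ) ∣ m) (h7 : ¬ (7 : ℤ) ∣ m) :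
    Pool.Agent.N975.Ph.Wt 21 ((m : ℤ) ^ 2) (kS m) where
  D0 := D_pos hm
  disc := fun f hf => (kS_ne hf).1
  inv := by
    intro a b c d h q
    have e1 := sum_k7 h3 h7 q
    have e2 := sum_k7 h3 h7 (act a b (21 * c) d q)
    have e3 := (wt_kE hm h3 h7).inv h q
    have e4 := (wt_kB hm).inv h q
    have e5 := (wt_k7 hm).inv (a := a) (b := b) (c := 3 * c) (d := d)
      (by linear_combination h) q
    have e6 : (7 : ℤ) * (3 * c) = 21 * c := by ring
    rw [e6] at e5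
    linarith

/-- there is no even symbol of level `7` -/
theorem Phi7 (hm : Fn m) {a b c d : ℤ} (h : a * d - 21 * (b * c) = 1) :
    Phi 21 (k7 m) a b c d = 0 := by
  have e : (21 : ℤ) = 7 * 3 := by norm_num
  rw [e, Pool.Agent.N975.Ph.Phi_level]
  exact (evenPhi (wt_k7 hm) (par_k7 hm)).zero7 a b (3 * c) d (by linear_combination h)

theorem Phi_sum (hm : Fn m) (h3 : ¬ (3 : ℤ) ∣ m) (h7 : ¬ (7 : ℤ) ∣ m) {a b c d : ℤ}
    (h : a * d - 21 * (b * c) = 1) :
    Phi 21 (kE m) a b c d + Phi 21 (kS m) a b c d + Phi 21 (kB m) a b c d = 0 := by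
  have h' : a * d - b * (21 * c) = 1 := by linear_combination h
  have HE := wt_of (wt_kE hm h3 h7) (D_pos hm)
  have HS := wt_kS hm h3 h7
  have HB := wt_of (wt_kB hm) (D_pos hm)
  have HES : Pool.Agent.N975.Ph.Wt 21 ((m : ℤ) ^ 2) (fun q => kE m q + kS m q) := by
    refine ⟨D_pos hm, ?_, ?_⟩
    · intro q hq
      by_cases h1 : kE m q = 0
      · exact HS.disc q (fun h2 => hq (by rw [h1, h2, add_zero]))
      · exact HE.disc q h1
    · intro a b c d h q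
      rw [HE.inv h, HS.inv h]
  rw [← Pool.Agent.N975.Ph.Phi_add HE HS h', ← Pool.Agent.N975.Ph.Phi_add HES HB h']
  have e : (fun q => kE m q + kS m q + kB m q) = k7 m := funext fun q => (sum_k7 h3 h7 q).symm
  rw [e]
  exact Phi7 hm h

/-- the involution of level `3` exchanges the two orientations -/
theorem kS_al (hm : K0 m) {q : ℤ × ℤ × ℤ} (hq : (3 : ℤ) * 7 ∣ q.1) :
    kS m (al 3 7 1 (-1) 1 (-2) q) = -1 * kE m q := by
  have hF := fn_K0 hm
  have h3 := K0_3 hm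
  have h7 := K0_7 hm
  have hq3 : (3 : ℤ) ∣ q.1 := (Dvd.intro _ rfl).trans hq
  have hdet : (3 : ℤ) * 1 * (-2) - 7 * (-1) * 1 = 1 := by norm_num
  have hdisc := al_disc (Q := 3) (R := 7) (α := 1) (B := -1) (γ := 1) (δ := -2)
    (by norm_num) hdet hq3
  have hdv : (3 : ℤ) * 7 ∣ (al 3 7 1 (-1) 1 (-2) q).1 := al_dvd hq
  have hmid : (al 3 7 1 (-1) 1 (-2) q).2.1 = -2 * q.1 - 13 * q.2.1 - 84 * q.2.2 := by
    unfold al
    simp only
    ring
  obtain ⟨t, ht⟩ := hq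
  by_cases hM : cM m q
  · obtain ⟨hd, h21, hor⟩ := hM
    have hS : cS m (al 3 7 1 (-1) 1 (-2) q) := by
      refine ⟨by rw [hdisc, hd], by norm_num at hdv; exact hdv, ?_⟩
      rw [hmid]
      rcases hor with ⟨h1, h2⟩ | ⟨h1, h2⟩
      · right
        constructor <;> omega
      · left
        constructor <;> omega
    have hcop : IsCoprime (3 : ℤ) (m : ℤ) := (Int.prime_three.coprime_iff_not_dvd).2 h3
    rw [kS_pos hS, kE_pos ⟨hd, h21, hor⟩, gb_al (ok_of hF) (by norm_num) hdet hd ⟨t, ht⟩ hcop]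
    have h := chM_three hm
    unfold chM at h
    rw [h]
  · have hS : ¬ cS m (al 3 7 1 (-1) 1 (-2) q) := by
      rintro ⟨hd, -, hor⟩
      apply hM
      rw [hdisc] at hd
      rw [hmid] at hor
      refine ⟨hd, by rw [ht]; exact ⟨t, by ring⟩, ?_⟩
      rcases hor with ⟨h1, h2⟩ | ⟨h1, h2⟩
      · right
        constructor <;> omega
      · left
        constructor <;> omega
    rw [kS_zero hS, kE_zero hM, mul_zero]

/-- **the relation of the two weights** -/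
theorem rel_kB (hm : K0 m) : X (kB m) 11 (21 * 1) = -2 * X (kE m) 11 (21 * 1) := by
  have hF := fn_K0 hm
  have h3 := K0_3 hm
  have h7 := K0_7 hm
  have hE := wt_kE hF h3 h7
  have hP : Pool.Agent.N975.Ph.Par (kE m) (-1) := par_kE hF
  have HE := wt_of hE (D_pos hF)
  have h0 : (11 : ℤ) * 2 - 1 * (21 * 1) = 1 := by norm_num
  have s1 := Phi_sum hF h3 h7 (a := 11) (b := 1) (c := 1) (d := 2) (by norm_num)
  have e21 : (3 : ℤ) * 7 = 21 := by norm_num
  have s2 := Pool.Agent.N975.Ph.Phi_al (Q := 3) (R := 7) (α := 1) (B := -1) (γ := 1) (δ := -2)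
    (k := kE m) (k' := kS m) (D := (m : ℤ) ^ 2) (ε := -1) (by norm_num) (by norm_num)
    (by rw [e21]; exact HE)
    (fun q hq => by rw [e21]; exact (kE_ne hq).2.1)
    (fun q hq => by rw [e21]; exact (kS_ne hq).2.1) (by norm_num)
    (fun q hq => kS_al hm hq) (a := 11) (b := 1) (c := 1) (d := 2) (by norm_num)
  rw [e21] at s2
  norm_num at s2
  have s3 := (evenPhi HE hP).w3
  rw [s3] at s2
  rw [← Phi_X hE (D_pos hF) h0, ← Phi_X (wt_kB hF) (D_pos hF) h0]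
  linarith

end rel

/-- **CMPE** -/
theorem t_CMPE (A : ℕ) : CMPE A (sig A) := cmpE_of (fun _ hm => rel_kB hm) A

end

end Pool.Agent.N974.P21G
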