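import Pool.Agent.N974.P21G.Ko

/-!
# P21G: `S_KAPi` and `S_KAPs`
-/

set_option autoImplicit false

namespace Pool.Agent.N974.P21G.Od

open Finset
open Pool.Agent.N969.RQ (Fd)
open Pool.Agent.N969.P17G (gnE chP chM)
open Pool.Agent.N969.P15 (un chE)
open Pool.Agent.N975.Sym (ev act act_inv ev_act ev10)
open Pool.Agent.N975.Ph (Phi Phi_cusp Phi_add Phi_al Phi_level Par MZ MZ_free oddHom parab gnE_act
  gnE_refl gnE_neg gnE_inf gnE_zero gnE_al chr sum_Ico Chr disc_act chP_three)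
open Pool.Agent.N974.GN (OddHom NZ X_coc0 X_neg)
open Pool.Agent.N877.P21G (Ai As K0 K3 K21 Kn cn cM cB OM OB S_KAPi S_KAPs S_DIAGN)
open Pool.Agent.N877.P21 (cc Fp Cls0 Cls0e Cl3 Cl3e Cl21 Cl21e Sp7)
open Pool.Agent.N975.S21 (Sy kP XP8 symb_eq goodP lam_eq eq3 eq3E eq21 eq21E sy_of sigma_ne)
open Pool.Agent.N975.RQ (al)

noncomputable section

variable {A : ℕ}

/-- the constant -/
def lam (A : ℕ) : ℤ := Phi 21 (kM A) 8 3 1 8

/-! ### the class of zero -/

theorem OM_eq (h : Adm A) {x m : ℤ} (hx : IsCoprime (21 * x) m) :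
    4 * OM A x m = lam A * Fp x m := by
  obtain ⟨u, v, huv⟩ := hx
  have hdet : v * m - x * (21 * -u) = 1 := by linear_combination huv
  have hdet' : v * m - 21 * (x * -u) = 1 := by linear_combination huv
  have h1 := cmp0 (oddM h) (parM3 h) hdet'
  have hnz : NZ (kM A) 0 1 := by
    intro q h0
    by_contra hf
    have e : ev q 0 1 = q.2.2 := by unfold ev; ring
    rw [e] at h0
    exact cM_ne h.n3 h.n7 (kw_ne hf) (by rw [h0, mul_zero])
  have h2 := X_coc0 (gnwt (wtM h) (ninfM h)) hdet hnz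
  have h0 : N974.GN.X (kM A) 0 1 = 0 := by
    have h3 := X_neg (Or.inl rfl) (fun a b c => parM h a b c) 0 1
    rw [neg_zero] at h3
    omega
  have e1 : v * 0 + x * 1 = x := by ring
  have e2 : 21 * -u * 0 + m * 1 = m := by ring
  rw [e1, e2, h0, add_zero, X_OM h, X_Phi (wtM h) (ninfM h) hdet, h1] at h2
  exact h2

/-! ### the classes of infinity and of one third -/

theorem Phi_O_eq (h : Adm A) (h3 : chP A 3 = -1) {a b c d : ℤ} (hd : a * d - b * (21 * c) = 1) :
    Phi 21 (kO A) a b c d = lam A * N975.S21.X kP a (21 * c) := by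
  have hd' : a * d - 21 * (b * c) = 1 := by linear_combination hd
  have h1 := Phi_O h hd
  have h2 := cmpP (oddM h) (parM3 h) hd'
  have h4 := cmpP (oddS h) (parS3 h) hd'
  have h5 := mu_eq h
  rw [h3] at h5
  have h6 : Phi 21 (kS A) 8 3 1 8 = -lam A := by
    unfold lam
    linarith
  rw [h6] at h4
  have h7 : Phi 21 (kM A) 8 3 1 8 = lam A := rfl
  rw [h7] at h2
  linarith

variable {s : ℚ → ℤ}

theorem s_eq (H : Sy s) {a b c d : ℤ} (hd : a * d - 21 * (b * c) = 1) :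
    s ((b : ℚ) / d) = s (1 / 3) * N975.S21.X kP a (21 * c) := by
  have h1 := symb_eq H goodP hd
  rw [XP8, lam_eq H] at h1
  simp only [Int.cast_id] at h1
  linarith

theorem OB_inf (H : Sy s) (h : Adm A) (h3 : chP A 3 = -1) {x c : ℤ} (hc : c ≠ 0)
    (hx : IsCoprime x (21 * c)) :
    s (1 / 3) * (4 * OB A x (21 * c)) = lam A * s ((x : ℚ) / ((21 * c : ℤ) : ℚ)) := by
  obtain ⟨u, v, huv⟩ := hx
  have hdet : x * u - -v * (21 * c) = 1 := by linear_combination huv
  have hdet' : x * u - 21 * (-v * c) = 1 := by linear_combination huv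
  have h1 := s_eq H hdet'
  have h2 := H.aff_inf hdet hc
  have h4 := X_Phi (wtO h) ninfO hdet
  rw [X_OB h, Phi_O_eq h h3 hdet] at h4
  have e : ((21 * c : ℤ) : ℚ) = 21 * (c : ℚ) := by push_cast; ring
  rw [e, h2, h1, h4]
  ring

theorem nzO : NZ (kO A) 1 3 := by
  intro f h0
  by_contra hf
  apply (kw_ne hf).2.2
  refine ⟨-(f.2.1 + 3 * f.2.2), ?_⟩
  unfold ev at h0
  linear_combination h0

theorem OB_three' (H : Sy s) (h : Adm A) (h3 : chP A 3 = -1) {x m j t : ℤ} (hm : m ≠ 0)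
    (hj : 7 * (x * j) = 1 + t * (3 * m)) :
    s (1 / 3) * (4 * OB A x (3 * m) - 4 * OB A 1 3) =
      lam A * (s ((x : ℚ) / ((3 * m : ℤ) : ℚ)) - s (1 / 3)) := by
  have hdet : (7 * x - 3 * t) * (7 * j - 6 * m) - (t - 2 * x) * (21 * (m - j)) = 1 := by
    linear_combination hj
  have hdet' : (7 * x - 3 * t) * (7 * j - 6 * m) - 21 * ((t - 2 * x) * (m - j)) = 1 := by
    linear_combination hj
  have h1 := s_eq H hdet'
  have h2 := X_coc0 (gnwt (wtO h) ninfO) hdet nzO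
  have e1 : (7 * x - 3 * t) * 1 + (t - 2 * x) * 3 = x := by ring
  have e2 : 21 * (m - j) * 1 + (7 * j - 6 * m) * 3 = 3 * m := by ring
  rw [e1, e2, X_Phi (wtO h) ninfO hdet, X_OB h, X_OB h, Phi_O_eq h h3 hdet] at h2
  have hmq : (m : ℚ) ≠ 0 := by exact_mod_cast hm
  have h0 : (21 : ℚ) * ((m - j : ℤ) : ℚ) * (1 / 3) + ((7 * j - 6 * m : ℤ) : ℚ) = m := by
    push_cast
    ring
  have h5 := H.aff (A := 7 * x - 3 * t) (B := t - 2 * x) (C := m - j) (D := 7 * j - 6 * m)
    hdet (1 / 3) (by rw [h0]; exact hmq)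
  rw [h0] at h5
  have e3 : ((((7 * x - 3 * t : ℤ) : ℚ)) * (1 / 3) + ((t - 2 * x : ℤ) : ℚ)) / m =
      (x : ℚ) / ((3 * m : ℤ) : ℚ) := by
    push_cast
    rw [div_eq_div_iff hmq (by positivity)]
    ring
  rw [e3] at h5
  rw [h5, h1, h2]
  ring

theorem OB_neg (h : Adm A) (x m : ℤ) : OB A (-x) m = -OB A x m := by
  have h1 := X_neg (Or.inl rfl) (fun a b c => parO h a b c) x m
  rw [X_OB h, X_OB h] at h1
  linarith

theorem OB_13 (H : Sy s) (h : Adm A) (h3 : chP A 3 = -1) :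
    s (1 / 3) * (4 * OB A 1 3) = lam A * s (1 / 3) := by
  have h1 := OB_three' H h h3 (x := -1) (m := 1) (j := 2) (t := -5) one_ne_zero (by norm_num)
  have e1 : (((-1 : ℤ) : ℚ)) / ((3 * 1 : ℤ) : ℚ) = -(1 / 3) := by norm_num
  have e2 : (3 : ℤ) * 1 = 3 := by norm_num
  rw [e1, H.neg, e2, OB_neg h] at h1
  linarith

theorem OB_three (H : Sy s) (h : Adm A) (h3 : chP A 3 = -1) {x m j t : ℤ} (hm : m ≠ 0)
    (hj : 7 * (x * j) = 1 + t * (3 * m)) :
    s (1 / 3) * (4 * OB A x (3 * m)) = lam A * s ((x : ℚ) / ((3 * m : ℤ) : ℚ)) := by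
  have h1 := OB_three' H h h3 hm hj
  have h2 := OB_13 H h h3
  linear_combination h1 + h2

/-! ### the character sums -/

theorem chM_odd {m : ℕ} (hm : Squarefree m) (h4 : m % 4 = 3) (u : ℤ) : chM m u = jacobiSym u m :=
  N971.PG.chM_odd hm h4 u

theorem chM_even {m : ℕ} (hm : N969.P15.Ev m) (u : ℤ) : chM m u = chE m u :=
  N971.PG.chM_even hm u

theorem un_cop {u n : ℕ} (hu : u ∈ un n) : Nat.Coprime u n := (Finset.mem_filter.1 hu).2

theorem sum_OM (h : Adm A) {m : ℕ} (hc : Nat.Coprime 21 m) :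
    4 * ∑ u ∈ un m, chM m u * OM A u m = lam A * ∑ u ∈ un m, chM m u * Fp u m := by
  rw [Finset.mul_sum, Finset.mul_sum]
  refine Finset.sum_congr rfl fun u hu => ?_
  have h1 : IsCoprime (21 * (u : ℤ)) (m : ℤ) :=
    IsCoprime.mul_left (by exact_mod_cast hc.isCoprime) (by exact_mod_cast (un_cop hu).isCoprime)
  have h2 := OM_eq h h1
  linear_combination (chM m u) * h2

theorem cop_K0 {m : ℕ} (hm : K0 m) : Nat.Coprime 21 m := by
  rcases hm with h | h
  · exact N975.S21.cop21 h.2.2.1 h.2.2.2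
  · exact N975.S21.cop21 h.2.1 h.2.2

theorem diag0 {m : ℕ} (hm : K0 m) : 72 * ∑ u ∈ un m, chM m u * Fp u m = cc m ^ 2 := by
  rcases hm with h | h
  · rw [← N975.S21.All.s_DIAG m h]
    congr 1
    exact Finset.sum_congr rfl fun u _ => by rw [chM_odd h.1 h.2.1]
  · rw [← N975.S21.All.s_DIAGE m h]
    congr 1
    exact Finset.sum_congr rfl fun u _ => by rw [chM_even h.1]

theorem sum_K0 (h : Adm A) {m : ℕ} (hm : K0 m) :
    288 * ∑ u ∈ un m, chM m u * OM A u m = lam A * cc m ^ 2 := by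
  have h1 := sum_OM h (cop_K0 hm)
  have h2 := diag0 hm
  linear_combination 72 * h1 + lam A * h2

theorem cop_Kn {m : ℕ} (hm : Kn m) : Nat.Coprime 21 m := by
  obtain ⟨-, h3, h7⟩ := hm
  have e : 21 = 3 * 7 := by norm_num
  rw [e]
  refine Nat.Coprime.mul_left ?_ ?_
  · rw [Nat.Prime.coprime_iff_not_dvd Nat.prime_three]
    omega
  · rw [Nat.Prime.coprime_iff_not_dvd (by norm_num)]
    unfold N877.P21G.I7 at h7
    omega

theorem sum_Kn (hD : S_DIAGN) (h : Adm A) {m : ℕ} (hm : Kn m) :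
    16 * ∑ u ∈ un m, chM m u * OM A u m = lam A * cn m ^ 2 := by
  have h1 := sum_OM h (cop_Kn hm)
  have h2 := hD m hm
  linear_combination 4 * h1 + lam A * h2

/-! ### admissible discriminants -/

theorem adm_Ai (h : Ai A) : Adm A := by
  refine ⟨h.1, ?_, ?_⟩
  · have := h.2.1
    omega
  · have := N877.P21G.Ai_7 h
    omega

theorem adm_As (h : As A) : Adm A := by
  refine ⟨h.1, ?_, ?_⟩
  · have := h.2.1
    omega
  · have := N877.P21G.As_7 h
    omega

theorem three_Ai (h : Ai A) : chP A 3 = -1 := by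
  rw [chP_three h.1, jacobiSym.mod_left]
  have h1 : ((A : ℤ) % ((3 : ℕ) : ℤ)) = 2 := by
    have := h.2.1
    push_cast
    omega
  rw [h1]
  norm_num

/-! ### the sums over the classes of one third and infinity -/

theorem symb_ne (H : Sy s) (h : Adm A) (h3 : chP A 3 = -1) {m : ℕ}
    (hm0 : 0 < m) (hm : 3 ∣ m) {u : ℕ} (hu : u ∈ un m) :
    s (1 / 3) * (4 * OB A u m) = lam A * s ((u : ℚ) / m) := by
  have hcu := un_cop hu
  by_cases h7 : 7 ∣ m
  · obtain ⟨c, rfl⟩ : ∃ c, m = 21 * c := by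
      obtain ⟨c, hc⟩ : 21 ∣ m := by omega
      exact ⟨c, hc⟩
    have hc : (c : ℤ) ≠ 0 := by
      have : c ≠ 0 := by
        rintro rfl
        omega
      exact_mod_cast this
    have h1 := OB_inf H h h3 hc (x := u) (by exact_mod_cast hcu.isCoprime)
    push_cast at h1 ⊢
    exact h1
  · obtain ⟨c, rfl⟩ := hm
    have hc : (c : ℤ) ≠ 0 := by
      have : c ≠ 0 := by
        rintro rfl
        omega
      exact_mod_cast this
    have h1 : IsCoprime (7 * (u : ℤ)) ((3 * c : ℕ) : ℤ) := by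
      refine IsCoprime.mul_left ?_ (by exact_mod_cast hcu.isCoprime)
      have := ((Nat.Prime.coprime_iff_not_dvd p7).2 h7).isCoprime
      exact_mod_cast this
    obtain ⟨j, t, hjt⟩ := h1
    have h2 := OB_three H h h3 (x := u) (m := c) (j := j) (t := -t) hc
      (by push_cast at hjt; linear_combination hjt)
    push_cast at h2 ⊢
    exact h2

theorem sum_OB (H : Sy s) (h : Adm A) (h3 : chP A 3 = -1) {m : ℕ}
    (hm0 : 0 < m) (hm : 3 ∣ m) :
    s (1 / 3) * (4 * ∑ u ∈ un m, chM m u * OB A u m) =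
      lam A * ∑ u ∈ un m, chM m u * s ((u : ℚ) / m) := by
  rw [Finset.mul_sum, Finset.mul_sum, Finset.mul_sum]
  refine Finset.sum_congr rfl fun u hu => ?_
  have h1 := symb_ne H h h3 hm0 hm hu
  linear_combination (chM m u) * h1

theorem sum_s3 (H : Sy s) {m : ℕ} (hm : K3 m) :
    18 * ∑ u ∈ un m, chM m u * s ((u : ℚ) / m) = s (1 / 3) * cc m ^ 2 := by
  rcases hm with h | h
  · have h1 := eq3 N975.S21.All.s_DIAG3 H h
    simp only [Int.cast_id] at h1
    rw [← h1]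
    congr 1
    exact Finset.sum_congr rfl fun u _ => by rw [chM_odd h.1 h.2.1]
  · have h1 := eq3E N975.S21.All.s_DIAG3E H h
    simp only [Int.cast_id] at h1
    rw [← h1]
    congr 1
    exact Finset.sum_congr rfl fun u _ => by rw [chM_even h.1]

theorem sum_s21 (H : Sy s) {m : ℕ} (hm : K21 m) :
    36 * ∑ u ∈ un m, chM m u * s ((u : ℚ) / m) = s (1 / 3) * cc m ^ 2 := by
  rcases hm with h | h
  · have h1 := eq21 N975.S21.All.s_DIAG21 H h
    simp only [Int.cast_id] at h1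
    rw [← h1]
    congr 1
    exact Finset.sum_congr rfl fun u _ => by rw [chM_odd h.1 h.2.1]
  · have h1 := eq21E N975.S21.All.s_DIAG21E H h
    simp only [Int.cast_id] at h1
    rw [← h1]
    congr 1
    exact Finset.sum_congr rfl fun u _ => by rw [chM_even h.1]

theorem sum_K3 (h : Adm A) (h3 : chP A 3 = -1) {m : ℕ} (hm : K3 m) :
    72 * ∑ u ∈ un m, chM m u * OB A u m = lam A * cc m ^ 2 := by
  obtain ⟨s, κ, hκ, hs, g⟩ := Pool.Agent.N402.MF21.symb21
  have H := sy_of g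
  have h0 := sigma_ne g
  have h1 := sum_OB H h h3 (N877.P21G.Fn.pos (N877.P21G.Fn_K3 hm)) (N877.P21G.dvd3_K3 hm)
  have h2 := sum_s3 H hm
  apply mul_left_cancel₀ h0
  linear_combination 18 * h1 + lam A * h2

theorem sum_K21 (h : Adm A) (h3 : chP A 3 = -1) {m : ℕ} (hm : K21 m) :
    144 * ∑ u ∈ un m, chM m u * OB A u m = lam A * cc m ^ 2 := by
  obtain ⟨s, κ, hκ, hs, g⟩ := Pool.Agent.N402.MF21.symb21
  have H := sy_of g
  have h0 := sigma_ne g
  have h1 := sum_OB H h h3 (N877.P21G.Fn.pos (N877.P21G.Fn_K21 hm)) (N877.P21G.dvd3_K21 hm)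
  have h2 := sum_s21 H hm
  apply mul_left_cancel₀ h0
  linear_combination 36 * h1 + lam A * h2

/-! ### the results -/

theorem cast_eq {S L C : ℤ} {n k : ℤ} (hn : n = 4 * k) (h : n * S = L * C) :
    (k : ℚ) * (S : ℚ) = (L : ℚ) / 4 * (C : ℚ) := by
  have h1 : (n : ℚ) * S = L * C := by exact_mod_cast h
  have h2 : (n : ℚ) = 4 * k := by exact_mod_cast hn
  rw [h2] at h1
  linear_combination h1 / 4

/-- **KAPi** -/
theorem t_KAPi : S_KAPi := by
  intro A hA
  have h := adm_Ai hA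
  have h3 := three_Ai hA
  refine ⟨(lam A : ℚ) / 4, fun m _ => ⟨fun hm => ?_, fun hm => ?_, fun hm => ?_⟩⟩
  · have h1 := cast_eq (k := 72) (by norm_num) (sum_K0 h hm)
    push_cast at h1 ⊢
    exact h1
  · have h1 := cast_eq (k := 18) (by norm_num) (sum_K3 h h3 hm)
    push_cast at h1 ⊢
    exact h1
  · have h1 := cast_eq (k := 36) (by norm_num) (sum_K21 h h3 hm)
    push_cast at h1 ⊢
    exact h1

/-- **KAPs** -/
theorem t_KAPs (hD : S_DIAGN) : S_KAPs := by
  intro A hA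
  have h := adm_As hA
  refine ⟨(lam A : ℚ) / 4, fun m _ => ⟨fun hm => ?_, fun hm => ?_⟩⟩
  · have h1 := cast_eq (k := 72) (by norm_num) (sum_K0 h hm)
    push_cast at h1 ⊢
    exact h1
  · have h1 := cast_eq (k := 4) (by norm_num) (sum_Kn hD h hm)
    push_cast at h1 ⊢
    exact h1

end

end Pool.Agent.N974.P21G.Od
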