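import Pool.Agent.N974.P21G.Fm
import Pool.Agent.N971.PG.C1F
import Pool.Agent.N877.P21G.Defs

/-!
# P21G: the dual sums as divisor sums (`D1I`, `D1I2`, `D13`, `D121`, `D1212`)
-/

set_option autoImplicit false

namespace Pool.Agent.N974.P21G

open Finset
open Pool.Agent.N969.P15 (un psp psp2 c2 Ev)
open Pool.Agent.N969.P17G (gen psl psl2 chP)
open Pool.Agent.N969.RQ (Fd)
open Pool.Agent.N973.P15.C (fo)
open Pool.Agent.N974.RQ (wc jac_zero_of_dvd)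
open Pool.Agent.N877.P21 (Cls0 Cls0e Cl7 Cl7e Sp7)
open Pool.Agent.N877.P21G (Fn A0 K0 K7 Wd WM WB WC cM cB gnM EM EB S_D1I S_D1I2 S_D13 S_D121 S_D1212)

noncomputable section

/-! ### the discriminants -/

theorem ok_of {m : ℕ} (hm : Fn m) : Ok m m := by
  rcases hm with ⟨h1, h2⟩ | h
  · exact ⟨by omega, Or.inl (by omega)⟩
  · exact ⟨Pool.Agent.N975.ChE.ev_pos h, Or.inr (rb_ev h)⟩

theorem fn_K0 {m : ℕ} (h : K0 m) : Fn m := by
  rcases h with h | h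
  · exact Or.inl ⟨h.1, h.2.1⟩
  · exact Or.inr h.1

theorem fn_K7 {m : ℕ} (h : K7 m) : Fn m := by
  rcases h with h | h
  · exact Or.inl ⟨h.1, h.2.1⟩
  · exact Or.inr h.1

theorem K0_7 {m : ℕ} (h : K0 m) : ¬ (7 : ℤ) ∣ m := by
  have h1 : Sp7 m := by
    rcases h with h | h
    · exact h.2.2.2
    · exact h.2.2
  unfold Sp7 at h1
  omega

theorem K7_7 {m : ℕ} (h : K7 m) : 7 ∣ m := by
  rcases h with h | h
  · exact h.2.2.1
  · exact h.2.1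

theorem even_of_ev {m : ℕ} (h : Ev m) : 2 ∣ m := by
  obtain ⟨M, rfl, -⟩ := h
  exact ⟨2 * M, by ring⟩

theorem fn_even {m : ℕ} (hm : Fn m) (h2 : 2 ∣ m) : Ev m := by
  rcases hm with ⟨-, h⟩ | h
  · omega
  · exact h

theorem fn_odd {m : ℕ} (hm : Fn m) (h2 : ¬ 2 ∣ m) : m % 4 = 3 := by
  rcases hm with ⟨-, h⟩ | h
  · exact h
  · exact absurd (even_of_ev h) h2

theorem fd_odd {A : ℕ} (hA : A = 1 ∨ Fd A) (h2 : ¬ 2 ∣ A) : A % 4 = 1 := by
  rcases hA with rfl | hA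
  · norm_num
  · rcases hA.2 with ⟨-, h⟩ | ⟨M, h, -⟩
    · exact h
    · exact absurd ⟨2 * M, by omega⟩ h2

theorem fd_even {A : ℕ} (hA : A = 1 ∨ Fd A) (h2 : 2 ∣ A) : Pool.Agent.N971.PG.Ae A := by
  unfold Pool.Agent.N971.PG.Ae
  rcases hA with rfl | hA
  · omega
  · rcases hA.2 with ⟨-, h⟩ | ⟨M, h, -, h4⟩
    · omega
    · omega

/-! ### the products -/

theorem prod_psl {m A : ℕ} (hm : Fn m) (hA : A = 1 ∨ Fd A) (hc : Nat.Coprime A m)
    (a a' Y X : ℕ) : (∏ p ∈ m.primeFactors, if p = 2 then psl2 (m * A) a a' Y X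
      else psl p a a' Y X) = pw m m a a' Y X := by
  have hm0 : m ≠ 0 := (ok_of hm).pos.ne'
  have he : ∏ p ∈ m.primeFactors.erase 2, (if p = 2 then psl2 (m * A) a a' Y X
      else psl p a a' Y X) = ∏ p ∈ m.primeFactors.erase 2, psl p a a' Y X := by
    refine Finset.prod_congr rfl fun p hp => ?_
    rw [if_neg (Finset.mem_erase.1 hp).1]
  unfold pw
  by_cases h2 : 2 ∣ m
  · have hE := fn_even hm h2
    have hA2 : ¬ 2 ∣ A := by
      intro h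
      have h3 := Nat.dvd_gcd h h2
      rw [hc] at h3
      omega
    have h2mem : 2 ∈ m.primeFactors := Nat.mem_primeFactors.2 ⟨Nat.prime_two, h2, hm0⟩
    rw [← Finset.mul_prod_erase _ _ h2mem, if_pos rfl, if_pos h2, he]
    congr 1
    unfold psl2
    rw [mul_comm m A, Pool.Agent.N971.PG.c2_odd (fd_odd hA hA2) hE,
      Pool.Agent.N971.PG.c2_odd (fd_odd hA hA2) hE]
  · rw [if_neg h2, one_mul, ← he,
      Finset.erase_eq_of_notMem (fun h => h2 (Nat.dvd_of_mem_primeFactors h))]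

theorem prod_psp {m A : ℕ} (hm : Fn m) (hA : A = 1 ∨ Fd A) (hc : Nat.Coprime A m)
    (a a' Y X : ℕ) : (∏ p ∈ A.primeFactors, if p = 2 then psp2 (m * A) a a' Y X
      else psp p a a' Y X) = wc A a a' Y X := by
  have hA0 : A ≠ 0 := (pos_of_fd hA).ne'
  have he : ∏ p ∈ A.primeFactors.erase 2, (if p = 2 then psp2 (m * A) a a' Y X
      else psp p a a' Y X) = ∏ p ∈ A.primeFactors.erase 2, psp p a a' Y X := by
    refine Finset.prod_congr rfl fun p hp => ?_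
    rw [if_neg (Finset.mem_erase.1 hp).1]
  unfold wc
  by_cases h2 : 2 ∣ A
  · have hm2 : ¬ 2 ∣ m := by
      intro h
      have h3 := Nat.dvd_gcd h2 h
      rw [hc] at h3
      omega
    have h2mem : 2 ∈ A.primeFactors := Nat.mem_primeFactors.2 ⟨Nat.prime_two, h2, hA0⟩
    rw [← Finset.mul_prod_erase _ _ h2mem, if_pos rfl, if_pos h2, he]
    congr 1
    unfold psp2
    rw [mul_comm m A, Pool.Agent.N971.PG.c2_An (fd_even hA h2) (fn_odd hm hm2),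
      Pool.Agent.N971.PG.c2_An (fd_even hA h2) (fn_odd hm hm2)]
  · rw [if_neg h2, one_mul, ← he,
      Finset.erase_eq_of_notMem (fun h => h2 (Nat.dvd_of_mem_primeFactors h))]

theorem Wd_eq (f g : ℕ → Prop) [DecidablePred f] [DecidablePred g] {m A : ℕ} (hm : Fn m)
    (hA : A = 1 ∨ Fd A) (hc : Nat.Coprime A m) (S T : ℕ) :
    Wd f g m A S T = ∑ a ∈ S.divisors.filter f, ∑ a' ∈ T.divisors.filter g,
      pw m m a a' (S / a) (T / a') * wc A a a' (S / a) (T / a') := by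
  unfold Wd
  refine Finset.sum_congr rfl fun a _ => Finset.sum_congr rfl fun a' _ => ?_
  rw [prod_psl hm hA hc, prod_psp hm hA hc]

theorem Wd_one (f g : ℕ → Prop) [DecidablePred f] [DecidablePred g] {m : ℕ} (hm : Fn m)
    (S T : ℕ) :
    Wd f g m 1 S T = ∑ a ∈ S.divisors.filter f, ∑ a' ∈ T.divisors.filter g,
      pw m m a a' (S / a) (T / a') := by
  rw [Wd_eq f g hm (Or.inl rfl) (Nat.coprime_one_left _)]
  refine Finset.sum_congr rfl fun a _ => Finset.sum_congr rfl fun a' _ => ?_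
  unfold wc
  simp

/-! ### the level conditions -/

theorem dor {p : ℕ} (hp : p.Prime) {x y : ℤ} (h : (p : ℤ) ∣ x * y) :
    (p : ℤ) ∣ x ∨ (p : ℤ) ∣ y := (Nat.prime_iff_prime_int.1 hp).dvd_or_dvd h

theorem dor3 {x y : ℤ} (h : (3 : ℤ) ∣ x * y) : (3 : ℤ) ∣ x ∨ (3 : ℤ) ∣ y := dor Nat.prime_three h

theorem p7 : Nat.Prime 7 := by norm_num

theorem dor7 {x y : ℤ} (h : (7 : ℤ) ∣ x * y) : (7 : ℤ) ∣ x ∨ (7 : ℤ) ∣ y := dor p7 h

theorem compM {m b : ℕ} (h3 : ¬ (3 : ℤ) ∣ m) (h7 : ¬ (7 : ℤ) ∣ m) :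
    Comp (fun a => 7 ∣ a) (fun a' => 3 ∣ a') m b
      (fun f => (21 : ℤ) ∣ f.1 ∧ (7 : ℤ) ∣ f.2.1 + m ∧ (3 : ℤ) ∣ f.2.1 - m) where
  fwd := by
    rintro a a' c c' ⟨k, rfl⟩ ⟨l, rfl⟩ hd
    unfold fo
    simp only
    push_cast at hd ⊢
    refine ⟨⟨k * l, by ring⟩, ⟨2 * k * c', by linear_combination -hd⟩,
      ⟨2 * l * c, by linear_combination hd⟩⟩
  bwd := by
    intro a a' c c' h hd _ _
    unfold fo at h
    simp only at h
    obtain ⟨⟨k, hk⟩, h4, h5⟩ := h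
    have h6 : (7 : ℤ) ∣ a * c' := by omega
    have h8 : (3 : ℤ) ∣ a' * c := by omega
    have h9 : (7 : ℤ) ∣ (a : ℤ) * a' := by omega
    have h10 : (3 : ℤ) ∣ (a : ℤ) * a' := by omega
    constructor
    · rcases dor7 h9 with h | h
      · exact_mod_cast h
      · exfalso
        have h11 : (7 : ℤ) ∣ a' * c := h.mul_right _
        omega
    · rcases dor3 h10 with h | h
      · exfalso
        have h11 : (3 : ℤ) ∣ a * c' := h.mul_right _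
        omega
      · exact_mod_cast h

theorem compB {m b : ℕ} (h7 : ¬ (7 : ℤ) ∣ m) :
    Comp (fun a => ¬ 3 ∣ a) (fun a' => 7 ∣ a' ∧ ¬ 3 ∣ a') m b
      (fun f => ((7 : ℤ) ∣ f.1 ∧ ¬ (3 : ℤ) ∣ f.1) ∧ (7 : ℤ) ∣ f.2.1 - m) where
  fwd := by
    rintro a a' c c' h1 ⟨⟨l, rfl⟩, h2⟩ hd
    unfold fo
    simp only
    refine ⟨⟨⟨a * l, by push_cast; ring⟩, ?_⟩, ⟨2 * l * c, ?_⟩⟩
    · intro h
      rcases dor3 h with h3 | h3
      · exact h1 (by exact_mod_cast h3)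
      · exact h2 (by exact_mod_cast h3)
    · push_cast at hd ⊢
      linear_combination hd
  bwd := by
    intro a a' c c' h hd _ _
    unfold fo at h
    simp only at h
    obtain ⟨⟨h1, h2⟩, h3⟩ := h
    have h4 : (7 : ℤ) ∣ a' * c := by omega
    refine ⟨fun h => h2 (Dvd.dvd.mul_right (by exact_mod_cast h) _), ?_,
      fun h => h2 (Dvd.dvd.mul_left (by exact_mod_cast h) _)⟩
    rcases dor7 h1 with h5 | h5
    · exfalso
      have h6 : (7 : ℤ) ∣ a * c' := h5.mul_right _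
      omega
    · exact_mod_cast h5

theorem compC {m b : ℕ} (hm0 : 0 < m) (h7 : 7 ∣ m) :
    Comp (fun a => 7 ∣ a ∧ ¬ 3 ∣ a) (fun a' => 7 ∣ a' ∧ ¬ 3 ∣ a') m b
      (fun f => (7 : ℤ) ∣ f.1 ∧ ¬ (3 : ℤ) ∣ f.1) where
  fwd := by
    rintro a a' c c' ⟨⟨k, rfl⟩, h1⟩ ⟨⟨l, rfl⟩, h2⟩ hd
    unfold fo
    simp only
    refine ⟨⟨k * (7 * l), by push_cast; ring⟩, ?_⟩
    intro h
    rcases dor3 h with h3 | h3
    · exact h1 (by exact_mod_cast h3)
    · exact h2 (by exact_mod_cast h3)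
  bwd := by
    intro a a' c c' h hd hcop hne
    have hmem : 7 ∈ m.primeFactors.erase 2 := by
      rw [Finset.mem_erase, Nat.mem_primeFactors]
      exact ⟨by norm_num, p7, h7, hm0.ne'⟩
    have hg := gen_ne hne hmem
    unfold fo at h hg
    simp only at h
    obtain ⟨h1, h2⟩ := h
    have hcc : ¬ (7 : ℤ) ∣ c * c' := by
      intro h3
      apply hg
      unfold gen
      rw [if_pos (show ((7 : ℕ) : ℤ) ∣ (a : ℤ) * a' from h1)]
      exact jac_zero_of_dvd p7 (show ((7 : ℕ) : ℤ) ∣ c * c' from h3)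
    have hm7 : (7 : ℤ) ∣ (a : ℤ) * c' - a' * c := by
      rw [hd]
      exact_mod_cast h7
    have key : (7 : ℤ) ∣ (a : ℤ) ∧ (7 : ℤ) ∣ (a' : ℤ) := by
      rcases dor7 h1 with h3 | h3
      · refine ⟨h3, ?_⟩
        have h4 : (7 : ℤ) ∣ a * c' := h3.mul_right _
        have h5 : (7 : ℤ) ∣ a' * c := by omega
        rcases dor7 h5 with h6 | h6
        · exact h6
        · exact absurd (h6.mul_right c') hcc
      · refine ⟨?_, h3⟩
        have h4 : (7 : ℤ) ∣ a' * c := h3.mul_right _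
        have h5 : (7 : ℤ) ∣ a * c' := by omega
        rcases dor7 h5 with h6 | h6
        · exact h6
        · exact absurd (h6.mul_left c) hcc
    exact ⟨⟨by exact_mod_cast key.1, fun h => h2 (Dvd.dvd.mul_right (by exact_mod_cast h) _)⟩,
      ⟨by exact_mod_cast key.2, fun h => h2 (Dvd.dvd.mul_left (by exact_mod_cast h) _)⟩⟩

/-! ### the symbols as counts of factorizations -/

theorem EM_eq {m : ℕ} (hm : Fn m) (h3 : ¬ (3 : ℤ) ∣ m) (h7 : ¬ (7 : ℤ) ∣ m) (x n : ℤ)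
    (hn : 0 < n) : EM m x n = GP (fun a => 7 ∣ a) (fun a' => 3 ∣ a') m m m x n +
      GP (fun a => 7 ∣ a) (fun a' => 3 ∣ a') m m m (-x) n := by
  classical
  rw [← F_eq (b := m) (ok_of hm).pos (compM h3 h7) (Lw := fun f => (21 : ℤ) ∣ f.1 ∧
    (((3 : ℤ) ∣ f.2.1 - m ∧ (7 : ℤ) ∣ f.2.1 + m) ∨ ((3 : ℤ) ∣ f.2.1 + m ∧ (7 : ℤ) ∣ f.2.1 - m)))
    ?_ ?_ x n hn]
  · unfold EM
    refine finsum_congr fun f => ?_
    unfold cM
    simp only [and_assoc]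
    rfl
  · intro f _
    have e1 : -f.2.1 + (m : ℤ) = -(f.2.1 - m) := by ring
    have e2 : -f.2.1 - (m : ℤ) = -(f.2.1 + m) := by ring
    simp only [e1, e2, dvd_neg]
    tauto
  · rintro f ⟨-, h1, -⟩ ⟨-, h2, -⟩
    simp only at h2
    omega

theorem EB_eq {m : ℕ} (hm : Fn m) (h7 : ¬ (7 : ℤ) ∣ m) (x n : ℤ)
    (hn : 0 < n) : EB m x n = GP (fun a => ¬ 3 ∣ a) (fun a' => 7 ∣ a' ∧ ¬ 3 ∣ a') m m m x n +
      GP (fun a => ¬ 3 ∣ a) (fun a' => 7 ∣ a' ∧ ¬ 3 ∣ a') m m m (-x) n := by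
  classical
  rw [← F_eq (b := m) (ok_of hm).pos (compB h7) (Lw := fun f => (7 : ℤ) ∣ f.1 ∧ ¬ (3 : ℤ) ∣ f.1)
    ?_ ?_ x n hn]
  · unfold EB
    refine finsum_congr fun f => ?_
    unfold cB
    simp only [and_assoc]
    rfl
  · intro f hd
    constructor
    · rintro ⟨h1, h2⟩
      have h4 : (7 : ℤ) ∣ (f.2.1 - m) * (f.2.1 + m) := by
        have e : (f.2.1 - m) * (f.2.1 + (m : ℤ)) = 4 * f.1 * f.2.2 := by
          linear_combination hd
        rw [e]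
        exact Dvd.dvd.mul_right (Dvd.dvd.mul_left h1 4) _
      rcases dor7 h4 with h5 | h5
      · exact Or.inl ⟨⟨h1, h2⟩, h5⟩
      · refine Or.inr ⟨⟨h1, h2⟩, ?_⟩
        show (7 : ℤ) ∣ -f.2.1 - m
        omega
    · rintro (⟨h1, -⟩ | ⟨h1, -⟩) <;> exact h1
  · rintro f ⟨-, h1⟩ ⟨-, h2⟩
    simp only at h2
    omega

theorem EC_eq {m : ℕ} (hm : Fn m) (h7 : 7 ∣ m) (x n : ℤ)
    (hn : 0 < n) : EB m x n =
      GP (fun a => 7 ∣ a ∧ ¬ 3 ∣ a) (fun a' => 7 ∣ a' ∧ ¬ 3 ∣ a') m m m x n := by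
  classical
  rw [← F_eq1 (b := m) (ok_of hm).pos (compC (ok_of hm).pos h7) x n hn]
  unfold EB
  refine finsum_congr fun f => ?_
  unfold cB
  simp only [and_assoc]
  rfl

theorem not_dvd_21 {A m : ℕ} (h : Nat.Coprime (A * m) 21) : ¬ (3 : ℤ) ∣ m ∧ ¬ (7 : ℤ) ∣ m := by
  constructor
  · intro h1
    have h2 : 3 ∣ m := by exact_mod_cast h1
    have h3 : 3 ∣ Nat.gcd (A * m) 21 := Nat.dvd_gcd (h2.mul_left A) (by norm_num)
    rw [h] at h3
    omega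
  · intro h1
    have h2 : 7 ∣ m := by exact_mod_cast h1
    have h3 : 7 ∣ Nat.gcd (A * m) 21 := Nat.dvd_gcd (h2.mul_left A) (by norm_num)
    rw [h] at h3
    omega

theorem fd_A0 {A : ℕ} (hA : A = 1 ∨ A0 A) : A = 1 ∨ Fd A := hA.imp_right fun h => h.1

/-- **D1I** -/
theorem t_D1I : S_D1I := by
  intro A m hA hm hc h21
  obtain ⟨h3, h7⟩ := not_dvd_21 h21
  rw [main (P := fun a => 7 ∣ a) (Q := fun a' => 3 ∣ a') hA (ok_of hm) hc.symm
    (F := EM m) (EM_eq hm h3 h7), mul_comm A m]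
  congr 1
  refine Finset.sum_congr rfl fun T _ => ?_
  unfold WM
  rw [Wd_eq _ _ hm hA hc]

/-- **D13** -/
theorem t_D13 : S_D13 := by
  intro A m hA hm hc
  rw [main (P := fun a => ¬ 3 ∣ a) (Q := fun a' => 7 ∣ a' ∧ ¬ 3 ∣ a') (Or.inr hA.1)
    (ok_of (fn_K0 hm)) hc.symm (F := EB m) (EB_eq (fn_K0 hm) (K0_7 hm)), mul_comm A m]
  congr 1
  refine Finset.sum_congr rfl fun T _ => ?_
  unfold WB
  rw [Wd_eq _ _ (fn_K0 hm) (Or.inr hA.1) hc]

/-- **D121** -/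
theorem t_D121 : S_D121 := by
  intro A m hA hm hc
  rw [main1 (P := fun a => 7 ∣ a ∧ ¬ 3 ∣ a) (Q := fun a' => 7 ∣ a' ∧ ¬ 3 ∣ a') (fd_A0 hA)
    (ok_of (fn_K7 hm)) hc.symm (F := EB m) (EC_eq (fn_K7 hm) (K7_7 hm)), mul_comm A m]
  refine Finset.sum_congr rfl fun T _ => ?_
  unfold WC
  rw [Wd_eq _ _ (fn_K7 hm) (fd_A0 hA) hc]

theorem EM_02 (m : ℕ) : EM m 0 2 = EM m 0 1 := by
  classical
  unfold EM
  refine finsum_congr fun q => ?_
  have e : (q.1 * 0 ^ 2 + q.2.1 * 0 * 2 + q.2.2 * 2 ^ 2 < 0) ↔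
      (q.1 * 0 ^ 2 + q.2.1 * 0 * 1 + q.2.2 * 1 ^ 2 < 0) := by
    constructor <;> intro h <;> linarith
  simp only [e]

theorem EB_02 (m : ℕ) : EB m 0 2 = EB m 0 1 := by
  classical
  unfold EB
  refine finsum_congr fun q => ?_
  have e : (q.1 * 0 ^ 2 + q.2.1 * 0 * 2 + q.2.2 * 2 ^ 2 < 0) ↔
      (q.1 * 0 ^ 2 + q.2.1 * 0 * 1 + q.2.2 * 1 ^ 2 < 0) := by
    constructor <;> intro h <;> linarith
  simp only [e]

theorem d7 (a : ℕ) : 7 ∣ 2 * a ↔ 7 ∣ a := by omega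

theorem d3 (a : ℕ) : 3 ∣ 2 * a ↔ 3 ∣ a := by omega

/-- **D1I2** -/
theorem t_D1I2 : S_D1I2 := by
  intro m hm h21
  have h21' : Nat.Coprime (1 * m) 21 := by rw [one_mul]; exact h21
  obtain ⟨h3, h7⟩ := not_dvd_21 h21'
  have H := ok_of hm
  have k0 := two_zero (P := fun a => 7 ∣ a) (Q := fun a' => 3 ∣ a') H d7 d3
  have e1 := EM_eq hm h3 h7 0 1 one_pos
  have e2 := EM_eq hm h3 h7 0 2 two_pos
  have e3 := EM_eq hm h3 h7 1 2 two_pos
  have e4 := GP_shift (P := fun a => 7 ∣ a) (Q := fun a' => 3 ∣ a') H (d := m) (dvd_refl _) (-1) 2 1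
  have e5 : (-1 : ℤ) + 2 * 1 = 1 := by norm_num
  rw [e5] at e4
  rw [neg_zero] at e1 e2
  rw [EM_02] at e2
  have e6 : 2 * EM m 0 1 + EM m 1 2 = EM m 0 1 + EM m 0 1 + EM m 1 2 := by ring
  rw [e6]
  conv_lhs => rw [e3, ← e4]
  have e7 : EM m 0 1 + EM m 0 1 = 2 * (GP (fun a => 7 ∣ a) (fun a' => 3 ∣ a') m m m 0 1 +
      GP (fun a => 7 ∣ a) (fun a' => 3 ∣ a') m m m 0 2) := by linarith
  rw [e7]
  have e8 : ∑ T ∈ range (2 * m), WM m 1 (2 * m - T) T =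
      GP (fun a => 7 ∣ a) (fun a' => 3 ∣ a') m m m 0 1 +
      GP (fun a => 7 ∣ a) (fun a' => 3 ∣ a') m m m 0 2 +
      GP (fun a => 7 ∣ a) (fun a' => 3 ∣ a') m m m 1 2 := by
    rw [k0]
    refine Finset.sum_congr rfl fun T _ => ?_
    unfold WM
    rw [Wd_one _ _ hm]
  rw [e8]
  ring

/-- **D1212** -/
theorem t_D1212 : S_D1212 := by
  intro m hm
  have hF := fn_K7 hm
  have h7 := K7_7 hm
  have H := ok_of hF
  have k0 := two_zero (P := fun a => 7 ∣ a ∧ ¬ 3 ∣ a) (Q := fun a' => 7 ∣ a' ∧ ¬ 3 ∣ a') H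
    (fun a => by omega) (fun a => by omega)
  have e1 := EC_eq hF h7 0 1 one_pos
  have e2 := EC_eq hF h7 0 2 two_pos
  have e3 := EC_eq hF h7 1 2 two_pos
  rw [← e1, ← e2, ← e3, EB_02] at k0
  have e6 : 2 * EB m 0 1 + EB m 1 2 = EB m 0 1 + EB m 0 1 + EB m 1 2 := by ring
  rw [e6, k0]
  refine Finset.sum_congr rfl fun T _ => ?_
  unfold WC
  rw [Wd_one _ _ hF]

end

end Pool.Agent.N974.P21G
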