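import Pool.Agent.N974.P21G.Gb
import Pool.Agent.N974.P21G.D1
import Pool.Agent.N974.RQ.Dual

/-!
# P21G: the even symbols of `-m` at the cusps `u / A` and the real symbol of the elliptic curve
-/

set_option autoImplicit false

namespace Pool.Agent.N974.P21G

open Finset
open Pool.Agent.N969.P15 (un c2 Ev)
open Pool.Agent.N969.P17G (gen chP)
open Pool.Agent.N969.RQ (Fd)
open Pool.Agent.N975.Sym (ev act act_inv)
open Pool.Agent.N974.GN (Wt Par X NZ X_pos X_coc0 evenHom EvenHom cmp21 sum_class TM TM_act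
  TM_act_iff TM_refl sq21 re_ne21 lv21_O lv21_E sum_un_jac sum_un_chE)
open Pool.Agent.N974.Gen (II symbP)
open Pool.Agent.N974.RQ (mA chP_odd ev_of odd_of)
open Pool.Agent.N402.MF21 (f21 eigen21)
open Pool.Agent.N877.P21G (Fn Ai A0 As K0 K7 cM cB gnM EM EB CMPE)
open Pool.Agent.Y687 (RankBSD rankBSD)

noncomputable section

/-! ### the weights -/

open Classical in
/-- the weight of `EM` -/
def kE (m : ℕ) (q : ℤ × ℤ × ℤ) : ℤ := if cM m q then gb m m q else 0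

open Classical in
/-- the weight of `EB` -/
def kB (m : ℕ) (q : ℤ × ℤ × ℤ) : ℤ := if cB m q then gb m m q else 0

theorem kE_pos {m : ℕ} {q : ℤ × ℤ × ℤ} (h : cM m q) : kE m q = gb m m q := by
  unfold kE
  rw [if_pos h]

theorem kE_zero {m : ℕ} {q : ℤ × ℤ × ℤ} (h : ¬ cM m q) : kE m q = 0 := by
  unfold kE
  rw [if_neg h]

theorem kE_ne {m : ℕ} {q : ℤ × ℤ × ℤ} (h : kE m q ≠ 0) : cM m q := by
  by_contra h1
  exact h (kE_zero h1)

theorem kB_pos {m : ℕ} {q : ℤ × ℤ × ℤ} (h : cB m q) : kB m q = gb m m q := by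
  unfold kB
  rw [if_pos h]

theorem kB_zero {m : ℕ} {q : ℤ × ℤ × ℤ} (h : ¬ cB m q) : kB m q = 0 := by
  unfold kB
  rw [if_neg h]

theorem kB_ne {m : ℕ} {q : ℤ × ℤ × ℤ} (h : kB m q ≠ 0) : cB m q := by
  by_contra h1
  exact h (kB_zero h1)

theorem cM_iff {m : ℕ} {q : ℤ × ℤ × ℤ} : cM m q ↔ TM 3 7 m q ∨ TM 7 3 m q := by
  unfold cM TM
  have e1 : ((3 * 7 : ℕ) : ℤ) = 21 := by norm_num
  have e3 : ((3 : ℕ) : ℤ) = 3 := by norm_num
  have e4 : ((7 : ℕ) : ℤ) = 7 := by norm_num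
  rw [e1, e3, e4]
  tauto

theorem TM37_act {m : ℕ} {a b c d : ℤ} (h : a * d - b * (21 * c) = 1) {f : ℤ × ℤ × ℤ}
    (hf : TM 3 7 m f) : TM 3 7 m (act a b (21 * c) d f) := by
  have e1 : ((3 * 7 : ℕ) : ℤ) = 21 := by norm_num
  have h1 := TM_act (p := 3) (q := 7) (l := m) (a := a) (b := b) (c := c) (d := d)
    (by rw [e1]; exact h) hf
  rw [e1] at h1
  exact h1

theorem TM73_act {m : ℕ} {a b c d : ℤ} (h : a * d - b * (21 * c) = 1) {f : ℤ × ℤ × ℤ}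
    (hf : TM 7 3 m f) : TM 7 3 m (act a b (21 * c) d f) := by
  have e1 : ((7 * 3 : ℕ) : ℤ) = 21 := by norm_num
  have h1 := TM_act (p := 7) (q := 3) (l := m) (a := a) (b := b) (c := c) (d := d)
    (by rw [e1]; exact h) hf
  rw [e1] at h1
  exact h1

theorem cM_act {m : ℕ} {a b c d : ℤ} (h : a * d - b * (21 * c) = 1) {f : ℤ × ℤ × ℤ}
    (hf : cM m f) : cM m (act a b (21 * c) d f) := by
  rw [cM_iff] at hf ⊢
  exact hf.imp (TM37_act h) (TM73_act h)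

theorem iff_of_act {P : ℤ × ℤ × ℤ → Prop} (hP : ∀ {a b c d : ℤ}, a * d - b * (21 * c) = 1 →
    ∀ {f : ℤ × ℤ × ℤ}, P f → P (act a b (21 * c) d f)) {a b c d : ℤ}
    (h : a * d - b * (21 * c) = 1) {f : ℤ × ℤ × ℤ} : P (act a b (21 * c) d f) ↔ P f := by
  constructor
  · intro h1
    have h2 := hP (a := d) (b := -b) (c := -c) (d := a) (by linear_combination h) h1
    have e : (21 : ℤ) * -c = -(21 * c) := by ring
    rw [e, act_inv h] at h2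
    exact h2
  · exact hP h

theorem cB_act {m : ℕ} {a b c d : ℤ} (h : a * d - b * (21 * c) = 1) {f : ℤ × ℤ × ℤ}
    (hf : cB m f) : cB m (act a b (21 * c) d f) := by
  obtain ⟨h1, h2, h3⟩ := hf
  refine ⟨act_disc h1 h, ?_, ?_⟩
  · obtain ⟨k, hk⟩ := h2
    refine ⟨k * a ^ 2 + f.2.1 * a * (3 * c) + f.2.2 * 63 * c ^ 2, ?_⟩
    unfold act
    simp only
    rw [hk]
    ring
  · intro h4
    have h5 : (3 : ℤ) ∣ f.1 * a ^ 2 := by
      have e : f.1 * a ^ 2 = (act a b (21 * c) d f).1 -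
          3 * (f.2.1 * a * (7 * c) + f.2.2 * 147 * c ^ 2) := by
        unfold act
        simp only
        ring
      rw [e]
      exact h4.sub (dvd_mul_right _ _)
    rcases dor3 h5 with h6 | h6
    · exact h3 h6
    · have h7 : (3 : ℤ) ∣ a := Int.prime_three.dvd_of_dvd_pow h6
      obtain ⟨j, hj⟩ := h7
      have h8 : (3 : ℤ) ∣ 1 := ⟨j * d - b * (7 * c), by rw [← h, hj]; ring⟩
      omega

theorem m_pos {m : ℕ} (hm : Fn m) : 0 < m := (ok_of hm).pos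

theorem cM_ne {m : ℕ} (h3 : ¬ (3 : ℤ) ∣ m) (h7 : ¬ (7 : ℤ) ∣ m) {q : ℤ × ℤ × ℤ} (h : cM m q) :
    q.1 * q.2.2 ≠ 0 := by
  intro h0
  obtain ⟨h1, -, h2⟩ := h
  have h5 : (q.2.1 - m) * (q.2.1 + m) = 0 := by linear_combination h1 + 4 * h0
  rcases mul_eq_zero.1 h5 with h6 | h6
  · rcases h2 with ⟨-, h8⟩ | ⟨h8, -⟩ <;> omega
  · rcases h2 with ⟨h8, -⟩ | ⟨-, h8⟩ <;> omega

theorem wt_kE {m : ℕ} (hm : Fn m) (h3 : ¬ (3 : ℤ) ∣ m) (h7 : ¬ (7 : ℤ) ∣ m) :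
    Wt 21 ((m : ℤ) ^ 2) (kE m) where
  ne := by
    have : (m : ℤ) ≠ 0 := by exact_mod_cast (m_pos hm).ne'
    exact pow_ne_zero 2 this
  disc := fun f hf => (kE_ne hf).1
  inv := by
    intro a b c d h f
    by_cases hf : cM m f
    · rw [kE_pos hf, kE_pos (cM_act h hf), gb_act (ok_of hm) hf.1 h]
    · rw [kE_zero hf, kE_zero (fun h1 => hf ((iff_of_act (P := cM m) cM_act h).1 h1))]
  ninf := by
    intro f h0
    by_contra hf
    exact cM_ne h3 h7 (kE_ne hf) (by rw [h0, zero_mul])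

theorem wt_kB {m : ℕ} (hm : Fn m) : Wt 21 ((m : ℤ) ^ 2) (kB m) where
  ne := by
    have : (m : ℤ) ≠ 0 := by exact_mod_cast (m_pos hm).ne'
    exact pow_ne_zero 2 this
  disc := fun f hf => (kB_ne hf).1
  inv := by
    intro a b c d h f
    by_cases hf : cB m f
    · rw [kB_pos hf, kB_pos (cB_act h hf), gb_act (ok_of hm) hf.1 h]
    · rw [kB_zero hf, kB_zero (fun h1 => hf ((iff_of_act (P := cB m) cB_act h).1 h1))]
  ninf := by
    intro f h0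
    by_contra hf
    apply (kB_ne hf).2.2
    rw [h0]
    exact dvd_zero _

theorem cM_refl {m : ℕ} {a b c : ℤ} : cM m (-a, b, -c) ↔ cM m (a, b, c) := by
  unfold cM
  simp only [dvd_neg]
  have : b ^ 2 - 4 * -a * -c = b ^ 2 - 4 * a * c := by ring
  rw [this]

theorem cB_refl {m : ℕ} {a b c : ℤ} : cB m (-a, b, -c) ↔ cB m (a, b, c) := by
  unfold cB
  simp only [dvd_neg]
  have : b ^ 2 - 4 * -a * -c = b ^ 2 - 4 * a * c := by ring
  rw [this]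

theorem par_kE {m : ℕ} (hm : Fn m) : Par (kE m) (-1) := by
  intro a b c
  by_cases hf : cM m (a, b, c)
  · rw [kE_pos hf, kE_pos (cM_refl.2 hf), gnM_neg hm a b c b]
    ring
  · rw [kE_zero hf, kE_zero (fun h1 => hf (cM_refl.1 h1)), mul_zero]

theorem par_kB {m : ℕ} (hm : Fn m) : Par (kB m) (-1) := by
  intro a b c
  by_cases hf : cB m (a, b, c)
  · rw [kB_pos hf, kB_pos (cB_refl.2 hf), gnM_neg hm a b c b]
    ring
  · rw [kB_zero hf, kB_zero (fun h1 => hf (cB_refl.1 h1)), mul_zero]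

theorem cM_neg {m : ℕ} {q : ℤ × ℤ × ℤ} : cM m (-q) ↔ cM m q := by
  unfold cM
  simp only [Prod.fst_neg, Prod.snd_neg, dvd_neg]
  have e0 : (-q.2.1) ^ 2 - 4 * -q.1 * -q.2.2 = q.2.1 ^ 2 - 4 * q.1 * q.2.2 := by ring
  have e1 : -q.2.1 - (m : ℤ) = -(q.2.1 + m) := by ring
  have e2 : -q.2.1 + (m : ℤ) = -(q.2.1 - m) := by ring
  rw [e0, e1, e2, dvd_neg, dvd_neg, dvd_neg, dvd_neg]
  tauto

theorem cB_neg {m : ℕ} {q : ℤ × ℤ × ℤ} : cB m (-q) ↔ cB m q := by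
  unfold cB
  simp only [Prod.fst_neg, Prod.snd_neg, dvd_neg]
  have e0 : (-q.2.1) ^ 2 - 4 * -q.1 * -q.2.2 = q.2.1 ^ 2 - 4 * q.1 * q.2.2 := by ring
  rw [e0]

theorem kE_neg {m : ℕ} (hm : Fn m) (q : ℤ × ℤ × ℤ) : kE m (-q) = -kE m q := by
  by_cases hf : cM m q
  · rw [kE_pos hf, kE_pos (cM_neg.2 hf)]
    exact gnM_neg hm q.1 q.2.1 q.2.2 (-q.2.1)
  · rw [kE_zero hf, kE_zero (fun h1 => hf (cM_neg.1 h1)), neg_zero]

theorem kB_neg {m : ℕ} (hm : Fn m) (q : ℤ × ℤ × ℤ) : kB m (-q) = -kB m q := by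
  by_cases hf : cB m q
  · rw [kB_pos hf, kB_pos (cB_neg.2 hf)]
    exact gnM_neg hm q.1 q.2.1 q.2.2 (-q.2.1)
  · rw [kB_zero hf, kB_zero (fun h1 => hf (cB_neg.1 h1)), neg_zero]

theorem X_kE {m : ℕ} (hm : Fn m) (h3 : ¬ (3 : ℤ) ∣ m) (h7 : ¬ (7 : ℤ) ∣ m) (x M : ℤ) :
    X (kE m) x M = 4 * EM m x M := by
  classical
  rw [X_pos (wt_kE hm h3 h7) x M]
  have e : ∀ q : ℤ × ℤ × ℤ, (if 0 < q.1 ∧ ev q x M < 0 then kE m q - kE m (-q) else 0) =
      2 * (if cM m q ∧ 0 < q.1 ∧ q.1 * x ^ 2 + q.2.1 * x * M + q.2.2 * M ^ 2 < 0 then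
        gnM m q else 0) := by
    intro q
    rw [kE_neg hm q]
    by_cases h : 0 < q.1 ∧ ev q x M < 0
    · rw [if_pos h]
      by_cases h1 : cM m q
      · rw [if_pos ⟨h1, h⟩, kE_pos h1]
        have : gb m m q = gnM m q := rfl
        rw [this]
        ring
      · rw [if_neg (fun h2 => h1 h2.1), kE_zero h1]
        ring
    · rw [if_neg h, if_neg (fun h2 => h h2.2), mul_zero]
  rw [finsum_congr e, ← mul_finsum]
  unfold EM
  ring

theorem X_kB {m : ℕ} (hm : Fn m) (x M : ℤ) : X (kB m) x M = 4 * EB m x M := by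
  classical
  rw [X_pos (wt_kB hm) x M]
  have e : ∀ q : ℤ × ℤ × ℤ, (if 0 < q.1 ∧ ev q x M < 0 then kB m q - kB m (-q) else 0) =
      2 * (if cB m q ∧ 0 < q.1 ∧ q.1 * x ^ 2 + q.2.1 * x * M + q.2.2 * M ^ 2 < 0 then
        gnM m q else 0) := by
    intro q
    rw [kB_neg hm q]
    by_cases h : 0 < q.1 ∧ ev q x M < 0
    · rw [if_pos h]
      by_cases h1 : cB m q
      · rw [if_pos ⟨h1, h⟩, kB_pos h1]
        have : gb m m q = gnM m q := rfl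
        rw [this]
        ring
      · rw [if_neg (fun h2 => h1 h2.1), kB_zero h1]
        ring
    · rw [if_neg h, if_neg (fun h2 => h h2.2), mul_zero]
  rw [finsum_congr e, ← mul_finsum]
  unfold EB
  ring

/-! ### the boundary -/

theorem nz_kE {m : ℕ} (h3 : ¬ (3 : ℤ) ∣ m) (h7 : ¬ (7 : ℤ) ∣ m) : NZ (kE m) 0 1 := by
  intro f h0
  by_contra hf
  refine cM_ne h3 h7 (kE_ne hf) ?_
  have e : ev f 0 1 = f.2.2 := by unfold ev; ring
  rw [← e, h0, mul_zero]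

theorem nz_kB {m : ℕ} : NZ (kB m) 1 3 := by
  intro f h0
  by_contra hf
  apply (kB_ne hf).2.2
  refine ⟨-(f.2.1 + 3 * f.2.2), ?_⟩
  unfold ev at h0
  linear_combination h0

theorem nz_kB0 {m : ℕ} (hm0 : 0 < m) (h7 : 7 ∣ m) : NZ (kB m) 0 1 := by
  intro f h0
  by_contra hf
  obtain ⟨-, h1, -⟩ := kB_ne hf
  have e : ev f 0 1 = f.2.2 := by unfold ev; ring
  rw [e] at h0
  have hmem : 7 ∈ m.primeFactors.erase 2 := by
    rw [Finset.mem_erase, Nat.mem_primeFactors]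
    exact ⟨by norm_num, p7, h7, hm0.ne'⟩
  rw [kB_pos (kB_ne hf)] at hf
  have hg := gen_ne hf hmem
  apply hg
  unfold gen
  rw [if_pos (show ((7 : ℕ) : ℤ) ∣ f.1 from h1), h0]
  exact Pool.Agent.N974.RQ.jac_zero_of_dvd p7 (dvd_zero _)

theorem X11 {D : ℤ} {k : ℤ × ℤ × ℤ → ℤ} (H : Wt 21 D k) (hz : NZ k 0 1) :
    X k 11 (21 * 1) = X k 1 2 - X k 0 1 := by
  have h := X_coc0 H (a := 11) (b := 1) (c := 1) (d := 2) (by norm_num) (x := 0) (m := 1) hz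
  norm_num at h ⊢
  linarith

/-! ### the characters -/

theorem sum_chP {A : ℕ} (hA : Fd A) : ∑ u ∈ un A, chP A u = 0 := by
  by_cases h2 : 2 ∣ A
  · have e : ∑ u ∈ un A, chP A u = ∑ u ∈ un A, Pool.Agent.N974.Gen.ChP.chE A u :=
      Finset.sum_congr rfl fun u _ => by rw [Pool.Agent.N974.PG.chP_eq (ev_of hA h2)]
    rw [e]
    exact sum_un_chE (ev_of hA h2)
  · obtain ⟨hsq, h4⟩ := odd_of hA h2
    have e : ∑ u ∈ un A, chP A u = ∑ u ∈ un A, jacobiSym u A :=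
      Finset.sum_congr rfl fun u _ => by rw [chP_odd hsq h2]
    rw [e]
    exact sum_un_jac hsq (by omega) hA.1

/-- the real symbol of the elliptic curve of level `21` -/
def sy (r : ℚ) : ℝ := (II f21 r).re

/-- the unit of the real symbol -/
def ky : ℝ := sy (1 / 2) - sy 0

theorem ky_ne : ky ≠ 0 := re_ne21 eigen21

/-- the normalized central value -/
def sig (A : ℕ) : ℝ := (∑ u ∈ un A, (chP A u : ℝ) * sy ((u : ℚ) / A)) / ky

theorem sig_mul (A : ℕ) : ky * sig A = ∑ u ∈ un A, (chP A u : ℝ) * sy ((u : ℚ) / A) := by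
  unfold sig
  rw [mul_div_cancel₀ _ ky_ne]

/-- the character sums of the crossing numbers of an even weight -/
theorem sum_sig {D : ℤ} {k : ℤ × ℤ × ℤ → ℤ} (H : Wt 21 D k) (Pk : Par k (-1)) {A m₀ : ℕ}
    {x₀ : ℤ} (hA : Fd A) (hm₀ : 0 < m₀) (hx₀ : IsCoprime x₀ (m₀ : ℤ))
    (hg : Nat.gcd m₀ 21 = Nat.gcd A 21) (hz : NZ k x₀ m₀) :
    ((∑ u ∈ un A, chP A u * X k u A : ℤ) : ℝ) = (X k 11 (21 * 1) : ℝ) * sig A := by
  have P := symbP eigen21 (by norm_num : 1 < 21)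
  have hA0 : 0 < A := by have := hA.1; omega
  have h1 := sum_class (N := 21) P sq21 (k := k) (D := D) H (κ := ky)
    (μ := ((X k 11 (21 * 1) : ℤ) : ℝ)) ?_ hA0 hm₀ hx₀ hg hz (χ := fun u => chP A u) (sum_chP hA)
  · have h2 : ∑ u ∈ un A, (chP A u : ℝ) * (II f21 ((u : ℚ) / A)).re = ky * sig A :=
      (sig_mul A).symm
    rw [h2] at h1
    have h3 : ky * ((∑ u ∈ un A, chP A u * X k u A : ℤ) : ℝ) =
        ky * ((X k 11 (21 * 1) : ℝ) * sig A) := by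
      rw [h1]
      ring
    exact mul_left_cancel₀ ky_ne h3
  · intro a b c d hd
    have hd' : a * d - 21 * (b * c) = 1 := by exact_mod_cast hd
    exact cmp21 P (EvenHom.cast (evenHom H Pk)) hd'

theorem sum_four {A : ℕ} {F G : ℤ → ℤ → ℤ} (h : ∀ x M, F x M = 4 * G x M) :
    ∑ u ∈ un A, chP A u * F u A = 4 * ∑ u ∈ un A, chP A u * G u A := by
  rw [Finset.mul_sum]
  refine Finset.sum_congr rfl fun u _ => ?_
  rw [h]
  ring

/-! ### the level -/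

theorem gcd1 {A : ℕ} (h3 : ¬ 3 ∣ A) (h7 : ¬ 7 ∣ A) : Nat.gcd 1 21 = Nat.gcd A 21 := by
  rw [Nat.gcd_one_left]
  symm
  rw [show (21 : ℕ) = 3 * 7 by norm_num]
  exact Nat.Coprime.mul_right ((Nat.Prime.coprime_iff_not_dvd Nat.prime_three).2 h3).symm
    ((Nat.Prime.coprime_iff_not_dvd p7).2 h7).symm

theorem gcd3 {A : ℕ} (h3 : 3 ∣ A) (h7 : ¬ 7 ∣ A) : Nat.gcd 3 21 = Nat.gcd A 21 := by
  rw [show (21 : ℕ) = 3 * 7 by norm_num, Nat.gcd_eq_left (dvd_mul_right 3 7),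
    Nat.Coprime.gcd_mul_right_cancel_right 3 ((Nat.Prime.coprime_iff_not_dvd p7).2 h7).symm.symm,
    Nat.gcd_eq_right h3]

theorem jac7 {A : ℕ} (h : jacobiSym A 7 ≠ 0) : ¬ 7 ∣ A := by
  intro h1
  apply h
  exact Pool.Agent.N974.RQ.jac_zero_of_dvd p7 (by exact_mod_cast h1)

theorem As_data {A : ℕ} (hA : Ai A ∨ As A) : Fd A ∧ ¬ 3 ∣ A ∧ ¬ 7 ∣ A := by
  rcases hA with h | h
  · exact ⟨h.1, by have := h.2.1; omega, jac7 (by rw [h.2.2]; norm_num)⟩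
  · exact ⟨h.1, by have := h.2.1; omega, jac7 (by rw [h.2.2]; norm_num)⟩

theorem A0_data {A : ℕ} (hA : A0 A) : Fd A ∧ 3 ∣ A ∧ ¬ 7 ∣ A :=
  ⟨hA.1, hA.2.1, jac7 (by rw [hA.2.2]; norm_num)⟩

theorem K0_3 {m : ℕ} (h : K0 m) : ¬ (3 : ℤ) ∣ m := by
  have h1 : m % 3 = 1 := by
    rcases h with h | h
    · exact h.2.2.1
    · exact h.2.1
  omega

/-- the first case: `A` prime to `21` -/
theorem cmpE1 {A m : ℕ} (hA : Ai A ∨ As A) (hm : Fn m) (h3 : ¬ (3 : ℤ) ∣ m)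
    (h7 : ¬ (7 : ℤ) ∣ m) :
    ((∑ u ∈ un A, chP A u * EM m u A : ℤ) : ℝ) = (EM m 1 2 - EM m 0 1 : ℤ) * sig A := by
  obtain ⟨hF, hA3, hA7⟩ := As_data hA
  have H := wt_kE hm h3 h7
  have h1 := sum_sig H (par_kE hm) hF (m₀ := 1) (x₀ := 0) one_pos (by norm_num) (gcd1 hA3 hA7)
    (nz_kE h3 h7)
  rw [sum_four (X_kE hm h3 h7), X11 H (nz_kE h3 h7), X_kE hm h3 h7, X_kE hm h3 h7] at h1
  push_cast at h1 ⊢
  linarith

/-- the third case: `3 ∣ A`, `7 ∣ m` -/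
theorem cmpE3 {A m : ℕ} (hA : A0 A) (hm : Fn m) (h7 : 7 ∣ m) :
    ((∑ u ∈ un A, chP A u * EB m u A : ℤ) : ℝ) = (EB m 1 2 - EB m 0 1 : ℤ) * sig A := by
  obtain ⟨hF, hA3, hA7⟩ := A0_data hA
  have H := wt_kB hm
  have h1 := sum_sig H (par_kB hm) hF (m₀ := 3) (x₀ := 1) (by norm_num) (by norm_num)
    (gcd3 hA3 hA7) nz_kB
  rw [sum_four (X_kB hm), X11 H (nz_kB0 (m_pos hm) h7), X_kB hm, X_kB hm] at h1
  push_cast at h1 ⊢
  linarith

/-- the second case: `3 ∣ A`, up to the relation of the two weights -/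
theorem cmpE2 {A m : ℕ} (hA : A0 A) (hm : Fn m) (h3 : ¬ (3 : ℤ) ∣ m) (h7 : ¬ (7 : ℤ) ∣ m)
    (hrel : X (kB m) 11 (21 * 1) = -2 * X (kE m) 11 (21 * 1)) :
    ((∑ u ∈ un A, chP A u * EB m u A : ℤ) : ℝ) = -2 * (EM m 1 2 - EM m 0 1 : ℤ) * sig A := by
  obtain ⟨hF, hA3, hA7⟩ := A0_data hA
  have H := wt_kB hm
  have h1 := sum_sig H (par_kB hm) hF (m₀ := 3) (x₀ := 1) (by norm_num) (by norm_num)
    (gcd3 hA3 hA7) nz_kB
  rw [sum_four (X_kB hm), hrel, X11 (wt_kE hm h3 h7) (nz_kE h3 h7), X_kE hm h3 h7,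
    X_kE hm h3 h7] at h1
  push_cast at h1 ⊢
  linarith

/-- the comparison, up to the relation of the two weights -/
theorem cmpE_of (hrel : ∀ m : ℕ, K0 m → X (kB m) 11 (21 * 1) = -2 * X (kE m) 11 (21 * 1))
    (A : ℕ) : CMPE A (sig A) := by
  intro m _
  refine ⟨fun hA hm => cmpE1 hA (fn_K0 hm) (K0_3 hm) (K0_7 hm), fun hA hm =>
    cmpE2 hA (fn_K0 hm) (K0_3 hm) (K0_7 hm) (hrel m hm), fun hA hm =>
    cmpE3 hA (fn_K7 hm) (K7_7 hm)⟩

/-! ### the rank form of the conjecture -/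

/-- **the rank form of the conjecture if the normalized central value does not vanish** -/
theorem rank_sig {A : ℕ} (hA : Fd A) (h : sig A ≠ 0)
    (hfin : Pool.Agent.N975.S21.FinPts (mA A : ℤ)) :
    RankBSD (-5211 * (mA A : ℤ) ^ 2) (-31050 * (mA A : ℤ) ^ 3) := by
  have h1 : ∑ u ∈ un A, (chP A u : ℝ) * (II f21 ((u : ℚ) / A)).re ≠ 0 := by
    intro h0
    apply h
    have h2 : ky * sig A = 0 := by
      rw [sig_mul]
      exact h0
    exact (mul_eq_zero.1 h2).resolve_left ky_ne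
  by_cases h2 : 2 ∣ A
  · have e : mA A = A / 4 := by unfold mA; rw [if_pos h2]
    rw [e] at hfin ⊢
    have e1 : ∑ u ∈ un A, (Pool.Agent.N974.Gen.ChP.chE A u : ℝ) * (II f21 ((u : ℚ) / A)).re =
        ∑ u ∈ un A, (chP A u : ℝ) * (II f21 ((u : ℚ) / A)).re :=
      Finset.sum_congr rfl fun u _ => by rw [Pool.Agent.N974.PG.chP_eq (ev_of hA h2)]
    rw [← e1] at h1
    obtain ⟨F, hF, hFp, hF1⟩ := lv21_E eigen21 (ev_of hA h2) h1
    exact rankBSD hF hFp hF1 hfin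
  · have e : mA A = A := by unfold mA; rw [if_neg h2]
    rw [e] at hfin ⊢
    obtain ⟨hsq, h4⟩ := odd_of hA h2
    have e1 : ∑ u ∈ un A, (jacobiSym u A : ℝ) * (II f21 ((u : ℚ) / A)).re =
        ∑ u ∈ un A, (chP A u : ℝ) * (II f21 ((u : ℚ) / A)).re :=
      Finset.sum_congr rfl fun u _ => by rw [chP_odd hsq h2]
    rw [← e1] at h1
    obtain ⟨F, hF, hFp, hF1⟩ := lv21_O eigen21 hsq h4 hA.1 h1
    exact rankBSD hF hFp hF1 hfin

end

end Pool.Agent.N974.P21G
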