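import Pool.Agent.N974.P21G.Wt

/-!
# P21G: the forms of discriminant `m²`, the sums over the cusps and the Hecke operator at `2`
-/

set_option autoImplicit false

namespace Pool.Agent.N974.P21G

open Finset
open Pool.Agent.N969.P15 (un psp psp2 c2 Ev)
open Pool.Agent.N969.P17G (gen psl psl2 chP)
open Pool.Agent.N969.RQ (Fd)
open Pool.Agent.N973.P15.C (inj_gen exists_fac sign_of fo)
open Pool.Agent.N402.P15 (q2 c2_congr two_dvd_q2)
open Pool.Agent.N971.PG (f1 f2 f3 tr f1_inj f2_inj f3_inj)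
open Pool.Agent.N974.RQ (FF Om Cd fw Fc facts bijOn wc sum_cusp un_refl chP_neg SA
  SA_fin flip_bij two_dvd_of jac_zero_of_dvd)

noncomputable section

variable {P Q : ℕ → Prop} [DecidablePred P] [DecidablePred Q]

open Classical in
/-- the Hecke operator at `2` -/
theorem GP_two {m b : ℕ} (H : Ok m b) (hP : ∀ a, P (2 * a) ↔ P a) (hQ : ∀ a, Q (2 * a) ↔ Q a)
    (x : ℤ) {n : ℕ} (hn : 0 < n) :
    GP P Q m b m (2 * x) n + GP P Q m b m x (2 * n) + GP P Q m b m (x + n) (2 * n) =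
      GP P Q m b (2 * m) x n := by
  have hm0 : 0 < m := H.pos
  have Fi := FF_fin (P := P) (Q := Q) n (2 * m) hn (by omega) x
  have e0 : ((2 * m : ℕ) : ℤ) = 2 * m := by push_cast; ring
  rw [e0] at Fi
  have tn : ∀ a : ℤ, 0 < a → (2 * a).toNat = 2 * a.toNat := fun a ha => by omega
  set W1 : ℤ × ℤ × ℤ × ℤ → ℤ := fun M => if (2 : ℤ) ∣ M.1 ∧ (2 : ℤ) ∣ M.2.1 then
    gb m b (fo (M.1 / 2, M.2.1 / 2, M.2.2.1, M.2.2.2)) else 0 with hW1
  set W2 : ℤ × ℤ × ℤ × ℤ → ℤ := fun M => if (2 : ℤ) ∣ M.2.2.1 ∧ (2 : ℤ) ∣ M.2.2.2 then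
    gb m b (fo (M.1, M.2.1, M.2.2.1 / 2, M.2.2.2 / 2)) else 0 with hW2
  set W3 : ℤ × ℤ × ℤ × ℤ → ℤ := fun M => if (2 : ℤ) ∣ M.2.2.1 - M.1 ∧ (2 : ℤ) ∣ M.2.2.2 - M.2.1 then
    gb m b (fo (M.1, M.2.1, (M.2.2.1 - M.1) / 2, (M.2.2.2 - M.2.1) / 2)) else 0 with hW3
  have k1 : GP P Q m b m (2 * x) n = ∑ᶠ M ∈ FF P Q (2 * m) x n, W1 M := by
    unfold GP
    have h1 : ∑ᶠ t ∈ FF P Q m (2 * x) n, gb m b (fo t) =
        ∑ᶠ t ∈ FF P Q m (2 * x) n, W1 (f1 t) := by
      refine finsum_mem_congr rfl fun t _ => ?_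
      have h2 : (2 : ℤ) ∣ (f1 t).1 ∧ (2 : ℤ) ∣ (f1 t).2.1 := ⟨⟨t.1, rfl⟩, ⟨t.2.1, rfl⟩⟩
      simp only [hW1]
      rw [if_pos h2]
      have e1 : (f1 t).1 / 2 = t.1 := by show 2 * t.1 / 2 = t.1; omega
      have e2 : (f1 t).2.1 / 2 = t.2.1 := by show 2 * t.2.1 / 2 = t.2.1; omega
      rw [e1, e2]
      rfl
    rw [h1, ← finsum_mem_image f1_inj.injOn]
    apply finsum_mem_inter_support_eq
    ext M
    constructor
    · rintro ⟨h2, h3⟩
      refine ⟨?_, h3⟩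
      obtain ⟨⟨a, a', c, c'⟩, ⟨pa, pa', h5, hdt, pX, pY⟩, rfl⟩ := h2
      simp only at pa pa' h5 hdt pX pY
      refine ⟨?_, ?_, ?_, ?_, ?_, ?_⟩
      · show 0 < 2 * a
        linarith
      · show 0 < 2 * a'
        linarith
      · show P (2 * a).toNat ∧ Q (2 * a').toNat
        rw [tn a pa, tn a' pa', hP, hQ]
        exact h5
      · show 2 * a * c' - 2 * a' * c = 2 * m
        linarith
      · show 0 < -(2 * a * x + c * n)
        have k : -(a * (2 * x) + c * n) = -(2 * a * x + c * n) := by ring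
        rw [← k]; exact pX
      · show 0 < 2 * a' * x + c' * n
        have k : a' * (2 * x) + c' * n = 2 * a' * x + c' * n := by ring
        rw [← k]; exact pY
    · rintro ⟨h2, h3⟩
      refine ⟨?_, h3⟩
      have h4 : (2 : ℤ) ∣ M.1 ∧ (2 : ℤ) ∣ M.2.1 := by
        by_contra h
        exact h3 (if_neg h)
      obtain ⟨a, a', c, c'⟩ := M
      obtain ⟨pa, pa', h5, hdt, pX, pY⟩ := h2
      obtain ⟨⟨k, hk⟩, ⟨l, hl⟩⟩ := h4
      simp only at pa pa' h5 hdt pX pY hk hl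
      subst hk hl
      have pk : 0 < k := by omega
      have pl : 0 < l := by omega
      refine ⟨(k, l, c, c'), ⟨pk, pl, ?_, ?_, ?_, ?_⟩, rfl⟩
      · show P k.toNat ∧ Q l.toNat
        rw [tn k pk, tn l pl, hP, hQ] at h5
        exact h5
      · show k * c' - l * c = m
        have : 2 * (k * c' - l * c) = 2 * m := by linarith
        linarith
      · show 0 < -(k * (2 * x) + c * n)
        have e : -(k * (2 * x) + c * n) = -(2 * k * x + c * n) := by ring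
        rw [e]; exact pX
      · show 0 < l * (2 * x) + c' * n
        have e : l * (2 * x) + c' * n = 2 * l * x + c' * n := by ring
        rw [e]; exact pY
  have k2 : GP P Q m b m x (2 * n) = ∑ᶠ M ∈ FF P Q (2 * m) x n, W2 M := by
    unfold GP
    have h1 : ∑ᶠ t ∈ FF P Q m x (2 * n), gb m b (fo t) =
        ∑ᶠ t ∈ FF P Q m x (2 * n), W2 (f2 t) := by
      refine finsum_mem_congr rfl fun t _ => ?_
      have h2 : (2 : ℤ) ∣ (f2 t).2.2.1 ∧ (2 : ℤ) ∣ (f2 t).2.2.2 := ⟨⟨t.2.2.1, rfl⟩, ⟨t.2.2.2, rfl⟩⟩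
      simp only [hW2]
      rw [if_pos h2]
      have e1 : (f2 t).2.2.1 / 2 = t.2.2.1 := by show 2 * t.2.2.1 / 2 = t.2.2.1; omega
      have e2 : (f2 t).2.2.2 / 2 = t.2.2.2 := by show 2 * t.2.2.2 / 2 = t.2.2.2; omega
      rw [e1, e2]
      rfl
    rw [h1, ← finsum_mem_image f2_inj.injOn]
    apply finsum_mem_inter_support_eq
    ext M
    constructor
    · rintro ⟨h2, h3⟩
      refine ⟨?_, h3⟩
      obtain ⟨⟨a, a', c, c'⟩, ⟨pa, pa', h5, hdt, pX, pY⟩, rfl⟩ := h2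
      simp only at pa pa' h5 hdt pX pY
      refine ⟨pa, pa', h5, ?_, ?_, ?_⟩
      · show a * (2 * c') - a' * (2 * c) = 2 * m
        linarith
      · show 0 < -(a * x + 2 * c * n)
        have k : -(a * x + c * (2 * n)) = -(a * x + 2 * c * n) := by ring
        rw [← k]; exact pX
      · show 0 < a' * x + 2 * c' * n
        have k : a' * x + c' * (2 * n) = a' * x + 2 * c' * n := by ring
        rw [← k]; exact pY
    · rintro ⟨h2, h3⟩
      refine ⟨?_, h3⟩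
      have h4 : (2 : ℤ) ∣ M.2.2.1 ∧ (2 : ℤ) ∣ M.2.2.2 := by
        by_contra h
        exact h3 (if_neg h)
      obtain ⟨a, a', c, c'⟩ := M
      obtain ⟨pa, pa', h5, hdt, pX, pY⟩ := h2
      obtain ⟨⟨k, hk⟩, ⟨l, hl⟩⟩ := h4
      simp only at pa pa' h5 hdt pX pY hk hl
      subst hk hl
      refine ⟨(a, a', k, l), ⟨pa, pa', h5, ?_, ?_, ?_⟩, rfl⟩
      · show a * l - a' * k = m
        have : 2 * (a * l - a' * k) = 2 * m := by linarith
        linarith
      · show 0 < -(a * x + k * (2 * n))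
        have e : -(a * x + k * (2 * n)) = -(a * x + 2 * k * n) := by ring
        rw [e]; exact pX
      · show 0 < a' * x + l * (2 * n)
        have e : a' * x + l * (2 * n) = a' * x + 2 * l * n := by ring
        rw [e]; exact pY
  have k3 : GP P Q m b m (x + n) (2 * n) = ∑ᶠ M ∈ FF P Q (2 * m) x n, W3 M := by
    unfold GP
    have h1 : ∑ᶠ t ∈ FF P Q m (x + n) (2 * n), gb m b (fo t) =
        ∑ᶠ t ∈ FF P Q m (x + n) (2 * n), W3 (f3 t) := by
      refine finsum_mem_congr rfl fun t _ => ?_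
      have h2 : (2 : ℤ) ∣ (f3 t).2.2.1 - (f3 t).1 ∧ (2 : ℤ) ∣ (f3 t).2.2.2 - (f3 t).2.1 :=
        ⟨⟨t.2.2.1, by show t.1 + 2 * t.2.2.1 - t.1 = _; ring⟩,
          ⟨t.2.2.2, by show t.2.1 + 2 * t.2.2.2 - t.2.1 = _; ring⟩⟩
      simp only [hW3]
      rw [if_pos h2]
      have e1 : ((f3 t).2.2.1 - (f3 t).1) / 2 = t.2.2.1 := by
        show (t.1 + 2 * t.2.2.1 - t.1) / 2 = t.2.2.1
        omega
      have e2 : ((f3 t).2.2.2 - (f3 t).2.1) / 2 = t.2.2.2 := by
        show (t.2.1 + 2 * t.2.2.2 - t.2.1) / 2 = t.2.2.2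
        omega
      rw [e1, e2]
      rfl
    rw [h1, ← finsum_mem_image f3_inj.injOn]
    apply finsum_mem_inter_support_eq
    ext M
    constructor
    · rintro ⟨h2, h3⟩
      refine ⟨?_, h3⟩
      obtain ⟨⟨a, a', c, c'⟩, ⟨pa, pa', h5, hdt, pX, pY⟩, rfl⟩ := h2
      simp only at pa pa' h5 hdt pX pY
      refine ⟨pa, pa', h5, ?_, ?_, ?_⟩
      · show a * (a' + 2 * c') - a' * (a + 2 * c) = 2 * m
        linarith
      · show 0 < -(a * x + (a + 2 * c) * n)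
        have k : -(a * (x + n) + c * (2 * n)) = -(a * x + (a + 2 * c) * n) := by ring
        rw [← k]; exact pX
      · show 0 < a' * x + (a' + 2 * c') * n
        have k : a' * (x + n) + c' * (2 * n) = a' * x + (a' + 2 * c') * n := by ring
        rw [← k]; exact pY
    · rintro ⟨h2, h3⟩
      refine ⟨?_, h3⟩
      have h4 : (2 : ℤ) ∣ M.2.2.1 - M.1 ∧ (2 : ℤ) ∣ M.2.2.2 - M.2.1 := by
        by_contra h
        exact h3 (if_neg h)
      obtain ⟨a, a', c, c'⟩ := M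
      obtain ⟨pa, pa', h5, hdt, pX, pY⟩ := h2
      obtain ⟨⟨k, hk⟩, ⟨l, hl⟩⟩ := h4
      simp only at pa pa' h5 hdt pX pY hk hl
      have ec : c = a + 2 * k := by linarith
      have ec' : c' = a' + 2 * l := by linarith
      subst ec ec'
      refine ⟨(a, a', k, l), ⟨pa, pa', h5, ?_, ?_, ?_⟩, rfl⟩
      · show a * l - a' * k = m
        have : 2 * (a * l - a' * k) = 2 * m := by linarith
        linarith
      · show 0 < -(a * (x + n) + k * (2 * n))
        have e : -(a * (x + n) + k * (2 * n)) = -(a * x + (a + 2 * k) * n) := by ring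
        rw [e]; exact pX
      · show 0 < a' * (x + n) + l * (2 * n)
        have e : a' * (x + n) + l * (2 * n) = a' * x + (a' + 2 * l) * n := by ring
        rw [e]; exact pY
  rw [k1, k2, k3, ← finsum_mem_add_distrib Fi, ← finsum_mem_add_distrib Fi]
  unfold GP
  refine finsum_mem_congr rfl fun M hM => ?_
  exact two_pt H hM.2.2.2.1

/-! ### the sums over the cusps -/

theorem sq_not_dvd' {A d : ℕ} (hA : Fd A) (hdA : Nat.Coprime d A) :
    ∀ p ∈ A.primeFactors.erase 2, ¬ p ^ 2 ∣ d * A := by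
  intro p hp h
  rw [Finset.mem_erase] at hp
  have hpp := Nat.prime_of_mem_primeFactors hp.2
  have hpA := Nat.dvd_of_mem_primeFactors hp.2
  have hpl : Nat.Coprime (p ^ 2) d :=
    Nat.Coprime.pow_left 2 (Nat.Coprime.coprime_dvd_left hpA hdA.symm)
  have h1 := hpl.dvd_of_dvd_mul_left h
  rcases hA.2 with ⟨hsq, -⟩ | ⟨M, rfl, hM, -⟩
  · rw [pow_two] at h1
    exact hpp.one_lt.ne' (Nat.isUnit_iff.1 (hsq p h1))
  · have h9 : Nat.Coprime (p ^ 2) 4 := by
      have h10 : Nat.Coprime p 2 := (Nat.coprime_primes hpp Nat.prime_two).2 hp.1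
      exact Nat.Coprime.pow 2 2 h10
    have h12 := h9.dvd_of_dvd_mul_left h1
    rw [pow_two] at h12
    exact hpp.one_lt.ne' (Nat.isUnit_iff.1 (hM p h12))

/-- the character sum over the cusps of given data -/
theorem sum_cusp' {A d : ℕ} (hA : A = 1 ∨ Fd A) (hdA : Nat.Coprime d A) (a a' X Y : ℕ)
    (hdet : a * Y + a' * X = d * A) :
    ∑ u ∈ (un A).filter (fun u : ℕ => (A : ℤ) ∣ (a : ℤ) * (u : ℤ) + (X : ℤ) ∧
      (A : ℤ) ∣ (a' : ℤ) * (u : ℤ) - (Y : ℤ)), chP A u = wc A a a' Y X := by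
  rcases hA with rfl | hA
  · have h1 : (un 1).filter (fun u : ℕ => ((1 : ℕ) : ℤ) ∣ (a : ℤ) * (u : ℤ) + (X : ℤ) ∧
        ((1 : ℕ) : ℤ) ∣ (a' : ℤ) * (u : ℤ) - (Y : ℤ)) = {0} := by
      ext u
      simp [un, Finset.mem_filter]
    rw [h1, Finset.sum_singleton]
    unfold chP wc
    simp
  · exact sum_cusp hA (Dvd.intro_left d rfl) (sq_not_dvd' hA hdA) a a' X Y hdet

theorem pos_of_fd {A : ℕ} (hA : A = 1 ∨ Fd A) : 0 < A := by
  rcases hA with rfl | hA
  · norm_num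
  · have := hA.1
    omega

/-- the sum over the data -/
theorem sum_data {A m b d : ℕ} (hA : A = 1 ∨ Fd A) (H : Ok m b) (hmd : m ∣ d) (hd : 0 < d)
    (hdA : Nat.Coprime d A) :
    ∑ u ∈ un A, chP A u * GP P Q m b d u A = ∑ T ∈ range (d * A),
      ∑ a ∈ (d * A - T).divisors.filter P, ∑ a' ∈ T.divisors.filter Q,
        pw m b a a' ((d * A - T) / a) (T / a') * wc A a a' ((d * A - T) / a) (T / a') := by
  have hA0 : 0 < A := pos_of_fd hA
  have hmA : Nat.Coprime m A := Nat.Coprime.coprime_dvd_left hmd hdA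
  have h1 : ∀ u ∈ un A, chP A u * GP P Q m b d u A =
      ∑ w ∈ Om P Q (d * A), (if Cd A (d * A) u w then
        pw m b w.2.1 w.2.2 ((d * A - w.1) / w.2.1) (w.1 / w.2.2) * chP A u else 0) := by
    intro u _
    rw [GP_data H hmd hd hA0 hmA, Finset.mul_sum, Finset.sum_filter]
    refine Finset.sum_congr rfl fun w _ => ?_
    split_ifs <;> ring
  rw [Finset.sum_congr rfl h1, Finset.sum_comm]
  have h2 : ∀ w ∈ Om P Q (d * A), ∑ u ∈ un A, (if Cd A (d * A) u w then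
        pw m b w.2.1 w.2.2 ((d * A - w.1) / w.2.1) (w.1 / w.2.2) * chP A u else 0) =
      pw m b w.2.1 w.2.2 ((d * A - w.1) / w.2.1) (w.1 / w.2.2) *
        wc A w.2.1 w.2.2 ((d * A - w.1) / w.2.1) (w.1 / w.2.2) := by
    rintro ⟨T, a, a'⟩ hw
    have hw' := hw
    unfold Om at hw'
    simp only [Finset.mem_sigma, Finset.mem_filter, Finset.mem_range, Finset.mem_product,
      Nat.mem_divisors] at hw'
    obtain ⟨hT, ⟨⟨h3, h4⟩, hPa⟩, ⟨h5, h6⟩, h7⟩ := hw'
    have hdet : a * ((d * A - T) / a) + a' * (T / a') = d * A := by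
      rw [Nat.mul_div_cancel' h3, Nat.mul_div_cancel' h5]
      omega
    have key := sum_cusp' hA hdA a a' (T / a') ((d * A - T) / a) hdet
    simp only
    rw [← key, Finset.sum_filter, Finset.mul_sum]
    refine Finset.sum_congr rfl fun u _ => ?_
    by_cases hC : Cd A (d * A) u ⟨T, (a, a')⟩
    · rw [if_pos hC]
      congr 1
      exact (if_pos hC).symm
    · rw [if_neg hC]
      have h0 : (if (A : ℤ) ∣ (a : ℤ) * (u : ℤ) + ((T / a' : ℕ) : ℤ) ∧
          (A : ℤ) ∣ (a' : ℤ) * (u : ℤ) - (((d * A - T) / a : ℕ) : ℤ) then chP A u else 0) = 0 :=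
        if_neg hC
      rw [h0, mul_zero]
  rw [Finset.sum_congr rfl h2]
  unfold Om
  rw [Finset.sum_sigma]
  refine Finset.sum_congr rfl fun T _ => ?_
  rw [Finset.sum_product]

theorem sum_neg {A m b : ℕ} {d : ℤ} (hA : A = 1 ∨ Fd A) (H : Ok m b) (hmd : (m : ℤ) ∣ d) :
    ∑ u ∈ un A, chP A u * GP P Q m b d (-(u : ℤ)) A = ∑ u ∈ un A, chP A u * GP P Q m b d u A := by
  rcases hA with rfl | hA
  · refine Finset.sum_congr rfl fun u hu => ?_
    have hu0 : u = 0 := by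
      unfold un at hu
      rw [Finset.mem_filter, Finset.mem_range] at hu
      omega
    rw [hu0]
    simp
  · have h1 := un_refl hA.1 (fun u => chP A u * GP P Q m b d (-u) A)
    rw [← h1]
    refine Finset.sum_congr rfl fun u _ => ?_
    rw [chP_neg hA]
    have e : -((A : ℤ) - u) = (u : ℤ) + A * (-1) := by ring
    rw [e, GP_shift H hmd]

/-! ### the forms -/

variable (P Q)

/-- a level condition is compatible with the conditions on the factors -/
structure Comp (m b : ℕ) (Lv : ℤ × ℤ × ℤ → Prop) : Prop where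
  fwd : ∀ {a a' : ℕ} {c c' : ℤ}, P a → Q a' → (a : ℤ) * c' - a' * c = m →
    Lv (fo ((a : ℤ), (a' : ℤ), c, c'))
  bwd : ∀ {a a' : ℕ} {c c' : ℤ}, Lv (fo ((a : ℤ), (a' : ℤ), c, c')) → (a : ℤ) * c' - a' * c = m →
    IsCoprime (a : ℤ) c → gb m b (fo ((a : ℤ), (a' : ℤ), c, c')) ≠ 0 → P a ∧ Q a'

variable {P Q}

/-- the forms of orientation `+` and the factorizations -/
theorem bijP {m b : ℕ} (hm0 : 0 < m) {Lv : ℤ × ℤ × ℤ → Prop}
    (H : Comp P Q m b Lv) (x n : ℤ) (hn : 0 < n) :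
    Set.BijOn fo (FF P Q m x n ∩ Function.support fun t => gb m b (fo t))
    (SA Lv m x n ∩ Function.support fun q => gb m b q) := by
  have hl0' : (0 : ℤ) < m := by exact_mod_cast hm0
  refine ⟨?_, ?_, ?_⟩
  · rintro ⟨a, a', c, c'⟩ ⟨⟨pa, pa', h5, hdt, pX, pY⟩, hs⟩
    simp only at pa pa' h5 hdt pX pY
    have hform : a * a' * x ^ 2 + (a * c' + a' * c) * x * n + c * c' * n ^ 2 < 0 := by
      have e : a * a' * x ^ 2 + (a * c' + a' * c) * x * n + c * c' * n ^ 2 =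
        -(-(a * x + c * n) * (a' * x + c' * n)) := by ring
      rw [e]
      have := mul_pos pX pY
      linarith
    refine ⟨⟨?_, ?_, mul_pos pa pa', hform⟩, hs⟩
    · show (a * c' + a' * c) ^ 2 - 4 * (a * a') * (c * c') = (m : ℤ) ^ 2
      linear_combination (a * c' - a' * c + m) * hdt
    · lift a to ℕ using pa.le with a
      lift a' to ℕ using pa'.le with a'
      rw [Int.toNat_natCast, Int.toNat_natCast] at h5
      exact H.fwd h5.1 h5.2 hdt
  · rintro ⟨a, a', c, c'⟩ ⟨⟨pa, pa', h5, hdt, pX, pY⟩, hs⟩ ⟨a1, a1', c1, c1'⟩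
      ⟨⟨pa1, pa1', h51, hdt1, pX1, pY1⟩, hs1⟩ e
    simp only at pa pa' h5 hdt pX pY pa1 pa1' h51 hdt1 pX1 pY1
    have hc : IsCoprime a c := cop_of_gb hm0 hdt hs
    have hc1 : IsCoprime a1 c1 := cop_of_gb hm0 hdt1 hs1
    simp only [fo, Prod.mk.injEq] at e
    obtain ⟨e1, e2, e3⟩ := e
    obtain ⟨k1, k2, k3, k4⟩ := inj_gen pa' pa1' hc hc1 hdt hdt1 pa e1 e2
    rw [k1, k2, k3, k4]
  · rintro ⟨a0, B, C⟩ ⟨⟨hd, hLv, ha0, hN⟩, hs⟩
    simp only at hd ha0 hN
    have hpar : (2 : ℤ) ∣ B - m := by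
      have h1 : (2 : ℤ) ∣ (B - m) * (B + m) := ⟨2 * (a0 * C), by linear_combination hd⟩
      rcases Int.prime_two.dvd_or_dvd h1 with h2 | h2
      · exact h2
      · have e : B - m = B + m - 2 * m := by ring
        rw [e]
        exact dvd_sub h2 ⟨m, rfl⟩
    obtain ⟨γ, hγ⟩ := hpar
    have hB : B = 2 * γ + m := by linarith
    subst hB
    have hAC : a0 * C = γ * (γ + m) := by linarith
    obtain ⟨a, a', c, c', pa, pa', ha, hc, hc', hC, hcop⟩ := exists_fac ha0 hAC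
    have hdt : a * c' - a' * c = m := by rw [← hc', ← hc]; ring
    have hs' : 0 < -(a * x + c * n) ∧ 0 < a' * x + c' * n := by
      refine sign_of pa pa' hl0' hn hdt ?_
      have e : a * a' * x ^ 2 + (a * c' + a' * c) * x * n + c * c' * n ^ 2 =
        a0 * x ^ 2 + (2 * γ + m) * x * n + C * n ^ 2 := by
        rw [ha, hC, ← hc', ← hc]
        ring
      rw [e]
      exact hN
    have hfo : fo (a, a', c, c') = (a0, 2 * γ + m, C) := by
      simp only [fo, Prod.mk.injEq]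
      exact ⟨ha.symm, by rw [← hc', ← hc]; ring, hC.symm⟩
    have hPQ : P a.toNat ∧ Q a'.toNat := by
      lift a to ℕ using pa.le with a
      lift a' to ℕ using pa'.le with a'
      rw [Int.toNat_natCast, Int.toNat_natCast]
      refine H.bwd ?_ hdt hcop ?_
      · rw [hfo]
        exact hLv
      · rw [hfo]
        exact hs
    refine ⟨(a, a', c, c'), ⟨⟨pa, pa', hPQ, hdt, hs'.1, hs'.2⟩, ?_⟩, hfo⟩
    rw [Function.mem_support, hfo]
    exact hs

theorem GP_plus {m b : ℕ} (hm0 : 0 < m) {Lv : ℤ × ℤ × ℤ → Prop} (H : Comp P Q m b Lv) (x n : ℤ)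
    (hn : 0 < n) : ∑ᶠ q ∈ SA Lv m x n, gb m b q = GP P Q m b m x n := by
  unfold GP
  rw [← finsum_mem_inter_support, ← finsum_mem_inter_support (fun t => gb m b (fo t))
    (FF P Q m x n)]
  exact (finsum_mem_eq_of_bijOn fo (bijP hm0 H x n hn) fun t _ => rfl).symm

open Classical in
/-- the counting function without orientations -/
theorem F_eq1 {m b : ℕ} (hm0 : 0 < m) {Lv : ℤ × ℤ × ℤ → Prop} (H : Comp P Q m b Lv) (x n : ℤ)
    (hn : 0 < n) : (∑ᶠ f : ℤ × ℤ × ℤ, if f.2.1 ^ 2 - 4 * f.1 * f.2.2 = (m : ℤ) ^ 2 ∧ Lv f ∧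
      0 < f.1 ∧ f.1 * x ^ 2 + f.2.1 * x * n + f.2.2 * n ^ 2 < 0 then gb m b f else 0) =
      GP P Q m b m x n := by
  rw [← GP_plus hm0 H x n hn]
  refine finsum_congr fun q => ?_
  rw [finsum_eq_if]
  by_cases h : q ∈ SA Lv m x n
  · rw [if_pos h]
    exact if_pos h
  · rw [if_neg h]
    exact if_neg h

open Classical in
/-- the counting function by orientation -/
theorem F_eq {m b : ℕ} (hm0 : 0 < m) {Lv : ℤ × ℤ × ℤ → Prop} (H : Comp P Q m b Lv)
    {Lw : ℤ × ℤ × ℤ → Prop}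
    (hor : ∀ f : ℤ × ℤ × ℤ, f.2.1 ^ 2 - 4 * f.1 * f.2.2 = (m : ℤ) ^ 2 →
      (Lw f ↔ Lv f ∨ Lv (f.1, -f.2.1, f.2.2)))
    (hdis : ∀ f : ℤ × ℤ × ℤ, Lv f → ¬ Lv (f.1, -f.2.1, f.2.2)) (x n : ℤ) (hn : 0 < n) :
    (∑ᶠ f : ℤ × ℤ × ℤ, if f.2.1 ^ 2 - 4 * f.1 * f.2.2 = (m : ℤ) ^ 2 ∧ Lw f ∧ 0 < f.1 ∧
      f.1 * x ^ 2 + f.2.1 * x * n + f.2.2 * n ^ 2 < 0 then gb m b f else 0) =
      GP P Q m b m x n + GP P Q m b m (-x) n := by
  have e1 : (∑ᶠ f : ℤ × ℤ × ℤ, if f.2.1 ^ 2 - 4 * f.1 * f.2.2 = (m : ℤ) ^ 2 ∧ Lw f ∧ 0 < f.1 ∧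
      f.1 * x ^ 2 + f.2.1 * x * n + f.2.2 * n ^ 2 < 0 then gb m b f else 0) =
      ∑ᶠ f ∈ SA Lw m x n, gb m b f := by
    refine finsum_congr fun q => ?_
    rw [finsum_eq_if]
    by_cases h : q ∈ SA Lw m x n
    · rw [if_pos h]
      exact if_pos h
    · rw [if_neg h]
      exact if_neg h
  have e2 : SA Lw m x n = SA Lv m x n ∪ SA (fun f => Lv (f.1, -f.2.1, f.2.2)) m x n := by
    ext f
    constructor
    · rintro ⟨h1, h2, h3⟩
      rcases (hor f h1).1 h2 with h4 | h4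
      · exact Or.inl ⟨h1, h4, h3⟩
      · exact Or.inr ⟨h1, h4, h3⟩
    · rintro (⟨h1, h2, h3⟩ | ⟨h1, h2, h3⟩)
      · exact ⟨h1, (hor f h1).2 (Or.inl h2), h3⟩
      · exact ⟨h1, (hor f h1).2 (Or.inr h2), h3⟩
  have hd : Disjoint (SA Lv m x n) (SA (fun f => Lv (f.1, -f.2.1, f.2.2)) m x n) := by
    rw [Set.disjoint_left]
    rintro f ⟨-, h1, -⟩ ⟨-, h2, -⟩
    exact hdis f h1 h2
  rw [e1, e2, finsum_mem_union hd (SA_fin _ m x n hn) (SA_fin _ m x n hn), GP_plus hm0 H x n hn,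
    ← GP_plus hm0 H (-x) n hn, ← finsum_mem_eq_of_bijOn _ (flip_bij Lv m x n)
      (f := fun q => gb m b q) (fun q _ => rfl)]

/-- the character sum of a counting function with two orientations -/
theorem main {A m b : ℕ} (hA : A = 1 ∨ Fd A) (H : Ok m b) (hmA : Nat.Coprime m A)
    {F : ℤ → ℤ → ℤ} (hF : ∀ x n : ℤ, 0 < n → F x n = GP P Q m b m x n + GP P Q m b m (-x) n) :
    ∑ u ∈ un A, chP A u * F u A = 2 * ∑ T ∈ range (m * A),
      ∑ a ∈ (m * A - T).divisors.filter P, ∑ a' ∈ T.divisors.filter Q,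
        pw m b a a' ((m * A - T) / a) (T / a') * wc A a a' ((m * A - T) / a) (T / a') := by
  have hA0 : (0 : ℤ) < A := by exact_mod_cast pos_of_fd hA
  have e1 : ∑ u ∈ un A, chP A u * F u A = ∑ u ∈ un A, chP A u * GP P Q m b m u A +
      ∑ u ∈ un A, chP A u * GP P Q m b m (-(u : ℤ)) A := by
    rw [← Finset.sum_add_distrib]
    refine Finset.sum_congr rfl fun u _ => ?_
    rw [hF _ _ hA0]
    ring
  rw [e1, sum_neg hA H (dvd_refl _), sum_data hA H (dvd_refl m) H.pos hmA]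
  ring

/-- the character sum of a counting function without orientations -/
theorem main1 {A m b : ℕ} (hA : A = 1 ∨ Fd A) (H : Ok m b) (hmA : Nat.Coprime m A)
    {F : ℤ → ℤ → ℤ} (hF : ∀ x n : ℤ, 0 < n → F x n = GP P Q m b m x n) :
    ∑ u ∈ un A, chP A u * F u A = ∑ T ∈ range (m * A),
      ∑ a ∈ (m * A - T).divisors.filter P, ∑ a' ∈ T.divisors.filter Q,
        pw m b a a' ((m * A - T) / a) (T / a') * wc A a a' ((m * A - T) / a) (T / a') := by
  have hA0 : (0 : ℤ) < A := by exact_mod_cast pos_of_fd hA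
  rw [← sum_data hA H (dvd_refl m) H.pos hmA]
  refine Finset.sum_congr rfl fun u _ => ?_
  rw [hF _ _ hA0]

theorem un_one (f : ℕ → ℤ) : ∑ u ∈ un 1, f u = f 0 := by
  have h : un 1 = {0} := by
    ext u
    simp [un]
  rw [h, Finset.sum_singleton]

theorem chP_one (u : ℤ) : chP 1 u = 1 := by
  unfold chP
  simp

/-- the value at the cusp `0` for the determinant `2 m` -/
theorem two_zero {m b : ℕ} (H : Ok m b) (hP : ∀ a, P (2 * a) ↔ P a) (hQ : ∀ a, Q (2 * a) ↔ Q a) :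
    GP P Q m b m 0 1 + GP P Q m b m 0 2 + GP P Q m b m 1 2 = ∑ T ∈ range (2 * m),
      ∑ a ∈ (2 * m - T).divisors.filter P, ∑ a' ∈ T.divisors.filter Q,
        pw m b a a' ((2 * m - T) / a) (T / a') := by
  have h1 := GP_two (P := P) (Q := Q) H hP hQ 0 (n := 1) one_pos
  have h2 := sum_data (P := P) (Q := Q) (A := 1) (d := 2 * m) (Or.inl rfl) H
    (Dvd.intro_left 2 rfl) (by have := H.pos; omega) (Nat.coprime_one_right _)
  rw [un_one, chP_one, one_mul] at h2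
  have e1 : (2 : ℤ) * 0 = 0 := by norm_num
  have e2 : (2 : ℤ) * ((1 : ℕ) : ℤ) = 2 := by norm_num
  have e3 : (0 : ℤ) + ((1 : ℕ) : ℤ) = 1 := by norm_num
  have e4 : ((1 : ℕ) : ℤ) = 1 := by norm_num
  have e5 : ((2 * m : ℕ) : ℤ) = 2 * m := by push_cast; ring
  rw [e1, e2, e3, e4] at h1
  rw [e4, e5, Nat.cast_zero, mul_one] at h2
  rw [h1, h2]
  refine Finset.sum_congr rfl fun T _ => Finset.sum_congr rfl fun a _ =>
    Finset.sum_congr rfl fun a' _ => ?_
  have h3 : wc 1 a a' ((2 * m - T) / a) (T / a') = 1 := by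
    unfold wc
    simp
  rw [h3, mul_one]

end

end Pool.Agent.N974.P21G
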