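import Pool.Agent.N974.P21G.Wt
import Pool.Agent.N974.GN.DualW
import Pool.Agent.N877.P21G.Defs

/-!
# P21G: the genus character of the forms of discriminant `m²` is invariant; the parity
-/

set_option autoImplicit false

namespace Pool.Agent.N974.P21G

open Finset
open Pool.Agent.N969.P15 (un c2 Ev chE)
open Pool.Agent.N969.P17G (gen chM)
open Pool.Agent.N402.P15 (q2 c2_congr two_dvd_q2)
open Pool.Agent.N975.ChE (c2_mul c2_pm c2_even c2_one)
open Pool.Agent.N975.PG (gp gp_act gp_neg gp_val)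
open Pool.Agent.N975.Sym (ev act act_inv)
open Pool.Agent.N974.PG (sq_mod8)
open Pool.Agent.N877.P21G (Fn)

noncomputable section

/-! ### the genus character at `2` -/

/-- the genus character at `2` -/
def G2 (b : ℕ) (q : ℤ × ℤ × ℤ) : ℤ := if (2 : ℤ) ∣ q.1 then c2 b q.2.2 else c2 b q.1

theorem gb_eq (m b : ℕ) (q : ℤ × ℤ × ℤ) :
    gb m b q = (if 2 ∣ m then G2 b q else 1) * ∏ p ∈ m.primeFactors.erase 2, gp p q := rfl

theorem q2_cases (b : ℕ) : q2 b = 4 ∨ q2 b = 8 := by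
  unfold q2
  split_ifs
  · exact Or.inl rfl
  · exact Or.inr rfl

/-- the middle coefficient is even -/
theorem mid_even {m b : ℕ} (h : Rb m b) {q : ℤ × ℤ × ℤ}
    (hd : q.2.1 ^ 2 - 4 * q.1 * q.2.2 = (m : ℤ) ^ 2) : ∃ β, q.2.1 = 2 * β ∧
      ∃ k, β ^ 2 - q.1 * q.2.2 = 4 * k ^ 2 ∧ (q2 b = 8 → (2 : ℤ) ∣ k) := by
  have hm := h.four
  obtain ⟨M, hM⟩ : ∃ M : ℤ, (m : ℤ) = 4 * M := ⟨(m : ℤ) / 4, by omega⟩
  have h2 : (2 : ℤ) ∣ q.2.1 := by
    have h3 : (2 : ℤ) ∣ q.2.1 ^ 2 := ⟨2 * (q.1 * q.2.2) + 8 * M ^ 2, by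
      rw [hM] at hd
      linear_combination hd⟩
    exact Int.prime_two.dvd_of_dvd_pow h3
  obtain ⟨β, hb⟩ := h2
  refine ⟨β, hb, M, ?_, ?_⟩
  · rw [hb, hM] at hd
    have : 4 * (β ^ 2 - q.1 * q.2.2) = 4 * (4 * M ^ 2) := by linear_combination hd
    linarith
  · intro h8
    have h9 := h.q
    rw [h8, hM] at h9
    push_cast at h9
    omega

/-- the key computation -/
theorem c2_rel {b : ℕ} {al v X k y : ℤ} (e : al * v = X ^ 2 - 4 * k ^ 2 * y ^ 2)
    (hk : q2 b = 8 → (2 : ℤ) ∣ k) (ho : (al * v) % 2 = 1) : c2 b al = c2 b v := by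
  have hX : X % 2 = 1 := by
    rcases Int.emod_two_eq_zero_or_one X with h1 | h1
    · exfalso
      obtain ⟨t, ht⟩ : ∃ t, X = 2 * t := ⟨X / 2, by omega⟩
      have : al * v = 2 * (2 * t ^ 2 - 2 * k ^ 2 * y ^ 2) := by rw [e, ht]; ring
      omega
    · exact h1
  have h1 : c2 b (al * v) = 1 := by
    rw [← c2_one b]
    obtain ⟨s, hs⟩ := sq_mod8 hX
    apply c2_congr
    rcases q2_cases b with h2 | h2
    · rw [h2]
      refine ⟨2 * s - k ^ 2 * y ^ 2, ?_⟩
      rw [e]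
      push_cast
      linear_combination hs
    · rw [h2]
      obtain ⟨j, hj⟩ := hk h2
      refine ⟨s - 2 * j ^ 2 * y ^ 2, ?_⟩
      rw [e, hj]
      push_cast
      linear_combination hs
  rw [c2_mul] at h1
  have ha : al % 2 = 1 := by
    rcases Int.emod_two_eq_zero_or_one al with h3 | h3
    · rw [Int.mul_emod, h3] at ho
      norm_num at ho
    · exact h3
  have hv : v % 2 = 1 := by
    rcases Int.emod_two_eq_zero_or_one v with h3 | h3
    · rw [Int.mul_emod, h3] at ho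
      norm_num at ho
    · exact h3
  rcases c2_pm b ha with h3 | h3 <;> rcases c2_pm b hv with h4 | h4 <;> rw [h3, h4] at h1 ⊢ <;>
    omega

/-- an odd value gives the symbol -/
theorem G2_val {m b : ℕ} (h : Rb m b) {q : ℤ × ℤ × ℤ}
    (hd : q.2.1 ^ 2 - 4 * q.1 * q.2.2 = (m : ℤ) ^ 2) (x y : ℤ) (ho : ev q x y % 2 = 1) :
    c2 b (ev q x y) = G2 b q := by
  obtain ⟨β, hb, k, hk, h8⟩ := mid_even h hd
  obtain ⟨al, be, ga⟩ := q
  simp only at hb hk
  have hev : ev (al, be, ga) x y = al * x ^ 2 + 2 * β * x * y + ga * y ^ 2 := by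
    unfold ev
    simp only
    rw [hb]
  unfold G2
  simp only
  split_ifs with h2
  · -- `al` even
    have hga : ga % 2 = 1 := by
      rcases Int.emod_two_eq_zero_or_one ga with h3 | h3
      · exfalso
        obtain ⟨t, ht⟩ := h2
        obtain ⟨s, hs⟩ : ∃ s, ga = 2 * s := ⟨ga / 2, by omega⟩
        rw [hev, ht, hs] at ho
        have : 2 * t * x ^ 2 + 2 * β * x * y + 2 * s * y ^ 2 =
          2 * (t * x ^ 2 + β * x * y + s * y ^ 2) := by ring
        omega
      · exact h3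
    refine (c2_rel (al := ga) (v := ev (al, be, ga) x y) (X := ga * y + β * x) (k := k) (y := x)
      ?_ h8 ?_).symm
    · rw [hev]
      linear_combination x ^ 2 * -hk
    · rw [Int.mul_emod, hga, ho]
      norm_num
  · have hal : al % 2 = 1 := by omega
    refine (c2_rel (al := al) (v := ev (al, be, ga) x y) (X := al * x + β * y) (k := k) (y := y)
      ?_ h8 ?_).symm
    · rw [hev]
      linear_combination y ^ 2 * -hk
    · rw [Int.mul_emod, hal, ho]
      norm_num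

theorem act_disc {q : ℤ × ℤ × ℤ} {D a b c d : ℤ} (hd : q.2.1 ^ 2 - 4 * q.1 * q.2.2 = D)
    (hdet : a * d - b * c = 1) : (act a b c d q).2.1 ^ 2 -
      4 * (act a b c d q).1 * (act a b c d q).2.2 = D := by
  rw [← hd]
  unfold act
  simp only
  linear_combination ((q.2.1 ^ 2 - 4 * q.1 * q.2.2) * (a * d - b * c + 1)) * hdet

theorem G2_act {m b' : ℕ} (h : Rb m b') {q : ℤ × ℤ × ℤ}
    (hd : q.2.1 ^ 2 - 4 * q.1 * q.2.2 = (m : ℤ) ^ 2) {a b c d : ℤ} (hdet : a * d - b * c = 1) :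
    G2 b' (act a b c d q) = G2 b' q := by
  have e1 : (act a b c d q).1 = ev q a c := by unfold act ev; ring
  have e2 : (act a b c d q).2.2 = ev q b d := by unfold act ev; ring
  have hd' := act_disc hd hdet
  by_cases h1 : ev q a c % 2 = 1
  · rw [← G2_val h hd a c h1]
    unfold G2
    rw [e1, if_neg (by omega)]
  · by_cases h2 : ev q b d % 2 = 1
    · rw [← G2_val h hd b d h2]
      unfold G2
      rw [e1, if_pos (by omega), e2]
    · -- the form is even
      obtain ⟨t, ht, -⟩ := mid_even h hd'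
      have h4 : q = act d (-b) (-c) a (act a b c d q) := (act_inv hdet q).symm
      have k1 : (2 : ℤ) ∣ (act a b c d q).1 := by rw [e1]; omega
      have k2 : (2 : ℤ) ∣ (act a b c d q).2.2 := by rw [e2]; omega
      have k3 : (2 : ℤ) ∣ (act a b c d q).2.1 := ⟨t, ht⟩
      have h5 : (2 : ℤ) ∣ q.1 := by
        rw [h4]
        show (2 : ℤ) ∣ (act a b c d q).1 * d ^ 2 + (act a b c d q).2.1 * d * (-c) +
          (act a b c d q).2.2 * (-c) ^ 2
        exact dvd_add (dvd_add (dvd_mul_of_dvd_left k1 _)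
          (dvd_mul_of_dvd_left (dvd_mul_of_dvd_left k3 _) _)) (dvd_mul_of_dvd_left k2 _)
      have h6 : (2 : ℤ) ∣ q.2.2 := by
        rw [h4]
        show (2 : ℤ) ∣ (act a b c d q).1 * (-b) ^ 2 + (act a b c d q).2.1 * (-b) * a +
          (act a b c d q).2.2 * a ^ 2
        exact dvd_add (dvd_add (dvd_mul_of_dvd_left k1 _)
          (dvd_mul_of_dvd_left (dvd_mul_of_dvd_left k3 _) _)) (dvd_mul_of_dvd_left k2 _)
      unfold G2
      rw [if_pos h5, e1, if_pos (by omega), e2, c2_even b' (by omega), c2_even b' (by omega)]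

theorem G2_neg (b' : ℕ) (A B C B' : ℤ) : G2 b' (-A, B', -C) = c2 b' (-1) * G2 b' (A, B, C) := by
  unfold G2
  simp only [dvd_neg]
  split_ifs
  · rw [← c2_mul]
    congr 1
    ring
  · rw [← c2_mul]
    congr 1
    ring

/-! ### the weight -/

theorem gb_act {m b' : ℕ} (H : Ok m b') {q : ℤ × ℤ × ℤ}
    (hd : q.2.1 ^ 2 - 4 * q.1 * q.2.2 = (m : ℤ) ^ 2) {a b c d : ℤ} (hdet : a * d - b * c = 1) :
    gb m b' (act a b c d q) = gb m b' q := by
  have hprod : ∏ p ∈ m.primeFactors.erase 2, gp p (act a b c d q) =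
      ∏ p ∈ m.primeFactors.erase 2, gp p q := by
    refine Finset.prod_congr rfl fun p hp => ?_
    obtain ⟨hp2, hp⟩ := Finset.mem_erase.1 hp
    refine gp_act (Nat.prime_of_mem_primeFactors hp) hp2 ?_ hdet
    rw [hd]
    have : (p : ℤ) ∣ (m : ℤ) := by exact_mod_cast Nat.dvd_of_mem_primeFactors hp
    exact dvd_pow this two_ne_zero
  rw [gb_eq, gb_eq, hprod]
  by_cases h2 : 2 ∣ m
  · have hR : Rb m b' := by
      rcases H.or with h | h
      · omega
      · exact h
    rw [if_pos h2, if_pos h2, G2_act hR hd hdet]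
  · rw [if_neg h2, if_neg h2]

/-- the value of the character at `-1` -/
theorem gb_neg (m b' : ℕ) (A B C B' : ℤ) : gb m b' (-A, B', -C) =
    ((if 2 ∣ m then c2 b' (-1) else 1) * ∏ p ∈ m.primeFactors.erase 2, jacobiSym (-1) p) *
      gb m b' (A, B, C) := by
  have h2 : ∏ p ∈ m.primeFactors.erase 2, gp p (-A, B', -C) =
      (∏ p ∈ m.primeFactors.erase 2, jacobiSym (-1) p) *
        ∏ p ∈ m.primeFactors.erase 2, gp p (A, B, C) := by
    rw [← Finset.prod_mul_distrib]
    exact Finset.prod_congr rfl fun p _ => gp_neg p A B C B'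
  rw [gb_eq, gb_eq, h2, G2_neg b' A B C B']
  by_cases h : 2 ∣ m
  · rw [if_pos h, if_pos h, if_pos h]
    ring
  · rw [if_neg h, if_neg h, if_neg h]
    ring

theorem chM_neg_one {m : ℕ} (hm : Fn m) : chM m (-1) = -1 := by
  rcases hm with ⟨hsq, h4⟩ | h
  · have h2 : ¬ 2 ∣ m := by omega
    unfold chM
    rw [if_neg h2, one_mul,
      Finset.erase_eq_of_notMem (fun h => h2 (Nat.dvd_of_mem_primeFactors h)),
      Pool.Agent.N975.PG.jac_prod _ hsq, jacobiSym.at_neg_one (Nat.odd_iff.2 (by omega)),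
      ZMod.χ₄_nat_three_mod_four h4]
  · have h2 : 2 ∣ m := by
      obtain ⟨M, rfl, -⟩ := h
      exact ⟨2 * M, by ring⟩
    have e : chM m (-1) = chE m (-1) := by
      unfold chM chE
      rw [if_pos h2]
    have h3 := Pool.Agent.N973.P15.C.chE_odd h 1
    have h4 : chE m ((m : ℤ) - 1) = chE m (-1) :=
      Pool.Agent.N975.ChE.chE_mod (Pool.Agent.N975.ChE.ev_mod h) ⟨1, by ring⟩
    rw [e, ← h4, h3, Pool.Agent.N975.ChE.chE_one]

theorem gnM_neg {m : ℕ} (hm : Fn m) (a b c b' : ℤ) : gb m m (-a, b', -c) = -gb m m (a, b, c) := by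
  rw [gb_neg m m a b c b']
  have h := chM_neg_one hm
  unfold chM at h
  rw [h]
  ring

end

end Pool.Agent.N974.P21G
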