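import Pool.Agent.N974.P21G.Od
import Pool.Agent.N975.S21.All
import Pool.Agent.N971.PG.C1F
import Pool.Agent.N877.P21G.Ka

/-!
# P21G: the comparison of the odd symbols of `A`
-/

set_option autoImplicit false

namespace Pool.Agent.N974.P21G.Od

open Finset
open Pool.Agent.N969.RQ (Fd)
open Pool.Agent.N969.P17G (gnE chP chM)
open Pool.Agent.N969.P15 (un chE)
open Pool.Agent.N975.Sym (ev act act_inv ev_act ev10)
open Pool.Agent.N975.Ph (Phi Phi_cusp Phi_add Phi_al Phi_level Par MZ MZ_free oddHom parab gnE_act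
  gnE_refl gnE_neg gnE_inf gnE_zero gnE_al chr sum_Ico Chr disc_act chP_three)
open Pool.Agent.N974.GN (OddHom NZ X_coc0)
open Pool.Agent.N877.P21G (Ai As K0 K3 K21 Kn cn cM cB OM OB S_KAPi S_KAPs S_DIAGN)
open Pool.Agent.N877.P21 (cc Fp Cls0 Cls0e Cl3 Cl3e Cl21 Cl21e)
open Pool.Agent.N975.S21 (Sy kP X XP8 symb_eq goodP lam_eq)
open Pool.Agent.N975.RQ (al)

noncomputable section

variable {A : ℕ}

/-! ### sums of a character over a progression -/

theorem sum_shift {f : ℤ → ℤ} (hA : 0 < (A : ℤ)) (hf : ∀ x y : ℤ, (A : ℤ) ∣ x - y → f x = f y)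
    (e : ℤ) : ∑ j ∈ Ico (0 : ℤ) A, f (e + j) = ∑ j ∈ Ico (0 : ℤ) A, f j := by
  have key : ∀ x y z : ℤ, (A : ℤ) ∣ x - y → 0 ≤ y → y < A → x % A = y := by
    intro x y _ h h0 h1
    have h2 : x % A = y % A :=
      Int.emod_eq_emod_iff_emod_sub_eq_zero.2 (Int.emod_eq_zero_of_dvd h)
    rw [h2, Int.emod_eq_of_lt h0 h1]
  have hm : ∀ x : ℤ, (A : ℤ) ∣ x % A - x := fun x => ⟨-(x / A), by
    linear_combination Int.emod_add_mul_ediv x A⟩
  refine Finset.sum_bij' (fun j _ => (e + j) % A) (fun j _ => (j - e) % A) ?_ ?_ ?_ ?_ ?_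
  · intro j _
    rw [Finset.mem_Ico]
    exact ⟨Int.emod_nonneg _ hA.ne', Int.emod_lt_of_pos _ hA⟩
  · intro j _
    rw [Finset.mem_Ico]
    exact ⟨Int.emod_nonneg _ hA.ne', Int.emod_lt_of_pos _ hA⟩
  · intro j hj
    rw [Finset.mem_Ico] at hj
    refine key _ j 0 ?_ hj.1 hj.2
    have h1 := hm (e + j)
    have e1 : (e + j) % A - e - j = (e + j) % A - (e + j) := by ring
    rw [e1]
    exact h1
  · intro j hj
    rw [Finset.mem_Ico] at hj
    refine key _ j 0 ?_ hj.1 hj.2
    have h1 := hm (j - e)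
    have e1 : e + (j - e) % A - j = (j - e) % A - (j - e) := by ring
    rw [e1]
    exact h1
  · intro j _
    refine hf _ _ ?_
    have h1 := hm (e + j)
    have e1 : e + j - (e + j) % A = -((e + j) % A - (e + j)) := by ring
    rw [e1, dvd_neg]
    exact h1

theorem sum_lin {χ : ℤ → ℤ} (H : Chr A χ) {w : ℤ} (hw : IsCoprime w (A : ℤ)) (c : ℤ) :
    ∑ j ∈ Ico (0 : ℤ) A, χ (c + w * j) = 0 := by
  obtain ⟨u, v, huv⟩ := hw
  have e : ∀ j, χ (c + w * j) = χ w * χ (u * c + j) := by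
    intro j
    rw [← H.mul]
    refine H.per _ _ ⟨v * c, ?_⟩
    linear_combination -c * huv
  rw [Finset.sum_congr rfl fun j _ => e j, ← Finset.mul_sum, sum_shift H.z (fun x y => H.per x y),
    sum_Ico H, mul_zero]

/-! ### mean conditions -/

section mz

variable {P : ℤ × ℤ × ℤ → Prop} {p : ℤ}

theorem mz_inf (hA : Fd A) (hP : ∀ b C : ℤ, b = A ∨ b = -A → P (0, b, C)) :
    MZ A 1 1 0 0 1 (kw A P p) := by
  intro b hb
  refine ⟨0, fun C _ => one_dvd _, ?_⟩
  have e : ∀ j ∈ Ico (0 : ℤ) A, kw A P p (act 1 (-0) (-0) 1 (0, b, 0 + 1 * j)) =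
      (if p ∣ b - A then 1 else -1) * chP A j := by
    intro j _
    have e1 : act 1 (-0) (-0) 1 (0, b, 0 + 1 * j) = (0, b, j) := by
      unfold act
      simp only [Prod.mk.injEq]
      refine ⟨by ring, by ring, by ring⟩
    rw [e1, kw_pos (hP b j hb), gnE_inf hA]
  rw [Finset.sum_congr rfl e, ← Finset.mul_sum, sum_Ico (chr hA), mul_zero]

theorem mz_zero (hA : Fd A) {N : ℤ} (hN : IsCoprime N (A : ℤ))
    (hP : ∀ b C : ℤ, b = A ∨ b = -A → N ∣ C → P (C, b, 0))
    (hP' : ∀ b C : ℤ, P (C, b, 0) → N ∣ C) : MZ A N 0 (-1) 1 0 (kw A P p) := by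
  intro b hb
  have e1 : ∀ C, act 0 (- -1) (-1) 0 (0, b, C) = (C, -b, 0) := by
    intro C
    unfold act
    simp only [Prod.mk.injEq]
    refine ⟨by ring, by ring, by ring⟩
  refine ⟨0, fun C hC => ?_, ?_⟩
  · rw [e1] at hC
    rw [sub_zero]
    exact hP' _ _ (kw_ne hC)
  · have e : ∀ j ∈ Ico (0 : ℤ) A, kw A P p (act 0 (- -1) (-1) 0 (0, b, 0 + N * j)) =
        (if p ∣ -b - A then 1 else -1) * chP A (0 + N * j) := by
      intro j _
      rw [e1, kw_pos (hP (-b) _ (by rcases hb with rfl | rfl <;> simp) ⟨j, by ring⟩), gnE_zero hA]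
    rw [Finset.sum_congr rfl e, ← Finset.mul_sum, sum_lin (chr hA) hN, mul_zero]

end mz

theorem cop3 (h : Adm A) : IsCoprime (3 : ℤ) (A : ℤ) := Int.prime_three.coprime_iff_not_dvd.2 h.n3

theorem cop7 (h : Adm A) : IsCoprime (7 : ℤ) (A : ℤ) := p7z.coprime_iff_not_dvd.2 h.n7

theorem cop21 (h : Adm A) : IsCoprime (21 : ℤ) (A : ℤ) := by
  have e : (21 : ℤ) = 3 * 7 := by norm_num
  rw [e]
  exact IsCoprime.mul_left (cop3 h) (cop7 h)

/-! ### the mixed weight -/

theorem oddM (h : Adm A) : OddHom 21 (Phi 21 (kM A)) := by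
  refine oddHom h.z (wtM h) (parM h) (by norm_num) (MZ_free (by norm_num) ?_)
    (MZ_free (by norm_num) ?_)
  · intro q hq h0
    rw [ev10] at h0
    exact hq (ninfM h q h0)
  · intro q hq h0
    have e : ev q 0 1 = q.2.2 := by unfold ev; ring
    rw [e] at h0
    exact cM_ne h.n3 h.n7 (kw_ne hq) (by rw [h0, mul_zero])

theorem act13 (b C : ℤ) : act 1 (-0) (-3) 1 (0, b, C) = (9 * C - 3 * b, b - 6 * C, C) := by
  unfold act
  simp only [Prod.mk.injEq]
  refine ⟨by ring, by ring, by ring⟩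

theorem parM3 (h : Adm A) : Phi 21 (kM A) (-20) 7 (-3) 22 = 0 := by
  have hm : MZ A 7 1 0 3 1 (kM A) := by
    intro b hb
    have n7 := h.n7
    have n3 := h.n3
    refine ⟨5 * b, fun C hC => ?_, ?_⟩
    · rw [act13] at hC
      have h1 := (kw_ne hC).2.1
      simp only at h1
      omega
    · have e : ∀ j ∈ Ico (0 : ℤ) A, kM A (act 1 (-0) (-3) 1 (0, b, 5 * b + 7 * j)) =
          (if (3 : ℤ) ∣ b - A then 1 else -1) * chP A (5 * b + 7 * j) := by
        intro j _
        have hc : cM A (act 1 (-0) (-3) 1 (0, b, 5 * b + 7 * j)) := by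
          refine ⟨?_, ?_, ?_⟩
          · have h1 := disc_act (a := 1) (b := -0) (c := -3) (d := 1) (by norm_num)
              (0, b, 5 * b + 7 * j)
            rw [h1]
            simp only
            rcases hb with hb | hb
            · rw [hb]
              ring
            · rw [hb]
              ring
          · rw [act13]
            show (21 : ℤ) ∣ 9 * (5 * b + 7 * j) - 3 * b
            omega
          · rw [act13]
            show ((3 : ℤ) ∣ b - 6 * (5 * b + 7 * j) - A ∧ (7 : ℤ) ∣ b - 6 * (5 * b + 7 * j) + A) ∨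
              ((3 : ℤ) ∣ b - 6 * (5 * b + 7 * j) + A ∧ (7 : ℤ) ∣ b - 6 * (5 * b + 7 * j) - A)
            rcases hb with hb | hb
            · left
              omega
            · right
              omega
        unfold kM
        rw [kw_pos hc]
        have hg : gnE A (act 1 (-0) (-3) 1 (0, b, 5 * b + 7 * j)) =
            gnE A (0, b, 5 * b + 7 * j) := by
          refine gnE_act h.fd ?_ (by norm_num)
          simp only
          rcases hb with hb | hb
          · rw [hb]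
            ring
          · rw [hb]
            ring
        rw [hg, gnE_inf h.fd, act13]
        have e3 : (3 : ℤ) ∣ (9 * (5 * b + 7 * j) - 3 * b, b - 6 * (5 * b + 7 * j),
            5 * b + 7 * j).2.1 - (A : ℤ) ↔ (3 : ℤ) ∣ b - A := by
          show (3 : ℤ) ∣ b - 6 * (5 * b + 7 * j) - (A : ℤ) ↔ (3 : ℤ) ∣ b - A
          omega
        rw [if_congr e3 rfl rfl]
      rw [Finset.sum_congr rfl e, ← Finset.mul_sum, sum_lin (chr h.fd) (cop7 h), mul_zero]
  have h1 := parab h.z (wtM h) (x := 1) (x' := 0) (m := 3) (m' := 1) (w := 7) (n := 3)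
    (by norm_num) (by norm_num) (by norm_num) hm
  norm_num at h1
  exact h1

/-! ### the aligned weight -/

theorem freeS (h : Adm A) (q : ℤ × ℤ × ℤ) (hq : kS A q ≠ 0) : ev q 1 3 ≠ 0 := by
  intro h0
  obtain ⟨h1, ⟨t, h2⟩, h3⟩ := kw_ne hq
  have n7 := h.n7
  have n3 := h.n3
  obtain ⟨a, b, c⟩ := q
  simp only at h1 h2 h3
  unfold ev at h0
  simp only at h0
  have h4 : b = -7 * t - 3 * c := by linarith
  have h5 : (7 * t - 3 * c) ^ 2 = (A : ℤ) ^ 2 := by
    rw [← h1, h4, h2]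
    ring
  rcases sq_eq_sq_iff_eq_or_eq_neg.1 h5 with h6 | h6
  · rcases h3 with ⟨h7, h8⟩ | ⟨h7, h8⟩ <;> omega
  · rcases h3 with ⟨h7, h8⟩ | ⟨h7, h8⟩ <;> omega

theorem oddS (h : Adm A) : OddHom 21 (Phi 21 (kS A)) := by
  refine oddHom h.z (wtS h) (parS h) (by norm_num) (mz_inf h.fd ?_)
    (mz_zero h.fd (cop21 h) ?_ ?_)
  · rintro b C (hb | hb)
    · exact ⟨by simp only; rw [hb]; ring, dvd_zero _, Or.inl ⟨by simp only; omega, by simp only; omega⟩⟩
    · exact ⟨by simp only; rw [hb]; ring, dvd_zero _, Or.inr ⟨by simp only; omega, by simp only; omega⟩⟩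
  · rintro b C (hb | hb) hC
    · exact ⟨by simp only; rw [hb]; ring, hC, Or.inl ⟨by simp only; omega, by simp only; omega⟩⟩
    · exact ⟨by simp only; rw [hb]; ring, hC, Or.inr ⟨by simp only; omega, by simp only; omega⟩⟩
  · intro b C hC
    exact hC.2.1

theorem parS3 (h : Adm A) : Phi 21 (kS A) (-20) 7 (-3) 22 = 0 := by
  have h1 := parab h.z (wtS h) (x := 1) (x' := 0) (m := 3) (m' := 1) (w := 7) (n := 3)
    (by norm_num) (by norm_num) (by norm_num) (MZ_free (by norm_num) (freeS h))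
  norm_num at h1
  exact h1

/-! ### level `7` -/

theorem oddL (h : Adm A) : OddHom 7 (Phi 7 (kL A)) := by
  refine oddHom h.z (wtL h) (parL h) (by norm_num) (mz_inf h.fd ?_)
    (mz_zero h.fd (cop7 h) ?_ ?_)
  · rintro b C (hb | hb)
    · exact ⟨by simp only; rw [hb]; ring, dvd_zero _⟩
    · exact ⟨by simp only; rw [hb]; ring, dvd_zero _⟩
  · rintro b C (hb | hb) hC
    · exact ⟨by simp only; rw [hb]; ring, hC⟩
    · exact ⟨by simp only; rw [hb]; ring, hC⟩
  · intro b C hC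
    exact hC.2

theorem Phi_L (h : Adm A) {a b c d : ℤ} (hd : a * d - b * (21 * c) = 1) :
    Phi 21 (kL A) a b c d = 0 := by
  have h1 := Phi_level (N := 7) (k := kL A) (M := 3) a b c d
  have e : (7 : ℤ) * 3 = 21 := by norm_num
  rw [e] at h1
  rw [h1]
  exact (oddL h).zero7 a b (3 * c) d (by linear_combination hd)

theorem Phi_O (h : Adm A) {a b c d : ℤ} (hd : a * d - b * (21 * c) = 1) :
    Phi 21 (kO A) a b c d = Phi 21 (kM A) a b c d - Phi 21 (kS A) a b c d := by
  have h1 := Phi_add (wtO h) (wtS h) hd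
  have h2 := Phi_add (wtL21 h) (wtM h) hd
  have e : (fun q => kO A q + kS A q) = fun q => kL A q + kM A q := by
    funext q
    rw [kO_eq h q]
    ring
  rw [e, h2, Phi_L h hd, zero_add] at h1
  linarith

/-! ### the involution of level `3` -/

theorem kS_al (h : Adm A) (q : ℤ × ℤ × ℤ) (hq : (3 : ℤ) * 7 ∣ q.1) :
    kS A (al 3 7 1 1 (-1) (-2) q) = -chP A 3 * kM A q := by
  have e21 : (3 : ℤ) * 7 = 21 := by norm_num
  have hq3 : (3 : ℤ) ∣ q.1 := (Dvd.intro _ rfl).trans hq
  have hdet : (3 : ℤ) * 1 * (-2) - 7 * 1 * (-1) = 1 := by norm_num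
  have hdisc := N975.RQ.al_disc (Q := 3) (R := 7) (by norm_num) hdet hq3
  have hdvd := N975.RQ.al_dvd (Q := 3) (R := 7) (α := 1) (B := 1) (γ := -1) (δ := -2) hq
  have n7 := h.n7
  have n3 := h.n3
  rw [e21] at hdvd
  have hb : (al 3 7 1 1 (-1) (-2) q).2.1 = 2 * q.1 - 13 * q.2.1 + 84 * q.2.2 := by
    unfold al
    simp only
    ring
  have hq' : (21 : ℤ) ∣ q.1 := by rw [← e21]; exact hq
  by_cases hd : q.2.1 ^ 2 - 4 * q.1 * q.2.2 = (A : ℤ) ^ 2
  · have hg := gnE_al h.fd (Q := 3) (R := 7) (α := 1) (B := 1) (γ := -1) (δ := -2) (by norm_num)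
      hdet hq hd (cop3 h)
    unfold kS kM
    by_cases hM : cM A q
    · have hS : cS A (al 3 7 1 1 (-1) (-2) q) := by
        refine ⟨by rw [hdisc, hd], hdvd, ?_⟩
        rw [hb]
        rcases hM.2.2 with h1 | h1
        · right
          omega
        · left
          omega
      rw [kw_pos hS, kw_pos hM, hg, hb]
      rcases hM.2.2 with h1 | h1
      · rw [if_pos h1.1, if_neg (by omega)]
        ring
      · rw [if_pos (by omega), if_neg (by omega)]
        ring
    · have hS : ¬ cS A (al 3 7 1 1 (-1) (-2) q) := by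
        rintro ⟨-, -, h3⟩
        rw [hb] at h3
        apply hM
        refine ⟨hd, hq', ?_⟩
        rcases h3 with h1 | h1
        · right
          omega
        · left
          omega
      rw [kw_zero hS, kw_zero hM, mul_zero]
  · unfold kS kM
    rw [kw_zero (fun h1 : cS A (al 3 7 1 1 (-1) (-2) q) => hd (by rw [← hdisc]; exact h1.1)),
      kw_zero (fun h1 : cM A q => hd h1.1), mul_zero]

theorem chP3_sq (h : Adm A) : -chP A 3 * -chP A 3 = 1 := by
  rcases (chr h.fd).pm 3 (cop3 h) with h1 | h1 <;> rw [h1] <;> norm_num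

/-- the constants of the two weights of level `21` -/
theorem mu_eq (h : Adm A) : chP A 3 * Phi 21 (kS A) 8 3 1 8 = Phi 21 (kM A) 8 3 1 8 := by
  have e21 : (3 : ℤ) * 7 = 21 := by norm_num
  have h1 := Phi_al (Q := 3) (R := 7) (α := 1) (B := 1) (γ := -1) (δ := -2) (k := kM A)
    (k' := kS A) (D := (A : ℤ) ^ 2) (by norm_num) (by norm_num) (by rw [e21]; exact wtM h)
    (fun q hq => by rw [e21]; exact (kw_ne hq).2.1) (fun q hq => by rw [e21]; exact (kw_ne hq).2.1)
    (chP3_sq h) (kS_al h) (a := 8) (b := 3) (c := 1) (d := 8) (by norm_num)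
  norm_num at h1
  have h2 := w3_odd (oddM h) (parM3 h)
  rw [h2] at h1
  linarith

end

end Pool.Agent.N974.P21G.Od
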