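import Pool.Agent.N974.GN.OddH
import Pool.Agent.N975.S21.Cmp

/-!
# Odd homomorphisms: level `7`; the comparison with the weight `kP` of level `21`
-/

set_option autoImplicit false

namespace Pool.Agent.N974.GN

namespace OddHom

variable {R : Type*} [AddCommGroup R] [NoZeroSMulDivisors ℤ R] {φ : ℤ → ℤ → ℤ → ℤ → R}

/-! ### prime level: reduction to the generators with `c = 1` -/

theorem zero_of_prime {p : ℕ} (hp : p.Prime) (hp2 : 2 < p) (H : OddHom (p : ℤ) φ)
    (g1 : ∀ {A B D : ℤ}, A * D - (p : ℤ) * (B * 1) = 1 → φ A B 1 D = 0) (n : ℕ) :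
    ∀ a b c d : ℤ, a * d - (p : ℤ) * (b * c) = 1 → d.natAbs = n → φ a b c d = 0 := by
  obtain ⟨N, hN⟩ : ∃ N : ℤ, N = (p : ℤ) := ⟨_, rfl⟩
  have hpP : Prime (p : ℤ) := Nat.prime_iff_prime_int.1 hp
  rw [← hN] at H g1 ⊢
  have d_ne : ∀ {a b c d : ℤ}, a * d - N * (b * c) = 1 → d ≠ 0 := by
    rintro a b c d h rfl
    have h1 : (p : ℤ) ∣ 1 := ⟨-(b * c), by rw [hN] at h; linear_combination -h⟩
    exact hpP.not_isUnit (isUnit_of_dvd_one h1)
  induction n using Nat.strong_induction_on with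
  | _ n ih =>
    intro a b c d h hn
    have hd := d_ne h
    by_cases h1 : d = 1
    · subst h1
      exact H.base h
    by_cases h2 : d = -1
    · subst h2
      rw [← H.neg h]
      exact H.base (by linear_combination h)
    have hnd : ¬ d ∣ N * b := by
      rintro ⟨k, hk⟩
      have h3 : d ∣ 1 := ⟨a - k * c, by linear_combination -h - c * hk⟩
      rcases Int.isUnit_iff.1 (isUnit_of_dvd_one h3) with h4 | h4
      · exact h1 h4
      · exact h2 h4
    wlog hdp : 0 < d generalizing a b c d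
    · have h3 := this (-a) (-b) (-c) (-d) (by linear_combination h) (by rw [Int.natAbs_neg, hn])
        (by omega) (by omega) (by omega)
        (by
          intro h4
          apply hnd
          have h5 : N * -b = -(N * b) := by ring
          rw [h5, dvd_neg, neg_dvd] at h4
          exact h4) (by omega)
      rwa [H.neg h] at h3
    have hr0 := Int.emod_nonneg (N * b) hd
    have hr1 := Int.emod_lt_of_pos (N * b) hdp
    have hr2 : N * b % d ≠ 0 := fun h3 => hnd (Int.dvd_of_emod_eq_zero h3)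
    have hr3 := Int.emod_add_mul_ediv (N * b) d
    have s1 : ∀ D : ℤ, ¬ (p : ℤ) ∣ D → |N * b + D * d| < |d| → φ a b c d = 0 := by
      intro D h3 hlt
      have hcop : IsCoprime D N := by
        rw [hN, isCoprime_comm]
        exact hpP.coprime_iff_not_dvd.2 h3
      obtain ⟨u, v, huv⟩ := hcop
      have hAB : u * D - N * (-v * 1) = 1 := by linear_combination huv
      have h3 := H.hom (a := u) (b := -v) (c := 1) (d := D) (a' := a) (b' := b) (c' := c)
        (d' := d) hAB h
      rw [g1 hAB, zero_add] at h3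
      rw [← h3]
      refine ih _ ?_ _ _ _ _ ?_ rfl
      · rw [← hn]
        zify
        rw [mul_one]
        exact hlt
      · linear_combination h + (a * d - N * (b * c)) * hAB
    have hpz : (2 : ℤ) < p := by exact_mod_cast hp2
    obtain ⟨t, ht⟩ : ∃ t, t = N * b / d := ⟨_, rfl⟩
    rw [← ht] at hr3
    by_cases c1 : (p : ℤ) ∣ t
    · have c2 : ¬ (p : ℤ) ∣ t + 1 := by
        intro h4
        have h5 : (p : ℤ) ∣ 1 := by
          have := dvd_sub h4 c1
          rwa [add_sub_cancel_left] at this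
        have := Int.le_of_dvd one_pos h5
        omega
      refine s1 (-(t + 1)) (by rw [dvd_neg]; exact c2) ?_
      have e : N * b + -(t + 1) * d = N * b % d - d := by
        linear_combination -hr3
      rw [e, abs_of_pos hdp, abs_lt]
      constructor <;> omega
    · refine s1 (-t) (by rw [dvd_neg]; exact c1) ?_
      have e : N * b + -t * d = N * b % d := by
        linear_combination -hr3
      rw [e, abs_of_nonneg hr0, abs_of_pos hdp]
      exact hr1

/-- an odd homomorphism vanishes on the elements of order `3` -/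
theorem ord3 {N : ℤ} (H : OddHom N φ) {a b c d : ℤ} (h : a * d - N * (b * c) = 1)
    (ht : a + d = -1) : φ a b c d = 0 := by
  have h1 := H.hom h h
  have h2 := H.hom (a := a * a + b * (N * c)) (b := a * b + b * d) (c := c * a + d * c)
    (d := N * c * b + d * d) (a' := a) (b' := b) (c' := c) (d' := d)
    (by linear_combination (a * d - N * (b * c) + 1) * h) h
  have hd : d = -1 - a := by linarith
  subst hd
  have e1 : (a * a + b * (N * c)) * a + (a * b + b * (-1 - a)) * (N * c) = 1 := by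
    linear_combination (1 - a) * h
  have e2 : (a * a + b * (N * c)) * b + (a * b + b * (-1 - a)) * (-1 - a) = 0 := by
    linear_combination -b * h
  have e3 : (c * a + (-1 - a) * c) * a + (N * c * b + (-1 - a) * (-1 - a)) * c = 0 := by
    linear_combination -c * h
  have e4 : N * (c * a + (-1 - a) * c) * b + (N * c * b + (-1 - a) * (-1 - a)) * (-1 - a) = 1 := by
    linear_combination (a + 2) * h
  rw [e1, e2, e3, e4, H.one, h1] at h2
  have h3 : (3 : ℤ) • φ a b c (-1 - a) = 0 := by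
    rw [show (3 : ℤ) = 1 + 1 + 1 by norm_num, add_smul, add_smul, one_smul]
    exact h2.symm
  exact smul_zero' (by norm_num) h3

/-- there is no odd homomorphism of level `7` -/
theorem zero7 (H : OddHom 7 φ) : ∀ a b c d : ℤ, a * d - 7 * (b * c) = 1 → φ a b c d = 0 := by
  have gen1 : ∀ {A B D : ℤ}, A * D - 7 * (B * 1) = 1 → φ A B 1 D = 0 := by
    intro A B D h
    have key : ∀ {A0 B0 D0 : ℤ}, A0 * D0 - 7 * (B0 * 1) = 1 → φ A0 B0 1 D0 = 0 →
        ((7 : ℤ) ∣ D - D0 ∨ (7 : ℤ) ∣ D + D0) → φ A B 1 D = 0 := by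
      intro A0 B0 D0 h0 h1 h2
      rcases h2 with h2 | h2
      · rw [H.modD (by norm_num) h0 h (by rwa [mul_one]), h1]
      · have h3 := H.ref h0
        have h4 : (-A0) * (-D0) - 7 * (B0 * 1) = 1 := by linear_combination h0
        rw [H.modD (by norm_num) h4 h (by rwa [mul_one, sub_neg_eq_add]), h3, h1, neg_zero]
    have hD7 : ¬ (7 : ℤ) ∣ D := by
      rintro ⟨k, rfl⟩
      have h1 : (7 : ℤ) ∣ 1 := ⟨A * k - B, by linear_combination -h⟩
      norm_num at h1
    have hc : ((7 : ℤ) ∣ D - 1 ∨ (7 : ℤ) ∣ D + 1) ∨ ((7 : ℤ) ∣ D - 2 ∨ (7 : ℤ) ∣ D + 2) ∨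
        ((7 : ℤ) ∣ D - 4 ∨ (7 : ℤ) ∣ D + 4) := by omega
    rcases hc with hc | hc | hc
    · exact key (A0 := 1) (B0 := 0) (by norm_num) H.hV hc
    · exact key (A0 := -3) (B0 := -1) (D0 := 2) (by norm_num)
        (H.ord3 (by norm_num) (by norm_num)) hc
    · exact key (A0 := -5) (B0 := -3) (D0 := 4) (by norm_num)
        (H.ord3 (by norm_num) (by norm_num)) hc
  intro a b c d h
  exact zero_of_prime (p := 7) (by norm_num) (by norm_num) (φ := φ) (by exact_mod_cast H)
    (fun {A B D} h => gen1 (by exact_mod_cast h)) d.natAbs a b c d (by exact_mod_cast h) rfl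

end OddHom

end Pool.Agent.N974.GN

namespace Pool.Agent.N974.P21G

open Pool.Agent.N974.GN (OddHom)
open Pool.Agent.N975.S21 (X kP wtP XP_V XP_P X_hom X_neg_neg X_neg' X_inf XP8 XP_eq X_coc Z_zero NZ0
  X_zero)
open Pool.Agent.N877.P21 (Fp)

/-- the odd homomorphism of the weight `kP` -/
theorem oddP : OddHom 21 (fun a _ c _ : ℤ => X kP a (21 * c)) where
  hom := by
    intro a b c d a' b' c' d' h h'
    have h1 := X_hom wtP (a := a) (b := b) (c := c) (d := d) (a' := a') (b' := b') (c' := c')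
      (d' := d') (by linear_combination h) (by linear_combination h')
    have e2 : 21 * (c * a' + d * c') = 21 * c * a' + d * (21 * c') := by ring
    rw [e2, h1]
  neg := by
    intro a b c d _
    have e2 : (21 : ℤ) * -c = -(21 * c) := by ring
    rw [e2, X_neg_neg]
  odd := by
    intro a b c d _
    have e2 : (21 : ℤ) * -c = -(21 * c) := by ring
    rw [e2, X_neg' wtP]
  hT := by
    rw [mul_zero, X_inf]
  hV := by
    rw [mul_one]
    exact XP_V

/-- **comparison with the weight `kP`** -/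
theorem cmpP {φ : ℤ → ℤ → ℤ → ℤ → ℤ} (H : OddHom 21 φ) (hP : φ (-20) 7 (-3) 22 = 0)
    {a b c d : ℤ} (h : a * d - 21 * (b * c) = 1) :
    2 * φ a b c d = φ 8 3 1 8 * X kP a (21 * c) := by
  have K := oddP
  have E : OddHom 21 (fun a b c d : ℤ => 2 * φ a b c d - φ 8 3 1 8 * X kP a (21 * c)) := by
    refine ⟨?_, ?_, ?_, ?_, ?_⟩
    · intro a b c d a' b' c' d' h h'
      have h1 := H.hom h h'
      have h2 := K.hom h h'
      beta_reduce at h2 ⊢
      rw [h1, h2]
      ring
    · intro a b c d h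
      have h2 := K.neg h
      beta_reduce at h2 ⊢
      rw [H.neg h, h2]
    · intro a b c d h
      have h2 := K.odd h
      beta_reduce at h2 ⊢
      rw [H.odd h, h2]
      ring
    · have h2 := K.hT
      beta_reduce at h2 ⊢
      rw [H.hT, h2]
      ring
    · have h2 := K.hV
      beta_reduce at h2 ⊢
      rw [H.hV, h2]
      ring
  have h1 := E.zero21 (by
    have e2 : (21 : ℤ) * -3 = -63 := by norm_num
    rw [hP, e2, XP_P]
    ring) (by
    rw [mul_one, XP8]
    ring) a b c d h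
  exact sub_eq_zero.1 h1

/-- the value in the class of zero -/
theorem XP0 {a b c d : ℤ} (h : a * d - 21 * (b * c) = 1) : X kP a (21 * c) = 2 * Fp b d := by
  have h2 := X_coc wtP (a := a) (b := b) (c := c) (d := d) (by linear_combination h) 0 1
  rw [Z_zero NZ0, X_zero wtP] at h2
  have e1 : a * 0 + b * 1 = b := by ring
  have e2 : 21 * c * 0 + d * 1 = d := by ring
  rw [e1, e2, add_zero, sub_zero] at h2
  rw [← h2, XP_eq]

theorem cmp0 {φ : ℤ → ℤ → ℤ → ℤ → ℤ} (H : OddHom 21 φ) (hP : φ (-20) 7 (-3) 22 = 0)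
    {a b c d : ℤ} (h : a * d - 21 * (b * c) = 1) : φ a b c d = φ 8 3 1 8 * Fp b d := by
  have h1 := cmpP H hP h
  rw [XP0 h] at h1
  linarith

theorem bound13 {A B C : ℤ} (hd : B ^ 2 - 4 * A * C = 4) (hA : 0 < A)
    (hv : A * 2 ^ 2 + B * 2 * 13 + C * 13 ^ 2 < 0) :
    A ≤ 169 ∧ -26 < 4 * A + 13 * B ∧ 4 * A + 13 * B < 26 := by
  have h4 : A * Pool.Agent.N975.Sym.ev (A, B, C) 2 13 < 0 := mul_neg_of_pos_of_neg hA hv
  obtain ⟨h5, h6⟩ := Pool.Agent.N975.Sym.bound (q := (A, B, C)) hd h4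
  simp only at h5 h6
  rw [abs_of_pos hA] at h5
  rw [abs_lt] at h6
  norm_num at h5 h6
  refine ⟨by linarith, by linarith [h6.1], by linarith [h6.2]⟩

theorem Fp213 : Fp 2 13 = 1 := by
  classical
  unfold Fp
  have hs : Function.support (fun q : ℤ × ℤ × ℤ => if N877.P21.Fm q ∧ 0 < q.1 ∧
      q.1 * 2 ^ 2 + q.2.1 * 2 * 13 + q.2.2 * 13 ^ 2 < 0 then N877.P21.cQ q else 0) ⊆
      ((({(84, -26, 2)} : Finset (ℤ × ℤ × ℤ)) : Finset (ℤ × ℤ × ℤ)) : Set (ℤ × ℤ × ℤ)) := by
    rintro ⟨A, B, C⟩ hq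
    rw [Function.mem_support] at hq
    by_cases h : N877.P21.Fm (A, B, C) ∧ 0 < A ∧ A * 2 ^ 2 + B * 2 * 13 + C * 13 ^ 2 < 0
    · obtain ⟨⟨h1, ⟨A1, h2⟩, h4⟩, h5, h6⟩ := h
      simp only at h1 h2 h4
      obtain ⟨h7, h8, h9⟩ := bound13 h1 h5 h6
      obtain ⟨B1, rfl⟩ : ∃ B1, B = 2 * B1 := ⟨B / 2, by omega⟩
      subst h2
      have hA1 : 1 ≤ A1 ∧ A1 ≤ 8 := by omega
      obtain ⟨hA1, hA2⟩ := hA1
      obtain ⟨t, rfl⟩ : ∃ t, B1 = t - 3 * A1 := ⟨B1 + 3 * A1, by ring⟩
      have ht : -3 ≤ t ∧ t ≤ 1 := by omega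
      obtain ⟨ht1, ht2⟩ := ht
      simp only [Finset.coe_singleton, Set.mem_singleton_iff, Prod.mk.injEq]
      interval_cases A1 <;> interval_cases t <;> omega
    · exact absurd (if_neg h) hq
  rw [finsum_eq_sum_of_support_subset _ hs, Finset.sum_singleton]
  rw [if_pos ⟨⟨by norm_num, by norm_num, by norm_num⟩, by norm_num, by norm_num⟩]
  rfl

/-- the involution of level `3` -/
theorem w3_odd {φ : ℤ → ℤ → ℤ → ℤ → ℤ} (H : OddHom 21 φ) (hP : φ (-20) 7 (-3) 22 = 0) :
    φ 29 2 (-9) (-13) = -φ 8 3 1 8 := by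
  have h1 := H.ref (by norm_num : (29 : ℤ) * (-13) - 21 * (2 * (-9)) = 1)
  have h4 := cmp0 H hP (by norm_num : (-29 : ℤ) * 13 - 21 * (2 * (-9)) = 1)
  rw [neg_neg, h4, Fp213, mul_one] at h1
  linarith

end Pool.Agent.N974.P21G
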