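import Pool.Agent.N974.P21G.Cm
import Pool.Agent.N974.P21G.Odd7
import Pool.Agent.N975.Ph.GE

/-!
# P21G: the weights of the odd symbols of `A`
-/

set_option autoImplicit false

namespace Pool.Agent.N974.P21G.Od

open Finset
open Pool.Agent.N969.RQ (Fd)
open Pool.Agent.N969.P17G (gnE chP)
open Pool.Agent.N975.Sym (ev act act_inv ev_act ev10)
open Pool.Agent.N975.Ph (Phi Phi_cusp Phi_add Phi_al Phi_level Par MZ MZ_free oddHom parab gnE_act
  gnE_refl gnE_neg gnE_inf gnE_zero gnE_al chr sum_Ico Chr disc_act)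
open Pool.Agent.N974.GN (OddHom)
open Pool.Agent.N877.P21G (Ai As cM cB OM OB)

noncomputable section

variable {A : ℕ}

open Classical in
/-- the weight with a condition and the orientation at `p` as sign -/
def kw (A : ℕ) (P : ℤ × ℤ × ℤ → Prop) (p : ℤ) (q : ℤ × ℤ × ℤ) : ℤ :=
  if P q then (if p ∣ q.2.1 - A then 1 else -1) * gnE A q else 0

section gen

variable {P : ℤ × ℤ × ℤ → Prop} {p : ℤ}

theorem kw_pos {q : ℤ × ℤ × ℤ} (h : P q) :
    kw A P p q = (if p ∣ q.2.1 - A then 1 else -1) * gnE A q := by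
  unfold kw
  rw [if_pos h]

theorem kw_zero {q : ℤ × ℤ × ℤ} (h : ¬ P q) : kw A P p q = 0 := by
  unfold kw
  rw [if_neg h]

theorem kw_ne {q : ℤ × ℤ × ℤ} (h : kw A P p q ≠ 0) : P q := by
  by_contra h1
  exact h (kw_zero h1)

theorem act_b {a b c d : ℤ} (h : a * d - b * c = 1) (hc : p ∣ c) {q : ℤ × ℤ × ℤ} (hq : p ∣ q.1) :
    p ∣ (act a b c d q).2.1 - q.2.1 := by
  obtain ⟨s, hs⟩ := hc
  obtain ⟨t, ht⟩ := hq
  refine ⟨2 * t * a * b + 2 * q.2.1 * b * s + 2 * q.2.2 * s * d, ?_⟩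
  unfold act
  simp only
  rw [ht]
  rw [hs] at h ⊢
  linear_combination q.2.1 * h

theorem act_a {a b c d : ℤ} (hc : p ∣ c) {q : ℤ × ℤ × ℤ} (hq : p ∣ q.1) :
    p ∣ (act a b c d q).1 := by
  obtain ⟨s, hs⟩ := hc
  obtain ⟨t, ht⟩ := hq
  refine ⟨t * a ^ 2 + q.2.1 * a * s + q.2.2 * s * c, ?_⟩
  unfold act
  simp only
  rw [ht, hs]
  ring

theorem dvd_shift {x y k : ℤ} (h : p ∣ x - y) : p ∣ x - k ↔ p ∣ y - k := by
  constructor
  · intro h1
    have h2 := h1.sub h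
    have e : x - k - (x - y) = y - k := by ring
    rwa [e] at h2
  · intro h1
    have h2 := h1.add h
    have e : y - k + (x - y) = x - k := by ring
    rwa [e] at h2

theorem dvd_shift' {x y k : ℤ} (h : p ∣ x - y) : p ∣ x + k ↔ p ∣ y + k := by
  have h1 := dvd_shift (k := -k) h
  rwa [sub_neg_eq_add, sub_neg_eq_add] at h1

/-- the weights are invariant -/
theorem wt_kw (hA : Fd A) {N : ℤ} (hN : p ∣ N)
    (hd : ∀ q, P q → q.2.1 ^ 2 - 4 * q.1 * q.2.2 = (A : ℤ) ^ 2) (hp : ∀ q, P q → p ∣ q.1)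
    (ha : ∀ {a b c d : ℤ}, a * d - b * (N * c) = 1 → ∀ q, P q → P (act a b (N * c) d q)) :
    Pool.Agent.N975.Ph.Wt N ((A : ℤ) ^ 2) (kw A P p) where
  D0 := by
    have := (chr hA).z
    positivity
  disc := fun q h => hd q (kw_ne h)
  inv := by
    intro a b c d h q
    by_cases hf : P q
    · rw [kw_pos hf, kw_pos (ha h q hf), gnE_act hA (hd q hf) h,
        if_congr (dvd_shift (act_b h (hN.mul_right c) (hp q hf))) rfl rfl]
    · rw [kw_zero hf, kw_zero]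
      intro h1
      apply hf
      have h2 := ha (a := d) (b := -b) (c := -c) (d := a) (by linear_combination h) _ h1
      have e : N * -c = -(N * c) := by ring
      rwa [e, act_inv h] at h2

theorem par_kw (hA : Fd A) (hr : ∀ a b c : ℤ, P (-a, b, -c) ↔ P (a, b, c)) :
    Par (kw A P p) 1 := by
  intro a b c
  rw [one_mul]
  by_cases hf : P (a, b, c)
  · rw [kw_pos hf, kw_pos ((hr a b c).2 hf), gnE_refl hA]
  · rw [kw_zero hf, kw_zero (fun h1 => hf ((hr a b c).1 h1))]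

theorem neg_kw (hA : Fd A) (hn : ∀ q, P (-q) ↔ P q) (h2 : ¬ p ∣ 2 * (A : ℤ))
    (ho : ∀ q, P q → p ∣ q.2.1 - A ∨ p ∣ q.2.1 + A) (q : ℤ × ℤ × ℤ) :
    kw A P p (-q) = -kw A P p q := by
  by_cases hf : P q
  · rw [kw_pos hf, kw_pos ((hn q).2 hf), gnE_neg hA]
    have e1 : p ∣ (-q).2.1 - A ↔ p ∣ q.2.1 + A := by
      have : (-q).2.1 - (A : ℤ) = -(q.2.1 + A) := by
        rw [Prod.snd_neg, Prod.fst_neg]
        ring
      rw [this, dvd_neg]
    rw [if_congr e1 rfl rfl]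
    rcases ho q hf with h3 | h3
    · have h4 : ¬ p ∣ q.2.1 + A := by
        intro h4
        apply h2
        have h5 := h4.sub h3
        have e : q.2.1 + (A : ℤ) - (q.2.1 - A) = 2 * A := by ring
        rwa [e] at h5
      rw [if_pos h3, if_neg h4]
      ring
    · have h4 : ¬ p ∣ q.2.1 - A := by
        intro h4
        apply h2
        have h5 := h3.sub h4
        have e : q.2.1 + (A : ℤ) - (q.2.1 - A) = 2 * A := by ring
        rwa [e] at h5
      rw [if_pos h3, if_neg h4]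
      ring
  · rw [kw_zero hf, kw_zero (fun h1 => hf ((hn q).1 h1)), neg_zero]

end gen

/-! ### the values of the homomorphisms as crossing numbers -/

section cross

variable {N D : ℤ} {k : ℤ × ℤ × ℤ → ℤ}

theorem gnwt (H : Pool.Agent.N975.Ph.Wt N D k) (hn : ∀ q, q.1 = 0 → k q = 0) :
    Pool.Agent.N974.GN.Wt N D k :=
  ⟨H.D0.ne', H.disc, H.inv, hn⟩

theorem X_Phi (H : Pool.Agent.N975.Ph.Wt N D k) (hn : ∀ q, q.1 = 0 → k q = 0) {a b c d : ℤ}
    (h : a * d - b * (N * c) = 1) : Pool.Agent.N974.GN.X k a (N * c) = Phi N k a b c d := by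
  rw [Phi_cusp H (x := 1) (m := 0) (Or.inl one_ne_zero)
    (fun q hq h0 => hq (hn q (by rw [ev10] at h0; exact h0))) h]
  have e1 : a * 1 + b * 0 = a := by ring
  have e2 : N * c * 1 + d * 0 = N * c := by ring
  rw [e1, e2]
  unfold Pool.Agent.N974.GN.X
  apply finsum_congr
  intro q
  unfold Pool.Agent.N974.GN.U
  by_cases h1 : ev q 1 0 ≠ 0 ∧ ev q a (N * c) ≠ 0
  · rw [if_pos h1]
  · rw [if_neg h1]
    have h2 : k q = 0 := by
      by_contra hk
      apply h1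
      refine ⟨fun h0 => hk (hn q (by rw [ev10] at h0; exact h0)), fun h0 => hk ?_⟩
      rw [← H.inv h q]
      apply hn
      rw [← ev10, ev_act, mul_one, mul_one, mul_zero, mul_zero, add_zero, add_zero]
      exact h0
    rw [h2, zero_mul]

/-- the crossing number counts the forms with positive leading coefficient -/
theorem X_four (H : Pool.Agent.N974.GN.Wt N D k) (hk : ∀ q, k (-q) = -k q) (x M : ℤ) :
    Pool.Agent.N974.GN.X k x M = 4 * ∑ᶠ q : ℤ × ℤ × ℤ,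
      if 0 < q.1 ∧ ev q x M < 0 then k q else 0 := by
  classical
  rw [Pool.Agent.N974.GN.X_pos H x M]
  have e : ∀ q : ℤ × ℤ × ℤ, (if 0 < q.1 ∧ ev q x M < 0 then k q - k (-q) else 0) =
      2 * (if 0 < q.1 ∧ ev q x M < 0 then k q else 0) := by
    intro q
    rw [hk q]
    split_ifs <;> ring
  rw [finsum_congr e, ← mul_finsum]
  ring

end cross

/-! ### the conditions -/

/-- forms of level `21` with aligned orientation -/
def cS (N : ℕ) (q : ℤ × ℤ × ℤ) : Prop := q.2.1 ^ 2 - 4 * q.1 * q.2.2 = (N : ℤ) ^ 2 ∧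
  (21 : ℤ) ∣ q.1 ∧ (((3 : ℤ) ∣ q.2.1 - N ∧ (7 : ℤ) ∣ q.2.1 - N) ∨
    ((3 : ℤ) ∣ q.2.1 + N ∧ (7 : ℤ) ∣ q.2.1 + N))

/-- forms of level `7` -/
def cL (N : ℕ) (q : ℤ × ℤ × ℤ) : Prop := q.2.1 ^ 2 - 4 * q.1 * q.2.2 = (N : ℤ) ^ 2 ∧ (7 : ℤ) ∣ q.1

/-- mixed, sign at `3` -/
abbrev kM (A : ℕ) := kw A (cM A) 3
/-- aligned, sign at `3` -/
abbrev kS (A : ℕ) := kw A (cS A) 3
/-- level `7`, sign at `7` -/
abbrev kL (A : ℕ) := kw A (cL A) 7
/-- level `7`, prime to `3`, sign at `7` -/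
abbrev kO (A : ℕ) := kw A (cB A) 7

/-- `A` is a positive fundamental discriminant prime to `21` -/
structure Adm (A : ℕ) : Prop where
  fd : Fd A
  n3 : ¬ (3 : ℤ) ∣ A
  n7 : ¬ (7 : ℤ) ∣ A

theorem Adm.z (h : Adm A) : 0 < (A : ℤ) := (chr h.fd).z

theorem Adm.n32 (h : Adm A) : ¬ (3 : ℤ) ∣ 2 * A := by
  have := h.n3
  omega

theorem Adm.n72 (h : Adm A) : ¬ (7 : ℤ) ∣ 2 * A := by
  have := h.n7
  omega

theorem dis {A : ℕ} {p : ℤ} (hp : Prime p) {q : ℤ × ℤ × ℤ}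
    (h : q.2.1 ^ 2 - 4 * q.1 * q.2.2 = (A : ℤ) ^ 2) (h1 : p ∣ q.1) :
    p ∣ q.2.1 - A ∨ p ∣ q.2.1 + A := by
  apply hp.dvd_or_dvd
  obtain ⟨t, ht⟩ := h1
  refine ⟨4 * t * q.2.2, ?_⟩
  rw [ht] at h
  linear_combination h

theorem p7z : Prime (7 : ℤ) := by
  have := Nat.prime_iff_prime_int.1 p7
  exact_mod_cast this

theorem three_of {x : ℤ} (h : (21 : ℤ) ∣ x) : (3 : ℤ) ∣ x := (by norm_num : (3 : ℤ) ∣ 21).trans h

theorem seven_of {x : ℤ} (h : (21 : ℤ) ∣ x) : (7 : ℤ) ∣ x := (by norm_num : (7 : ℤ) ∣ 21).trans h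

theorem cS_act {m : ℕ} {a b c d : ℤ} (h : a * d - b * (21 * c) = 1) (f : ℤ × ℤ × ℤ)
    (hf : cS m f) : cS m (act a b (21 * c) d f) := by
  obtain ⟨h1, h2, h3⟩ := hf
  have e3 := act_b (p := 3) h (three_of (dvd_mul_right 21 c)) (three_of h2)
  have e7 := act_b (p := 7) h (seven_of (dvd_mul_right 21 c)) (seven_of h2)
  refine ⟨act_disc h1 h, act_a (dvd_mul_right 21 c) h2, ?_⟩
  rw [dvd_shift e3, dvd_shift e7, dvd_shift' e3, dvd_shift' e7]
  exact h3

theorem cL_act {m : ℕ} {a b c d : ℤ} (h : a * d - b * (7 * c) = 1) (f : ℤ × ℤ × ℤ)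
    (hf : cL m f) : cL m (act a b (7 * c) d f) :=
  ⟨act_disc hf.1 h, act_a (dvd_mul_right 7 c) hf.2⟩

theorem cS_refl {m : ℕ} (a b c : ℤ) : cS m (-a, b, -c) ↔ cS m (a, b, c) := by
  unfold cS
  simp only [dvd_neg]
  have : b ^ 2 - 4 * -a * -c = b ^ 2 - 4 * a * c := by ring
  rw [this]

theorem cL_refl {m : ℕ} (a b c : ℤ) : cL m (-a, b, -c) ↔ cL m (a, b, c) := by
  unfold cL
  simp only [dvd_neg]
  have : b ^ 2 - 4 * -a * -c = b ^ 2 - 4 * a * c := by ring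
  rw [this]

theorem wtM (h : Adm A) : Pool.Agent.N975.Ph.Wt 21 ((A : ℤ) ^ 2) (kM A) :=
  wt_kw h.fd (by norm_num) (fun _ h => h.1) (fun _ h => three_of h.2.1)
    (fun h _ hf => cM_act h hf)

theorem wtS (h : Adm A) : Pool.Agent.N975.Ph.Wt 21 ((A : ℤ) ^ 2) (kS A) :=
  wt_kw h.fd (by norm_num) (fun _ h => h.1) (fun _ h => three_of h.2.1)
    (fun h q hf => cS_act h q hf)

theorem wtL (h : Adm A) : Pool.Agent.N975.Ph.Wt 7 ((A : ℤ) ^ 2) (kL A) :=
  wt_kw h.fd (by norm_num) (fun _ h => h.1) (fun _ h => h.2) (fun h q hf => cL_act h q hf)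

theorem wtL21 (h : Adm A) : Pool.Agent.N975.Ph.Wt 21 ((A : ℤ) ^ 2) (kL A) :=
  wt_kw h.fd (by norm_num) (fun _ h => h.1) (fun _ h => h.2) (fun {a b c d} h q hf => by
    have e : (21 : ℤ) * c = 7 * (3 * c) := by ring
    rw [e] at h ⊢
    exact cL_act h q hf)

theorem wtO (h : Adm A) : Pool.Agent.N975.Ph.Wt 21 ((A : ℤ) ^ 2) (kO A) :=
  wt_kw h.fd (by norm_num) (fun _ h => h.1) (fun _ h => h.2.1) (fun h _ hf => cB_act h hf)

theorem parM (h : Adm A) : Par (kM A) 1 := par_kw h.fd fun _ _ _ => cM_refl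

theorem parS (h : Adm A) : Par (kS A) 1 := par_kw h.fd cS_refl

theorem parL (h : Adm A) : Par (kL A) 1 := par_kw h.fd cL_refl

theorem parO (h : Adm A) : Par (kO A) 1 := par_kw h.fd fun _ _ _ => cB_refl

theorem negM (h : Adm A) (q : ℤ × ℤ × ℤ) : kM A (-q) = -kM A q :=
  neg_kw h.fd (fun _ => cM_neg) h.n32 (fun _ hq => dis Int.prime_three hq.1 (three_of hq.2.1)) q

theorem negO (h : Adm A) (q : ℤ × ℤ × ℤ) : kO A (-q) = -kO A q :=
  neg_kw h.fd (fun _ => cB_neg) h.n72 (fun _ hq => dis p7z hq.1 hq.2.1) q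

theorem ninfM (h : Adm A) (q : ℤ × ℤ × ℤ) (h0 : q.1 = 0) : kM A q = 0 := by
  by_contra hf
  exact cM_ne h.n3 h.n7 (kw_ne hf) (by rw [h0, zero_mul])

theorem ninfO (q : ℤ × ℤ × ℤ) (h0 : q.1 = 0) : kO A q = 0 := by
  by_contra hf
  apply (kw_ne hf).2.2
  rw [h0]
  exact dvd_zero _

/-! ### the odd symbols -/

theorem X_OM (h : Adm A) (x M : ℤ) : Pool.Agent.N974.GN.X (kM A) x M = 4 * OM A x M := by
  classical
  rw [X_four (gnwt (wtM h) (ninfM h)) (negM h) x M]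
  congr 1
  unfold OM
  apply finsum_congr
  intro q
  have he : ev q x M = q.1 * x ^ 2 + q.2.1 * x * M + q.2.2 * M ^ 2 := rfl
  rw [← he]
  by_cases h1 : 0 < q.1 ∧ ev q x M < 0
  · rw [if_pos h1]
    unfold kM
    by_cases h2 : cM A q
    · rw [if_pos ⟨h2, h1⟩, kw_pos h2]
    · rw [if_neg (fun h => h2 h.1), kw_zero h2]
  · rw [if_neg h1, if_neg (fun h => h1 h.2)]

theorem X_OB (h : Adm A) (x M : ℤ) : Pool.Agent.N974.GN.X (kO A) x M = 4 * OB A x M := by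
  classical
  rw [X_four (gnwt (wtO h) ninfO) (negO h) x M]
  congr 1
  unfold OB
  apply finsum_congr
  intro q
  have he : ev q x M = q.1 * x ^ 2 + q.2.1 * x * M + q.2.2 * M ^ 2 := rfl
  rw [← he]
  by_cases h1 : 0 < q.1 ∧ ev q x M < 0
  · rw [if_pos h1]
    unfold kO
    by_cases h2 : cB A q
    · rw [if_pos ⟨h2, h1⟩, kw_pos h2]
    · rw [if_neg (fun h => h2 h.1), kw_zero h2]
  · rw [if_neg h1, if_neg (fun h => h1 h.2)]

/-! ### the relation between the weights -/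

theorem kO_eq (h : Adm A) (q : ℤ × ℤ × ℤ) : kO A q = kL A q - kS A q + kM A q := by
  unfold kO kL kS kM
  by_cases h1 : cL A q
  · by_cases h3 : (3 : ℤ) ∣ q.1
    · have h21 : (21 : ℤ) ∣ q.1 := by
        have := h1.2
        omega
      have hB : ¬ cB A q := fun hB => hB.2.2 h3
      have n3 := h.n3
      have n7 := h.n7
      rcases dis Int.prime_three h1.1 h3 with h4 | h4
      · rcases dis p7z h1.1 h1.2 with h5 | h5
        · have hM : ¬ cM A q := by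
            rintro ⟨-, -, h6 | h6⟩ <;> omega
          rw [kw_zero hB, kw_zero hM, kw_pos h1, kw_pos (show cS A q from ⟨h1.1, h21, Or.inl ⟨h4, h5⟩⟩),
            if_pos h4, if_pos h5]
          ring
        · have hS : ¬ cS A q := by
            rintro ⟨-, -, h6 | h6⟩ <;> omega
          rw [kw_zero hB, kw_zero hS, kw_pos h1, kw_pos (show cM A q from ⟨h1.1, h21, Or.inl ⟨h4, h5⟩⟩),
            if_pos h4, if_neg (by omega)]
          ring
      · rcases dis p7z h1.1 h1.2 with h5 | h5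
        · have hS : ¬ cS A q := by
            rintro ⟨-, -, h6 | h6⟩ <;> omega
          rw [kw_zero hB, kw_zero hS, kw_pos h1, kw_pos (show cM A q from ⟨h1.1, h21, Or.inr ⟨h4, h5⟩⟩),
            if_pos h5, if_neg (by omega)]
          ring
        · have hM : ¬ cM A q := by
            rintro ⟨-, -, h6 | h6⟩ <;> omega
          rw [kw_zero hB, kw_zero hM, kw_pos h1, kw_pos (show cS A q from ⟨h1.1, h21, Or.inr ⟨h4, h5⟩⟩),
            if_neg (by omega), if_neg (by omega)]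
          ring
    · have hB : cB A q := ⟨h1.1, h1.2, h3⟩
      rw [kw_pos hB, kw_pos h1, kw_zero (fun h2 : cS A q => h3 (three_of h2.2.1)),
        kw_zero (fun h2 : cM A q => h3 (three_of h2.2.1))]
      ring
  · rw [kw_zero h1, kw_zero (fun h2 : cB A q => h1 ⟨h2.1, h2.2.1⟩),
      kw_zero (fun h2 : cS A q => h1 ⟨h2.1, seven_of h2.2.1⟩),
      kw_zero (fun h2 : cM A q => h1 ⟨h2.1, seven_of h2.2.1⟩)]
    ring

end

end Pool.Agent.N974.P21G.Od
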