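import Pool.Agent.N974.RQ.C1D
import Pool.Agent.N971.PG.C1E

/-!
# P21G: the weights of the forms of discriminant `m²` (all fundamental discriminants `-m`, and an
abstract two-part `c2 b`)
-/

set_option autoImplicit false

namespace Pool.Agent.N974.P21G

open Finset
open Pool.Agent.N969.P15 (un psp psp2 c2 Ev)
open Pool.Agent.N969.P17G (gen psl psl2 chP)
open Pool.Agent.N973.P15.C (inj_gen exists_fac sign_of fo)
open Pool.Agent.N402.P15 (q2 c2_congr two_dvd_q2)
open Pool.Agent.N975.ChE (c2_mul c2_pm c2_even)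
open Pool.Agent.N971.PG (go go_f1 go_f2 go_f3 go_tr f1 f2 f3 tr par_mul pe gen_dvd f1_inj f2_inj
  f3_inj cop2)
open Pool.Agent.N974.RQ (FF Om Cd fw Fc facts bijOn gen_psl Cd_shift wc sum_cusp un_refl chP_neg SA
  SA_fin flip_bij two_dvd_of jac_zero_of_dvd)

noncomputable section

/-! ### the character at `2` -/

/-- `D` is half of the conductor -/
def Hf (b : ℕ) (D : ℤ) : Prop := (b % 16 = 4 ∧ D % 4 = 2) ∨ (¬ b % 16 = 4 ∧ D % 8 = 4)

theorem c2_eq_of {b : ℕ} {y z s D : ℤ} (hq : (q2 b : ℤ) ∣ D) (hs : s % 2 = 1) (hy : y % 2 = 1)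
    (hz : z % 2 = 1) (h : y * z = s * (s + D)) : c2 b y = c2 b z := by
  have h1 : c2 b (y * z) = c2 b (s * s) := by
    apply c2_congr
    rw [h]
    have e : s * (s + D) - s * s = s * D := by ring
    rw [e]
    exact hq.mul_left s
  rw [c2_mul, c2_mul] at h1
  rcases c2_pm b hy with h2 | h2 <;> rcases c2_pm b hz with h3 | h3 <;>
    rcases c2_pm b hs with h4 | h4 <;> rw [h2, h3, h4] at h1 <;> rw [h2, h3] <;> norm_num at h1

theorem c2_opp {b : ℕ} {y z s D : ℤ} (hD : Hf b D) (hs : s % 2 = 1)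
    (hy : y % 2 = 1) (hz : z % 2 = 1) (h : y * z = s * (s + D)) : c2 b y + c2 b z = 0 := by
  have h1 : c2 b (y * z) = -1 := by
    unfold Hf at hD
    rw [h]
    obtain ⟨t, rfl⟩ : ∃ t, s = 2 * t + 1 := ⟨s / 2, by omega⟩
    have e1 : (2 * t + 1) * (2 * t + 1 + D) = 4 * (t * (t + 1)) + 1 + D * (2 * t + 1) := by ring
    have e2 : (t * (t + 1)) % 2 = 0 := by
      have h3 : t % 2 = 0 ∨ t % 2 = 1 := by omega
      rw [Int.mul_emod, Int.add_emod]
      rcases h3 with h3 | h3 <;> rw [h3] <;> norm_num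
    rw [e1]
    generalize t * (t + 1) = w at e2
    unfold c2
    rcases hD with ⟨h4, hD'⟩ | ⟨h4, hD'⟩
    · obtain ⟨D', hD'⟩ : ∃ D', D = 4 * D' + 2 := ⟨(D - 2) / 4, by omega⟩
      have e3 : D * (2 * t + 1) = 4 * (D' * (2 * t + 1) + t) + 2 := by rw [hD']; ring
      rw [e3]
      generalize D' * (2 * t + 1) = v
      have r0 : ¬ (4 * w + 1 + (4 * (v + t) + 2)) % 2 = 0 := by omega
      have r1 : ¬ (4 * w + 1 + (4 * (v + t) + 2)) % 4 = 1 := by omega
      rw [if_neg r0, if_pos h4, if_neg r1]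
    · obtain ⟨D', hD'⟩ : ∃ D', D = 8 * D' + 4 := ⟨(D - 4) / 8, by omega⟩
      have e3 : D * (2 * t + 1) = 8 * (D' * (2 * t + 1) + t) + 4 := by rw [hD']; ring
      rw [e3]
      generalize D' * (2 * t + 1) = v
      have r : (4 * w + 1 + (8 * (v + t) + 4)) % 8 = 5 := by omega
      have r0 : ¬ (4 * w + 1 + (8 * (v + t) + 4)) % 2 = 0 := by omega
      rw [if_neg r0, if_neg h4, r]
      norm_num
  rw [c2_mul] at h1
  rcases c2_pm b hy with h2 | h2 <;> rcases c2_pm b hz with h3 | h3 <;>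
    rw [h2, h3] at h1 ⊢ <;> norm_num at h1 <;> norm_num

/-- the conditions on an even modulus -/
structure Rb (m b : ℕ) : Prop where
  four : (m : ℤ) % 4 = 0
  q : (q2 b : ℤ) ∣ (m : ℤ)
  hf : ∀ D : ℤ, (m : ℤ) = 2 * D → Hf b D

/-- the conditions on the modulus -/
structure Ok (m b : ℕ) : Prop where
  pos : 0 < m
  or : m % 2 = 1 ∨ Rb m b

theorem rb_ev {m : ℕ} (h : Ev m) : Rb m m := by
  obtain ⟨M, rfl, -, h4⟩ := h
  refine ⟨by omega, ?_, ?_⟩
  · unfold q2
    split_ifs with h1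
    · exact ⟨(M : ℤ), by push_cast; ring⟩
    · exact ⟨((M / 2 : ℕ) : ℤ), by push_cast; omega⟩
  · intro D hD
    unfold Hf
    push_cast at hD
    rcases h4 with h | h
    · left; omega
    · right; omega

/-- the weight at `2` of a factorization -/
def k2 (b : ℕ) (t : ℤ × ℤ × ℤ × ℤ) : ℤ :=
  if (2 : ℤ) ∣ t.1 * t.2.1 then c2 b (t.2.2.1 * t.2.2.2) else c2 b (t.1 * t.2.1)

/-- the weight of a form -/
def gb (m b : ℕ) (q : ℤ × ℤ × ℤ) : ℤ :=
  (if 2 ∣ m then (if (2 : ℤ) ∣ q.1 then c2 b q.2.2 else c2 b q.1) else 1) *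
    ∏ p ∈ m.primeFactors.erase 2, gen p q

/-- the weight of the data -/
def pw (m b a a' Y X : ℕ) : ℤ :=
  (if 2 ∣ m then psl2 b a a' Y X else 1) * ∏ p ∈ m.primeFactors.erase 2, psl p a a' Y X

theorem gb_fo {m b : ℕ} (h2 : 2 ∣ m) (t : ℤ × ℤ × ℤ × ℤ) :
    gb m b (fo t) = k2 b t * go m (fo t) := by
  unfold gb k2 go
  rw [if_pos h2]
  rfl

theorem gb_odd {m b : ℕ} (h2 : ¬ 2 ∣ m) (q : ℤ × ℤ × ℤ) : gb m b q = go m q := by
  unfold gb go
  rw [if_neg h2, one_mul]

theorem cop_of_gb {m b : ℕ} (hm : 0 < m) {a a' c c' : ℤ} (hd : a * c' - a' * c = m)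
    (h : gb m b (fo (a, a', c, c')) ≠ 0) : IsCoprime a c := by
  rw [Int.isCoprime_iff_gcd_eq_one]
  by_contra hg
  obtain ⟨p, hp, hpg⟩ := Nat.exists_prime_and_dvd hg
  have h1 : (p : ℤ) ∣ a := (by exact_mod_cast hpg : (p : ℤ) ∣ (Int.gcd a c : ℤ)).trans
    (Int.gcd_dvd_left ..)
  have h2 : (p : ℤ) ∣ c := (by exact_mod_cast hpg : (p : ℤ) ∣ (Int.gcd a c : ℤ)).trans
    (Int.gcd_dvd_right ..)
  have h3 : (p : ℤ) ∣ (m : ℤ) := by
    rw [← hd]
    exact dvd_sub (h1.mul_right _) (h2.mul_left _)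
  have h4 : p ∈ m.primeFactors := Nat.mem_primeFactors.2 ⟨hp, by exact_mod_cast h3, hm.ne'⟩
  apply h
  unfold gb
  by_cases hp2 : p = 2
  · subst hp2
    have e1 : (2 : ℤ) ∣ (fo (a, a', c, c')).1 := h1.mul_right _
    have e2 : (fo (a, a', c, c')).2.2 % 2 = 0 := Int.emod_eq_zero_of_dvd (h2.mul_right _)
    have e3 : 2 ∣ m := by exact_mod_cast h3
    rw [if_pos e3, if_pos e1, c2_even _ e2, zero_mul]
  · rw [Finset.prod_eq_zero (Finset.mem_erase.2 ⟨hp2, h4⟩)
      (gen_dvd hp (h1.mul_right _) (h2.mul_right _)), mul_zero]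

/-- the local weight at an odd prime does not vanish -/
theorem gen_ne {m b : ℕ} {q : ℤ × ℤ × ℤ} (h : gb m b q ≠ 0) {p : ℕ}
    (hp : p ∈ m.primeFactors.erase 2) : gen p q ≠ 0 := by
  intro h0
  apply h
  unfold gb
  rw [Finset.prod_eq_zero hp h0, mul_zero]

/-! ### the data -/

theorem k2_psl {P Q : ℕ → Prop} {n N : ℕ} {x : ℤ} {T a a' X Y : ℕ} {c c' : ℤ}
    (f : Fc P Q n N x T a a' X Y c c') {b : ℕ} (hn : n % 2 = 1) {d : ℤ} (hqd : (q2 b : ℤ) ∣ d)
    (hdet : (a : ℤ) * c' - a' * c = d) :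
    k2 b ((a : ℤ), (a' : ℤ), c, c') = psl2 b a a' Y X := by
  unfold k2 psl2
  simp only
  have h2d : (2 : ℤ) ∣ d := by
    have h1 : ((2 : ℕ) : ℤ) ∣ (q2 b : ℤ) := by exact_mod_cast two_dvd_q2 b
    exact h1.trans hqd
  have hdet2 : ((a : ℤ) * c' - a' * c) % 2 = 0 := by
    rw [hdet]; exact Int.emod_eq_zero_of_dvd h2d
  have p1 := pe a a'
  have p2 := pe a c'
  have p3 := pe a' c
  have p4 := pe c c'
  by_cases h1 : a % 2 = 1 ∧ a' % 2 = 1
  · have h2 : ¬ (2 : ℤ) ∣ (a : ℤ) * a' := by omega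
    rw [if_neg h2, if_pos h1]
    push_cast
    rfl
  · have h2 : (2 : ℤ) ∣ (a : ℤ) * a' := by omega
    rw [if_pos h2, if_neg h1]
    by_cases h3 : a % 2 = 0 ∧ a' % 2 = 0
    · rw [if_pos h3]
      have eX : -(X : ℤ) = a * x + n * c := by linear_combination f.hc
      have eY : (Y : ℤ) = a' * x + n * c' := by linear_combination f.hc'
      have eXY : -((X * Y : ℕ) : ℤ) = (a * x + n * c) * (a' * x + n * c') := by
        push_cast
        rw [← eX, ← eY]
        ring
      have q1 := pe a x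
      have q2' := pe a' x
      have q3 := pe n c
      have q4 := pe n c'
      rw [eXY]
      by_cases hcc : (c * c') % 2 = 1
      · obtain ⟨hc, hc'⟩ := par_mul.1 hcc
        refine (c2_eq_of (D := d * x) (s := a' * c * x + n * (c * c')) (hqd.mul_right x) ?_ ?_
          hcc ?_).symm
        · have q5 := pe a' (c * x)
          have q6 := pe n (c * c')
          have e5 : (a' : ℤ) * c * x = a' * (c * x) := by ring
          rw [e5]
          omega
        · rw [par_mul]
          omega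
        · linear_combination ((a' * c * x + n * (c * c')) * x) * hdet
      · have hcc0 : (c * c') % 2 = 0 := by omega
        rw [c2_even _ hcc0]
        symm
        apply c2_even
        by_contra h5
        have h6 : (((a : ℤ) * x + n * c) * (a' * x + n * c')) % 2 = 1 := by omega
        obtain ⟨h7, h8⟩ := par_mul.1 h6
        omega
    · rw [if_neg h3]
      apply c2_even
      omega

theorem gb_data {P Q : ℕ → Prop} [DecidablePred P] [DecidablePred Q] {m b n d : ℕ} (H : Ok m b)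
    (hmd : m ∣ d) (hn : 0 < n) (hcop : Nat.Coprime m n) (x : ℤ) {w : Σ _ : ℕ, ℕ × ℕ}
    (hw : w ∈ (Om P Q (d * n)).filter (Cd n (d * n) x)) :
    gb m b (fo (fw n (d * n) x w)) =
      pw m b w.2.1 w.2.2 ((d * n - w.1) / w.2.1) (w.1 / w.2.2) := by
  obtain ⟨T, a, a'⟩ := w
  rw [Finset.mem_filter] at hw
  obtain ⟨X, Y, c, c', f, hf⟩ := facts n (d * n) hn x T a a' hw.1 hw.2
  rw [hf]
  have hm' : (n : ℤ) ≠ 0 := by exact_mod_cast hn.ne'
  have hdet : (a : ℤ) * c' - a' * c = d := by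
    have e1 : (n : ℤ) * (a * c' - a' * c) = n * d := by
      have := f.h3
      push_cast at this
      linear_combination this - a * f.hc' + a' * f.hc
    exact mul_left_cancel₀ hm' e1
  have hmd' : (m : ℤ) ∣ (d : ℤ) := by exact_mod_cast hmd
  have hprod : ∏ p ∈ m.primeFactors.erase 2, gen p (fo ((a : ℤ), (a' : ℤ), c, c')) =
      ∏ p ∈ m.primeFactors.erase 2, psl p a a' Y X := by
    refine Finset.prod_congr rfl fun p hp => ?_
    rw [Finset.mem_erase] at hp
    have hpp := Nat.prime_of_mem_primeFactors hp.2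
    have hpm := Nat.dvd_of_mem_primeFactors hp.2
    refine gen_psl f hpp hdet ((by exact_mod_cast hpm : (p : ℤ) ∣ (m : ℤ)).trans hmd') ?_
    exact Nat.isCoprime_iff_coprime.2 (Nat.Coprime.coprime_dvd_left hpm hcop).symm
  simp only [f.hX, f.hY]
  unfold pw
  by_cases h2 : 2 ∣ m
  · have hR : Rb m b := by
      rcases H.or with h | h
      · omega
      · exact h
    have hn2 : n % 2 = 1 := by
      by_contra h
      have h3 : 2 ∣ Nat.gcd m n := Nat.dvd_gcd h2 (by omega)
      rw [hcop] at h3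
      omega
    rw [gb_fo h2, k2_psl f hn2 (hR.q.trans hmd') hdet, if_pos h2]
    unfold go
    rw [hprod]
  · rw [gb_odd h2, if_neg h2, one_mul]
    unfold go
    rw [hprod]

variable (P Q : ℕ → Prop) [DecidablePred P] [DecidablePred Q]

/-- the weighted count of the factorizations -/
def GP (m b : ℕ) (d x n : ℤ) : ℤ := ∑ᶠ t ∈ FF P Q d x n, gb m b (fo t)

variable {P Q}

theorem GP_data {m b n d : ℕ} (H : Ok m b) (hmd : m ∣ d) (hd : 0 < d) (hn : 0 < n)
    (hcop : Nat.Coprime m n) (x : ℤ) :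
    GP P Q m b d x n = ∑ w ∈ (Om P Q (d * n)).filter (Cd n (d * n) x),
      pw m b w.2.1 w.2.2 ((d * n - w.1) / w.2.1) (w.1 / w.2.2) := by
  unfold GP
  rw [← finsum_mem_eq_of_bijOn (fw n (d * n) x) (bijOn n d hn hd x)
    (f := fun w => pw m b w.2.1 w.2.2 ((d * n - w.1) / w.2.1) (w.1 / w.2.2))
    (fun w hw => (gb_data H hmd hn hcop x (by exact_mod_cast hw)).symm)]
  rw [finsum_mem_coe_finset]

/-! ### translations -/

theorem k2_tr {b : ℕ} (k : ℤ) {a a' c c' d : ℤ} (hqd : (q2 b : ℤ) ∣ d)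
    (hd : a * c' - a' * c = d) : k2 b (tr k (a, a', c, c')) = k2 b (a, a', c, c') := by
  have h2d : (2 : ℤ) ∣ d := by
    have h1 : ((2 : ℕ) : ℤ) ∣ (q2 b : ℤ) := by exact_mod_cast two_dvd_q2 b
    exact h1.trans hqd
  have hdet : (a * c' - a' * c) % 2 = 0 := by
    rw [hd]; exact Int.emod_eq_zero_of_dvd h2d
  unfold k2 tr
  simp only
  by_cases h : (2 : ℤ) ∣ a * a'
  · rw [if_pos h, if_pos h]
    by_cases hy : (c * c') % 2 = 1
    · obtain ⟨hc, hc'⟩ := par_mul.1 hy
      have haa : a % 2 = 0 ∧ a' % 2 = 0 := by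
        have p1 := pe a a'
        have p2 := pe a c'
        have p3 := pe a' c
        omega
      have hz : ((c + k * a) * (c' + k * a')) % 2 = 1 := by
        rw [par_mul]
        constructor
        · rw [Int.add_emod, Int.mul_emod, haa.1, hc]; norm_num
        · rw [Int.add_emod, Int.mul_emod, haa.2, hc']; norm_num
      refine c2_eq_of (D := d * k) (s := c * (c' + k * a')) (hqd.mul_right k) ?_ hz hy ?_
      · rw [par_mul]
        refine ⟨hc, ?_⟩
        rw [Int.add_emod, Int.mul_emod, haa.2, hc']; norm_num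
      · linear_combination (c * (c' + k * a') * k) * hd
    · have hy0 : (c * c') % 2 = 0 := by omega
      have hz : ((c + k * a) * (c' + k * a')) % 2 = 0 := by
        by_contra hz
        have hz1 : ((c + k * a) * (c' + k * a')) % 2 = 1 := by omega
        obtain ⟨h1, h2⟩ := par_mul.1 hz1
        have p1 := pe a a'
        have p2 := pe a c'
        have p3 := pe a' c
        have p4 := pe c c'
        have p5 := pe k a
        have p6 := pe k a'
        omega
      rw [c2_even _ hz, c2_even _ hy0]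
  · rw [if_neg h, if_neg h]

theorem gb_tr {m b : ℕ} (H : Ok m b) (k : ℤ) {t : ℤ × ℤ × ℤ × ℤ} {d : ℤ} (hmd : (m : ℤ) ∣ d)
    (hd : t.1 * t.2.2.2 - t.2.1 * t.2.2.1 = d) : gb m b (fo (tr k t)) = gb m b (fo t) := by
  have h1 : ∀ p : ℕ, p.Prime → p ≠ 2 → p ∣ m → (p : ℤ) ∣ d := fun p _ _ hp =>
    (by exact_mod_cast hp : (p : ℤ) ∣ (m : ℤ)).trans hmd
  by_cases h2 : 2 ∣ m
  · have hR : Rb m b := by
      rcases H.or with h | h
      · omega
      · exact h
    obtain ⟨a, a', c, c'⟩ := t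
    rw [gb_fo h2, gb_fo h2, k2_tr k (hR.q.trans hmd) hd, go_tr k hd h1]
  · rw [gb_odd h2, gb_odd h2, go_tr k hd h1]

theorem bij_tr (d x n k : ℤ) : Set.BijOn (tr k) (FF P Q d (x + n * k) n) (FF P Q d x n) := by
  refine ⟨?_, ?_, ?_⟩
  · rintro ⟨a, a', c, c'⟩ ⟨pa, pa', h5, hdt, pX, pY⟩
    simp only at pa pa' h5 hdt pX pY
    refine ⟨pa, pa', h5, ?_, ?_, ?_⟩
    · show a * (c' + k * a') - a' * (c + k * a) = d
      linear_combination hdt
    · show 0 < -(a * x + (c + k * a) * n)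
      have e : -(a * x + (c + k * a) * n) = -(a * (x + n * k) + c * n) := by ring
      rw [e]; exact pX
    · show 0 < a' * x + (c' + k * a') * n
      have e : a' * x + (c' + k * a') * n = a' * (x + n * k) + c' * n := by ring
      rw [e]; exact pY
  · rintro ⟨a, a', c, c'⟩ - ⟨a1, a1', c1, c1'⟩ - h
    simp only [tr, Prod.mk.injEq] at h
    obtain ⟨rfl, rfl, h3, h4⟩ := h
    simp only [Prod.mk.injEq, true_and]
    constructor <;> linarith
  · rintro ⟨a, a', c, c'⟩ ⟨pa, pa', h5, hdt, pX, pY⟩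
    simp only at pa pa' h5 hdt pX pY
    refine ⟨(a, a', c - k * a, c' - k * a'), ⟨pa, pa', h5, ?_, ?_, ?_⟩, ?_⟩
    · show a * (c' - k * a') - a' * (c - k * a) = d
      linear_combination hdt
    · show 0 < -(a * (x + n * k) + (c - k * a) * n)
      have e : -(a * (x + n * k) + (c - k * a) * n) = -(a * x + c * n) := by ring
      rw [e]; exact pX
    · show 0 < a' * (x + n * k) + (c' - k * a') * n
      have e : a' * (x + n * k) + (c' - k * a') * n = a' * x + c' * n := by ring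
      rw [e]; exact pY
    · simp only [tr, Prod.mk.injEq, true_and]
      constructor <;> ring

theorem GP_shift {m b : ℕ} (H : Ok m b) {d : ℤ} (hmd : (m : ℤ) ∣ d) (x n k : ℤ) :
    GP P Q m b d (x + n * k) n = GP P Q m b d x n := by
  unfold GP
  refine finsum_mem_eq_of_bijOn (tr k) (bij_tr d x n k) fun t ht => ?_
  exact (gb_tr H k hmd ht.2.2.2.1).symm

/-! ### the Hecke operator at `2` -/

open Classical in
/-- the identity for one matrix of determinant `2 m`, even `m` -/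
theorem two_ptE {m b : ℕ} (hR : Rb m b) {a a' c c' : ℤ} (hd : a * c' - a' * c = 2 * m) :
    (if (2 : ℤ) ∣ a ∧ (2 : ℤ) ∣ a' then gb m b (fo (a / 2, a' / 2, c, c')) else 0) +
    (if (2 : ℤ) ∣ c ∧ (2 : ℤ) ∣ c' then gb m b (fo (a, a', c / 2, c' / 2)) else 0) +
    (if (2 : ℤ) ∣ c - a ∧ (2 : ℤ) ∣ c' - a' then gb m b (fo (a, a', (c - a) / 2, (c' - a') / 2))
      else 0) = gb m b (fo (a, a', c, c')) := by
  have hAz : (m : ℤ) % 4 = 0 := hR.four
  have hA2 : 2 ∣ m := by omega
  obtain ⟨D, hD⟩ : ∃ D : ℤ, (m : ℤ) = 2 * D := ⟨(m : ℤ) / 2, by omega⟩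
  have hDf := hR.hf D hD
  have hD2 : D % 2 = 0 := by omega
  have hpA : ∀ p : ℕ, p.Prime → p ≠ 2 → p ∣ m → (p : ℤ) ∣ (m : ℤ) := fun p _ _ h => by
    exact_mod_cast h
  have hpD : ∀ p : ℕ, p.Prime → p ≠ 2 → p ∣ m → (p : ℤ) ∣ D := fun p hp hp2 h => by
    have h1 : (p : ℤ) ∣ 2 * D := by rw [← hD]; exact_mod_cast h
    exact (cop2 hp hp2).symm.dvd_of_dvd_mul_left h1
  by_cases ha : (2 : ℤ) ∣ a ∧ (2 : ℤ) ∣ a'
  · obtain ⟨⟨α, rfl⟩, ⟨α', rfl⟩⟩ := ha
    have e1 : 2 * α / 2 = α := by omega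
    have e2 : 2 * α' / 2 = α' := by omega
    rw [if_pos ⟨⟨α, rfl⟩, ⟨α', rfl⟩⟩, e1, e2]
    have hd1 : α * c' - α' * c = m := by linarith
    have hf1 : fo (2 * α, 2 * α', c, c') = fo (f1 (α, α', c, c')) := rfl
    by_cases hc : (2 : ℤ) ∣ c ∧ (2 : ℤ) ∣ c'
    · obtain ⟨⟨γ, rfl⟩, ⟨γ', rfl⟩⟩ := hc
      have e3 : 2 * γ / 2 = γ := by omega
      have e4 : 2 * γ' / 2 = γ' := by omega
      have e5 : (2 * γ - 2 * α) / 2 = γ - α := by omega
      have e6 : (2 * γ' - 2 * α') / 2 = γ' - α' := by omega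
      rw [if_pos ⟨⟨γ, rfl⟩, ⟨γ', rfl⟩⟩, if_pos ⟨⟨γ - α, by ring⟩, ⟨γ' - α', by ring⟩⟩, e3, e4, e5, e6]
      have hdD : α * γ' - α' * γ = D := by linarith
      rw [gb_fo hA2, gb_fo hA2, gb_fo hA2, gb_fo hA2]
      have g1 : go m (fo (α, α', 2 * γ, 2 * γ')) = go m (fo (α, α', γ, γ')) :=
        go_f2 (α, α', γ, γ')
      have g2 : go m (fo (2 * α, 2 * α', γ, γ')) = go m (fo (α, α', γ, γ')) :=
        go_f1 (α, α', γ, γ')
      have g3 : go m (fo (2 * α, 2 * α', γ - α, γ' - α')) = go m (fo (α, α', γ, γ')) := by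
        have h1 : go m (fo (2 * α, 2 * α', γ - α, γ' - α')) =
          go m (fo (α, α', γ - α, γ' - α')) := go_f1 (α, α', γ - α, γ' - α')
        rw [h1]
        have h2 := go_tr (A := m) (-1) (t := (α, α', γ, γ')) (d := D) hdD hpD
        have h3 : tr (-1) (α, α', γ, γ') = (α, α', γ - α, γ' - α') := by
          unfold tr
          simp only [Prod.mk.injEq, true_and]
          constructor <;> ring
        rw [h3] at h2
        exact h2
      rw [g1, g2, g3]
      have k4 : k2 b (2 * α, 2 * α', 2 * γ, 2 * γ') = 0 := by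
        unfold k2
        simp only
        rw [if_pos ⟨2 * (α * α'), by ring⟩]
        exact c2_even _ (by
          have : 2 * γ * (2 * γ') = 2 * (2 * (γ * γ')) := by ring
          omega)
      have k1 : k2 b (α, α', 2 * γ, 2 * γ') = c2 b (α * α') := by
        unfold k2
        simp only
        by_cases h : (2 : ℤ) ∣ α * α'
        · rw [if_pos h, c2_even _ (Int.emod_eq_zero_of_dvd h)]
          exact c2_even _ (by
            have : 2 * γ * (2 * γ') = 2 * (2 * (γ * γ')) := by ring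
            omega)
        · rw [if_neg h]
      have k2' : k2 b (2 * α, 2 * α', γ, γ') = c2 b (γ * γ') := by
        unfold k2
        simp only
        rw [if_pos ⟨2 * (α * α'), by ring⟩]
      have k3 : k2 b (2 * α, 2 * α', γ - α, γ' - α') = c2 b ((γ - α) * (γ' - α')) := by
        unfold k2
        simp only
        rw [if_pos ⟨2 * (α * α'), by ring⟩]
      rw [k1, k2', k3, k4, zero_mul, ← add_mul, ← add_mul]
      have key : c2 b (α * α') + c2 b (γ * γ') + c2 b ((γ - α) * (γ' - α')) = 0 := by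
        have hdet : (α * γ' - α' * γ) % 2 = 0 := by rw [hdD]; exact hD2
        by_cases haa : (α * α') % 2 = 1
        · obtain ⟨h1, h2⟩ := par_mul.1 haa
          by_cases hgg : (γ * γ') % 2 = 1
          · obtain ⟨h3, h4⟩ := par_mul.1 hgg
            have h5 : ((γ - α) * (γ' - α')) % 2 = 0 := by
              rw [Int.mul_emod, show (γ - α) % 2 = 0 by omega]; norm_num
            rw [c2_even _ h5, add_zero]
            refine c2_opp hDf (s := α' * γ) (par_mul.2 ⟨h2, h3⟩) haa hgg ?_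
            linear_combination (α' * γ) * hdD
          · have h34 : γ % 2 = 0 ∧ γ' % 2 = 0 := by
              have p1 := pe γ γ'
              have p2 := pe α γ'
              have p3 := pe α' γ
              omega
            have h5 : (γ * γ') % 2 = 0 := by omega
            rw [c2_even _ h5, add_zero]
            refine c2_opp hDf (s := α' * γ - α * α') ?_ haa ?_ ?_
            · rw [Int.sub_emod, haa, Int.mul_emod, h34.1]; norm_num
            · rw [par_mul]; omega
            · linear_combination (α' * γ - α * α') * hdD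
        · have haa0 : (α * α') % 2 = 0 := by omega
          rw [c2_even _ haa0, zero_add]
          by_cases hgg : (γ * γ') % 2 = 1
          · obtain ⟨h3, h4⟩ := par_mul.1 hgg
            have h12 : α % 2 = 0 ∧ α' % 2 = 0 := by
              have p1 := pe α α'
              have p2 := pe α γ'
              have p3 := pe α' γ
              omega
            refine c2_opp hDf (s := γ * γ' - α * γ') ?_ hgg ?_ ?_
            · rw [Int.sub_emod, hgg, Int.mul_emod, h12.1]; norm_num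
            · rw [par_mul]; omega
            · linear_combination (γ * γ' - α * γ') * hdD
          · have hgg0 : (γ * γ') % 2 = 0 := by omega
            have h5 : ((γ - α) * (γ' - α')) % 2 = 0 := by
              by_contra h6
              have h7 : ((γ - α) * (γ' - α')) % 2 = 1 := by omega
              obtain ⟨h8, h9⟩ := par_mul.1 h7
              have p1 := pe α α'
              have p2 := pe α γ'
              have p3 := pe α' γ
              have p4 := pe γ γ'
              omega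
            rw [c2_even _ hgg0, c2_even _ h5, add_zero]
      rw [key, zero_mul]
    · have hc3 : ¬ ((2 : ℤ) ∣ c - 2 * α ∧ (2 : ℤ) ∣ c' - 2 * α') := by
        rintro ⟨h1, h2⟩
        exact hc ⟨by omega, by omega⟩
      rw [if_neg hc, if_neg hc3, add_zero, add_zero, hf1, gb_fo hA2, gb_fo hA2, go_f1]
      congr 1
      unfold k2 f1
      simp only
      have h2aa : (2 : ℤ) ∣ 2 * α * (2 * α') := ⟨2 * (α * α'), by ring⟩
      rw [if_pos h2aa]
      by_cases h : (2 : ℤ) ∣ α * α'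
      · rw [if_pos h]
      · rw [if_neg h]
        have haa : (α * α') % 2 = 1 := by omega
        obtain ⟨h1, h2⟩ := par_mul.1 haa
        have h34 : c % 2 = 1 ∧ c' % 2 = 1 := by
          have hdet : (α * c' - α' * c) % 2 = 0 := by rw [hd1]; omega
          have p2 := pe α c'
          have p3 := pe α' c
          have p4 : ¬ (c % 2 = 0 ∧ c' % 2 = 0) := fun h => hc ⟨by omega, by omega⟩
          omega
        refine c2_eq_of hR.q (s := α' * c) (par_mul.2 ⟨h2, h34.1⟩) haa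
          (par_mul.2 ⟨h34.1, h34.2⟩) ?_
        linear_combination (α' * c) * hd1
  · rw [if_neg ha, zero_add]
    by_cases hc : (2 : ℤ) ∣ c ∧ (2 : ℤ) ∣ c'
    · have hc3 : ¬ ((2 : ℤ) ∣ c - a ∧ (2 : ℤ) ∣ c' - a') := by
        rintro ⟨h1, h2⟩
        exact ha ⟨by omega, by omega⟩
      rw [if_pos hc, if_neg hc3, add_zero]
      obtain ⟨⟨γ, rfl⟩, ⟨γ', rfl⟩⟩ := hc
      have e3 : 2 * γ / 2 = γ := by omega
      have e4 : 2 * γ' / 2 = γ' := by omega
      rw [e3, e4]
      have hd1 : a * γ' - a' * γ = m := by linarith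
      have hf2 : fo (a, a', 2 * γ, 2 * γ') = fo (f2 (a, a', γ, γ')) := rfl
      rw [hf2, gb_fo hA2, gb_fo hA2, go_f2]
      congr 1
      unfold k2 f2
      simp only
      by_cases h : (2 : ℤ) ∣ a * a'
      · rw [if_pos h, if_pos h]
        have h5 : (2 * γ * (2 * γ')) % 2 = 0 := by
          have : 2 * γ * (2 * γ') = 2 * (2 * (γ * γ')) := by ring
          omega
        have h6 : (γ * γ') % 2 = 0 := by
          by_contra h7
          have h8 : (γ * γ') % 2 = 1 := by omega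
          obtain ⟨h3, h4⟩ := par_mul.1 h8
          have hdet : (a * γ' - a' * γ) % 2 = 0 := by rw [hd1]; omega
          have h0 : (a * a') % 2 = 0 := Int.emod_eq_zero_of_dvd h
          have p1 := pe a a'
          have p2 := pe a γ'
          have p3 := pe a' γ
          exact ha ⟨by omega, by omega⟩
        rw [c2_even _ h5, c2_even _ h6]
      · rw [if_neg h, if_neg h]
    · rw [if_neg hc, zero_add]
      have hc3 : (2 : ℤ) ∣ c - a ∧ (2 : ℤ) ∣ c' - a' := by
        have hdet : (a * c' - a' * c) % 2 = 0 := by rw [hd]; omega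
        have p2 := pe a c'
        have p3 := pe a' c
        have q1 : ¬ (a % 2 = 0 ∧ a' % 2 = 0) := fun h => ha ⟨by omega, by omega⟩
        have q2 : ¬ (c % 2 = 0 ∧ c' % 2 = 0) := fun h => hc ⟨by omega, by omega⟩
        omega
      rw [if_pos hc3]
      obtain ⟨⟨γ, hγ⟩, ⟨γ', hγ'⟩⟩ := hc3
      have ec : c = a + 2 * γ := by linarith
      have ec' : c' = a' + 2 * γ' := by linarith
      subst ec ec'
      have e3 : (a + 2 * γ - a) / 2 = γ := by omega
      have e4 : (a' + 2 * γ' - a') / 2 = γ' := by omega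
      rw [e3, e4]
      have hd1 : a * γ' - a' * γ = m := by linarith
      have hf3 : fo (a, a', a + 2 * γ, a' + 2 * γ') = fo (f3 (a, a', γ, γ')) := rfl
      rw [hf3, gb_fo hA2, gb_fo hA2, go_f3 (d := m) hd1 hpA]
      congr 1
      unfold k2 f3
      simp only
      by_cases h : (2 : ℤ) ∣ a * a'
      · rw [if_pos h, if_pos h]
        have h0 : (a * a') % 2 = 0 := Int.emod_eq_zero_of_dvd h
        have h5 : ((a + 2 * γ) * (a' + 2 * γ')) % 2 = 0 := by
          have e5 : (a + 2 * γ) * (a' + 2 * γ') = a * a' + 2 * (a * γ' + γ * a' + 2 * (γ * γ')) := by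
            ring
          omega
        have h6 : (γ * γ') % 2 = 0 := by
          by_contra h7
          have h8 : (γ * γ') % 2 = 1 := by omega
          obtain ⟨h3, h4⟩ := par_mul.1 h8
          have hdet : (a * γ' - a' * γ) % 2 = 0 := by rw [hd1]; omega
          have p1 := pe a a'
          have p2 := pe a γ'
          have p3 := pe a' γ
          exact ha ⟨by omega, by omega⟩
        rw [c2_even _ h5, c2_even _ h6]
      · rw [if_neg h, if_neg h]

open Classical in
/-- the identity for one matrix of determinant `2 m`, odd `m` -/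
theorem two_ptO {m b : ℕ} (hm : m % 2 = 1) {a a' c c' : ℤ} (hd : a * c' - a' * c = 2 * m) :
    (if (2 : ℤ) ∣ a ∧ (2 : ℤ) ∣ a' then gb m b (fo (a / 2, a' / 2, c, c')) else 0) +
    (if (2 : ℤ) ∣ c ∧ (2 : ℤ) ∣ c' then gb m b (fo (a, a', c / 2, c' / 2)) else 0) +
    (if (2 : ℤ) ∣ c - a ∧ (2 : ℤ) ∣ c' - a' then gb m b (fo (a, a', (c - a) / 2, (c' - a') / 2))
      else 0) = gb m b (fo (a, a', c, c')) := by
  have h2 : ¬ 2 ∣ m := by omega
  have hmz : (m : ℤ) % 2 = 1 := by omega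
  have hpA : ∀ p : ℕ, p.Prime → p ≠ 2 → p ∣ m → (p : ℤ) ∣ (m : ℤ) := fun p _ _ h => by
    exact_mod_cast h
  by_cases ha : (2 : ℤ) ∣ a ∧ (2 : ℤ) ∣ a'
  · obtain ⟨⟨α, rfl⟩, ⟨α', rfl⟩⟩ := ha
    have e1 : 2 * α / 2 = α := by omega
    have e2 : 2 * α' / 2 = α' := by omega
    have hd1 : α * c' - α' * c = m := by linarith
    have hc : ¬ ((2 : ℤ) ∣ c ∧ (2 : ℤ) ∣ c') := by
      rintro ⟨⟨γ, rfl⟩, ⟨γ', rfl⟩⟩
      have h3 : 2 * (α * γ' - α' * γ) = (m : ℤ) := by linarith
      omega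
    have hc3 : ¬ ((2 : ℤ) ∣ c - 2 * α ∧ (2 : ℤ) ∣ c' - 2 * α') := by
      rintro ⟨h1, h2⟩
      exact hc ⟨by omega, by omega⟩
    have hf1 : fo (2 * α, 2 * α', c, c') = fo (f1 (α, α', c, c')) := rfl
    rw [if_pos ⟨⟨α, rfl⟩, ⟨α', rfl⟩⟩, e1, e2, if_neg hc, if_neg hc3, add_zero, add_zero, hf1,
      gb_odd h2, gb_odd h2, go_f1]
  · rw [if_neg ha, zero_add]
    by_cases hc : (2 : ℤ) ∣ c ∧ (2 : ℤ) ∣ c'
    · have hc3 : ¬ ((2 : ℤ) ∣ c - a ∧ (2 : ℤ) ∣ c' - a') := by
        rintro ⟨h1, h2⟩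
        exact ha ⟨by omega, by omega⟩
      rw [if_pos hc, if_neg hc3, add_zero]
      obtain ⟨⟨γ, rfl⟩, ⟨γ', rfl⟩⟩ := hc
      have e3 : 2 * γ / 2 = γ := by omega
      have e4 : 2 * γ' / 2 = γ' := by omega
      rw [e3, e4]
      have hf2 : fo (a, a', 2 * γ, 2 * γ') = fo (f2 (a, a', γ, γ')) := rfl
      rw [hf2, gb_odd h2, gb_odd h2, go_f2]
    · rw [if_neg hc, zero_add]
      have hc3 : (2 : ℤ) ∣ c - a ∧ (2 : ℤ) ∣ c' - a' := by
        have hdet : (a * c' - a' * c) % 2 = 0 := by rw [hd]; omega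
        have p2 := pe a c'
        have p3 := pe a' c
        have q1 : ¬ (a % 2 = 0 ∧ a' % 2 = 0) := fun h => ha ⟨by omega, by omega⟩
        have q2 : ¬ (c % 2 = 0 ∧ c' % 2 = 0) := fun h => hc ⟨by omega, by omega⟩
        omega
      rw [if_pos hc3]
      obtain ⟨⟨γ, hγ⟩, ⟨γ', hγ'⟩⟩ := hc3
      have ec : c = a + 2 * γ := by linarith
      have ec' : c' = a' + 2 * γ' := by linarith
      subst ec ec'
      have e3 : (a + 2 * γ - a) / 2 = γ := by omega
      have e4 : (a' + 2 * γ' - a') / 2 = γ' := by omega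
      rw [e3, e4]
      have hd1 : a * γ' - a' * γ = m := by linarith
      have hf3 : fo (a, a', a + 2 * γ, a' + 2 * γ') = fo (f3 (a, a', γ, γ')) := rfl
      rw [hf3, gb_odd h2, gb_odd h2, go_f3 (d := m) hd1 hpA]

open Classical in
theorem two_pt {m b : ℕ} (H : Ok m b) {a a' c c' : ℤ} (hd : a * c' - a' * c = 2 * m) :
    (if (2 : ℤ) ∣ a ∧ (2 : ℤ) ∣ a' then gb m b (fo (a / 2, a' / 2, c, c')) else 0) +
    (if (2 : ℤ) ∣ c ∧ (2 : ℤ) ∣ c' then gb m b (fo (a, a', c / 2, c' / 2)) else 0) +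
    (if (2 : ℤ) ∣ c - a ∧ (2 : ℤ) ∣ c' - a' then gb m b (fo (a, a', (c - a) / 2, (c' - a') / 2))
      else 0) = gb m b (fo (a, a', c, c')) := by
  rcases H.or with h | h
  · exact two_ptO h hd
  · exact two_ptE h hd

theorem FF_fin (n d : ℕ) (hn : 0 < n) (hd : 0 < d) (x : ℤ) : (FF P Q d x n).Finite := by
  have h := bijOn (P := P) (Q := Q) n d hn hd x
  rw [← h.image_eq]
  exact (Finset.finite_toSet _).image _

end

end Pool.Agent.N974.P21G
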